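import Mathlib

/-! Definitions used in the statement about topological full groups. -/

namespace FG63

open Topology

/-- `H` has a finite-index subgroup that embeds in a finitely generated right-angled Coxeter
group (off-diagonal entries of the Coxeter matrix are `2`, or `0` which stands for `∞`). -/
def VirtuallyInRACG (H : Type) [Group H] : Prop :=
  ∃ K : Subgroup H, K.FiniteIndex ∧
    ∃ (B : Type) (_ : Finite B) (N : CoxeterMatrix B),
      (∀ i j, i ≠ j → N i j = 2 ∨ N i j = 0) ∧ ∃ φ : K →* N.Group, Function.Injective φ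

/-- `H` is the colimit of a directed system `(G i, f i j)` of groups (the structure maps are
arbitrary homomorphisms) each of which virtually embeds in a finitely generated right-angled
Coxeter group: there are compatible maps `ε i : G i → H` that are jointly onto, and every element
killed by `ε i` is killed by some structure map. -/
def IsColimitOfVirtuallyInRACG (H : Type) [Group H] : Prop :=
  ∃ (I : Type) (_ : Preorder I) (_ : Nonempty I) (_ : ∀ i j : I, ∃ k, i ≤ k ∧ j ≤ k)
    (G : I → Type) (_ : ∀ i, Group (G i)) (f : ∀ i j : I, i ≤ j → G i →* G j)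
    (ε : ∀ i, G i →* H),
    (∀ i, VirtuallyInRACG (G i)) ∧
    (∀ i x, f i i le_rfl x = x) ∧
    (∀ i j k (hij : i ≤ j) (hjk : j ≤ k) x, f j k hjk (f i j hij x) = f i k (hij.trans hjk) x) ∧
    (∀ i j (hij : i ≤ j) x, ε j (f i j hij x) = ε i x) ∧
    (∀ g, ∃ i x, ε i x = g) ∧
    (∀ i x, ε i x = 1 → ∃ (j : I) (hij : i ≤ j), f i j hij x = 1)

variable {X : Type} [TopologicalSpace X]

/-- `g` is the identity on a neighbourhood of `x`. -/
def TrivialGerm (g : X ≃ₜ X) (x : X) : Prop := ∀ᶠ y in 𝓝 x, g y = y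

/-- The germs of the groups `A i` are free: if a nonempty alternating product
`a₁ a₂ ⋯ aₙ` (with `aₖ ∈ A iₖ`, `iₖ ≠ iₖ₊₁`) is the identity near `x`, then some letter `aₖ` is
the identity near the point `aₖ₊₁ ⋯ aₙ x` at which it is applied. -/
def FreeGerms {ι : Type} (A : ι → Subgroup (X ≃ₜ X)) : Prop :=
  ∀ (L : List (ι × (X ≃ₜ X))) (x : X), L ≠ [] → (∀ p ∈ L, p.2 ∈ A p.1) →
    L.IsChain (fun p q => p.1 ≠ q.1) → TrivialGerm (L.map Prod.snd).prod x →
    ∃ L₁ p L₂, L = L₁ ++ p :: L₂ ∧ TrivialGerm p.2 ((L₂.map Prod.snd).prod x)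

/-- `g` belongs to the topological full group of `Γ`: near every point it agrees with an
element of `Γ`. -/
def LocallyIn (Γ : Subgroup (X ≃ₜ X)) (g : X ≃ₜ X) : Prop :=
  ∀ x, ∃ γ ∈ Γ, ∀ᶠ y in 𝓝 x, g y = γ y

end FG63
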