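import Pool.Agent.Lib.MP_63c928_gt.FG.Sum

/-! A finite model from invariant weights. -/

open Classical

namespace FG63

theorem exists_rat_linear {α : Type} (s : Finset α) (r : α → ℝ) (hr : ∀ a ∈ s, 0 < r a) :
    ∃ φ : ℝ →ₗ[ℚ] ℚ, ∀ a ∈ s, 0 < φ (r a) := by
  let b := Module.Basis.ofVectorSpace ℚ ℝ
  let L : α → (Module.Basis.ofVectorSpaceIndex ℚ ℝ → ℝ) → ℝ := fun a g =>
    ∑ i ∈ (b.repr (r a)).support, ((b.repr (r a) i : ℚ) : ℝ) * g i
  have hopen : IsOpen (⋂ a ∈ s, {g | 0 < L a g}) := by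
    refine isOpen_biInter_finset fun a _ => isOpen_lt continuous_const ?_
    exact continuous_finsetSum _ fun i _ => continuous_const.mul (continuous_apply i)
  have hne : (⋂ a ∈ s, {g | 0 < L a g}).Nonempty := by
    refine ⟨fun i => b i, ?_⟩
    simp only [Set.mem_iInter, Set.mem_ofPred_eq]
    intro a ha
    have := b.linearCombination_repr (r a)
    rw [Finsupp.linearCombination_apply, Finsupp.sum] at this
    simp only [Rat.smul_def] at this
    simp only [L]
    rw [this]; exact hr a ha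
  have hd : DenseRange (Pi.map fun (_ : Module.Basis.ofVectorSpaceIndex ℚ ℝ) (q : ℚ) => (q : ℝ)) :=
    DenseRange.piMap fun _ => Rat.denseRange_cast
  obtain ⟨g, hg⟩ := hd.exists_mem_open hopen hne
  refine ⟨b.constr ℚ g, fun a ha => ?_⟩
  simp only [Set.mem_iInter, Set.mem_ofPred_eq] at hg
  have := hg a ha
  simp only [L, Pi.map_apply] at this
  rw [Module.Basis.constr_apply, Finsupp.sum]
  simp only [smul_eq_mul]
  exact_mod_cast this

theorem exists_nat_weights {α : Type} (s : Finset α) (r : α → ℝ) (hr : ∀ a ∈ s, 0 < r a) :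
    ∃ k : α → ℕ, (∀ a ∈ s, 0 < k a) ∧ (∀ a b, r a = r b → k a = k b) ∧
      ∀ t t' : Finset α, t ⊆ s → t' ⊆ s → ∑ a ∈ t, r a = ∑ a ∈ t', r a →
        ∑ a ∈ t, k a = ∑ a ∈ t', k a := by
  obtain ⟨φ, hφ⟩ := exists_rat_linear s r hr
  let N : ℕ := ∏ a ∈ s, (φ (r a)).den
  have hN : 0 < N := Finset.prod_pos fun a _ => (φ (r a)).den_pos
  have key : ∀ a ∈ s, (((φ (r a) * N).num.toNat : ℕ) : ℚ) = φ (r a) * N := by
    intro a ha
    obtain ⟨c, hc⟩ : (φ (r a)).den ∣ N := Finset.dvd_prod_of_mem _ ha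
    have e : φ (r a) * N = (((φ (r a)).num * c : ℤ) : ℚ) := by
      rw [hc]; push_cast
      rw [← mul_assoc, Rat.mul_den_eq_num]
    have p : 0 < φ (r a) * N := mul_pos (hφ a ha) (by exact_mod_cast hN)
    rw [e] at p ⊢
    rw [Rat.num_intCast]
    have p' : 0 ≤ (φ (r a)).num * c := by exact_mod_cast p.le
    exact_mod_cast congrArg (fun z : ℤ => (z : ℚ)) (Int.toNat_of_nonneg p')
  refine ⟨fun a => (φ (r a) * N).num.toNat, ?_, ?_, ?_⟩
  · intro a ha
    have p : 0 < φ (r a) * N := mul_pos (hφ a ha) (by exact_mod_cast hN)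
    rw [← key a ha] at p
    exact_mod_cast p
  · intro a b e; simp only [e]
  · intro t t' h1 h2 e
    have e2 := congrArg φ e
    rw [map_sum, map_sum] at e2
    have : ((∑ a ∈ t, (φ (r a) * N).num.toNat : ℕ) : ℚ) =
        ((∑ a ∈ t', (φ (r a) * N).num.toNat : ℕ) : ℚ) := by
      push_cast
      rw [Finset.sum_congr rfl fun a ha => key a (h1 ha),
        Finset.sum_congr rfl fun a ha => key a (h2 ha), ← Finset.sum_mul, ← Finset.sum_mul, e2]
    exact_mod_cast this

/-- Points with multiplicities. -/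
def Mult {α : Type} (t : Finset α) (k : α → ℕ) : Type := {x : α × ℕ // x.1 ∈ t ∧ x.2 < k x.1}

/-- Description as a sigma type. -/
def multEquiv {α : Type} (t : Finset α) (k : α → ℕ) : Mult t k ≃ Σ a : t, Fin (k a) where
  toFun x := ⟨⟨x.1.1, x.2.1⟩, ⟨x.1.2, x.2.2⟩⟩
  invFun y := ⟨(y.1.1, y.2.1), y.1.2, y.2.2⟩
  left_inv _ := rfl
  right_inv _ := rfl

instance {α : Type} (t : Finset α) (k : α → ℕ) : Finite (Mult t k) :=
  Finite.of_equiv _ (multEquiv t k).symm

theorem card_mult {α : Type} (t : Finset α) (k : α → ℕ) :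
    Nat.card (Mult t k) = ∑ a ∈ t, k a := by
  rw [Nat.card_congr (multEquiv t k), Nat.card_sigma]
  simp only [Nat.card_eq_fintype_card, Fintype.card_fin]
  exact Finset.sum_coe_sort t k

variable {G : Type} [Group G] {P : Type} {o : P} {D Z : Type}

namespace Mdl

theorem exists_finset [Finite G] [Finite P] [Finite D] (M : Mdl G P o D Z) :
    ∃ s : Finset (Z × P), (∀ h, ∀ y ∈ s, M.act h y ∈ s) ∧ (∀ y, ∃ y' ∈ s, M.pc y' = M.pc y) ∧
      ∀ h y, M.act h y ≠ y → ∃ y' ∈ s, M.pc y' = M.pc y ∧ M.act h y' ≠ y' := by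
  let lab : Z × P → (G → D × P) × (G → Prop) := fun y => (M.pc y, fun h => M.act h y = y)
  have h0 : ∀ u : Set.range lab, ∃ y, lab y = u := fun u => u.2
  choose w hw using h0
  have hf : (Set.range fun p : G × Set.range lab => M.act p.1 (w p.2)).Finite := Set.finite_range _
  refine ⟨hf.toFinset, ?_, ?_, ?_⟩
  · intro h y hy
    rw [Set.Finite.mem_toFinset] at hy ⊢
    obtain ⟨⟨k, u⟩, rfl⟩ := hy
    exact ⟨(h * k, u), by simp⟩
  · intro y
    refine ⟨w ⟨lab y, y, rfl⟩, ?_, congrArg Prod.fst (hw ⟨lab y, y, rfl⟩)⟩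
    rw [Set.Finite.mem_toFinset]
    exact ⟨(1, ⟨lab y, y, rfl⟩), by simp⟩
  · intro h y hy
    refine ⟨w ⟨lab y, y, rfl⟩, ?_, congrArg Prod.fst (hw ⟨lab y, y, rfl⟩), ?_⟩
    · rw [Set.Finite.mem_toFinset]
      exact ⟨(1, ⟨lab y, y, rfl⟩), by simp⟩
    · have := congrFun (congrArg Prod.snd (hw ⟨lab y, y, rfl⟩)) h
      simp only [lab] at this
      intro k
      exact hy (this ▸ k)

theorem exists_compat_of_weights (M : Mdl G P o D Z) (hc : ∀ z z', M.col z = M.col z')
    (s : Finset (Z × P)) (s1 : ∀ h, ∀ y ∈ s, M.act h y ∈ s)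
    (s2 : ∀ y, ∃ y' ∈ s, M.pc y' = M.pc y)
    (s3 : ∀ h y, M.act h y ≠ y → ∃ y' ∈ s, M.pc y' = M.pc y ∧ M.act h y' ≠ y')
    (k : Z × P → ℕ) (k1 : ∀ y ∈ s, 0 < k y) (k2 : ∀ h, ∀ y ∈ s, k (M.act h y) = k y)
    (k3 : ∀ d π, ∑ y ∈ s.filter (fun y => (M.atm y.1, y.2) = (d, π)), k y =
      ∑ y ∈ s.filter (fun y => (M.atm y.1, y.2) = (d, o)), k y) :
    ∃ (Z₂ : Type) (_ : Finite Z₂) (M₂ : Mdl G P o D Z₂), Compat M M₂ := by
  let O := Mult s k
  let Zf := {x : O // x.1.1.2 = o}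
  let f : O → D × P := fun x => (M.atm x.1.1.1, x.1.1.2)
  let af : Zf → D := fun z => M.atm z.1.1.1.1
  let g : Zf × P → D × P := fun p => (af p.1, p.2)
  have hcard : ∀ c, Nat.card {x // f x = c} = Nat.card {p // g p = c} := by
    rintro ⟨d, π⟩
    have e1 : {x // f x = (d, π)} ≃
        Mult (s.filter (fun y => (M.atm y.1, y.2) = (d, π))) k :=
      { toFun := fun x => ⟨x.1.1, Finset.mem_filter.mpr ⟨x.1.2.1, x.2⟩, x.1.2.2⟩
        invFun := fun x => ⟨⟨x.1, (Finset.mem_filter.mp x.2.1).1, x.2.2⟩,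
          (Finset.mem_filter.mp x.2.1).2⟩
        left_inv := fun _ => rfl
        right_inv := fun _ => rfl }
    have e2 : {p // g p = (d, π)} ≃
        Mult (s.filter (fun y => (M.atm y.1, y.2) = (d, o))) k :=
      { toFun := fun p => ⟨p.1.1.1.1, Finset.mem_filter.mpr ⟨p.1.1.1.2.1,
          Prod.ext (Prod.ext_iff.mp p.2).1 p.1.1.2⟩, p.1.1.1.2.2⟩
        invFun := fun x => ⟨(⟨⟨x.1, (Finset.mem_filter.mp x.2.1).1, x.2.2⟩,
          (Prod.ext_iff.mp (Finset.mem_filter.mp x.2.1).2).2⟩, π),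
          Prod.ext (Prod.ext_iff.mp (Finset.mem_filter.mp x.2.1).2).1 rfl⟩
        left_inv := fun p => Subtype.ext (Prod.ext rfl (Prod.ext_iff.mp p.2).2.symm)
        right_inv := fun _ => rfl }
    rw [Nat.card_congr e1, Nat.card_congr e2, card_mult, card_mult, k3]
  have hfin : ∀ c, Finite {p // g p = c} := by
    rintro ⟨d, π⟩
    refine Finite.of_injective (fun p : {p // g p = (d, π)} => p.1.1) ?_
    intro p q e
    exact Subtype.ext (Prod.ext e ((Prod.ext_iff.mp p.2).2.trans (Prod.ext_iff.mp q.2).2.symm))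
  let e : O ≃ Zf × P := Equiv.ofFiberEquiv fun c => (Finite.card_eq.mp (hcard c)).some
  have he : ∀ x, g (e x) = f x := fun x => Equiv.ofFiberEquiv_map _ x
  let F : G → O → O := fun h x =>
    ⟨(M.act h x.1.1, x.1.2), s1 h _ x.2.1, by rw [k2 h _ x.2.1]; exact x.2.2⟩
  have F1 : ∀ x, F 1 x = x := fun x => Subtype.ext (Prod.ext (by simp [F]) rfl)
  have Fm : ∀ h h' x, F (h * h') x = F h (F h' x) := fun h h' x =>
    Subtype.ext (Prod.ext (by simp [F]) rfl)
  let M₂ : Mdl G P o D Zf :=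
    { col := fun _ => true
      atm := af
      act := permHom (fun h y => e (F h (e.symm y))) (fun y => by simp [F1])
        (fun h h' y => by simp [Fm])
      act_o := by
        intro h z
        rw [permHom_apply]
        have : (e.symm (z, o)).1.1.2 = o := by
          have := he (e.symm (z, o))
          rw [Equiv.apply_symm_apply] at this
          exact (Prod.ext_iff.mp this).2.symm
        have e2 : F h (e.symm (z, o)) = e.symm (z, o) :=
          Subtype.ext (Prod.ext (M.act_of_o h this) rfl)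
        rw [e2, Equiv.apply_symm_apply]
      col_act := fun _ _ => rfl }
  have hact : ∀ h x, M₂.act h (e x) = e (F h x) := by
    intro h x
    change e (F h (e.symm (e x))) = _
    rw [Equiv.symm_apply_apply]
  have hpc : ∀ x, M₂.pc (e x) = M.pc x.1.1 := by
    intro x
    funext h
    change (M₂.atm (M₂.act h (e x)).1, (M₂.act h (e x)).2) = _
    rw [hact]
    exact he (F h x)
  refine ⟨Zf, inferInstance, M₂, hc, fun _ _ => rfl, ?_, ?_, ?_⟩
  · intro y
    obtain ⟨y', h1, h2⟩ := s2 y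
    exact ⟨e ⟨(y', 0), h1, k1 _ h1⟩, (hpc _).trans h2⟩
  · intro y
    obtain ⟨x, rfl⟩ := e.surjective y
    exact ⟨x.1.1, (hpc x).symm⟩
  · intro h u
    constructor
    · intro H y hy
      obtain ⟨x, rfl⟩ := e.surjective y
      rw [hact]
      congr 1
      exact Subtype.ext (Prod.ext (H _ (by rw [← hpc, hy])) rfl)
    · intro H y hy
      by_contra hne
      obtain ⟨y', h1, h2, h3⟩ := s3 h y hne
      have := H (e ⟨(y', 0), h1, k1 _ h1⟩) ((hpc _).trans (h2.trans hy))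
      exact h3 (congrArg (fun x : O => x.1.1) (e.injective ((hact _ _).symm.trans this)))

theorem virt_of_weights [Finite G] [Finite P] [Finite D] (M : Mdl G P o D Z)
    (hc : ∀ z z', M.col z = M.col z') (m : (G → D × P) → ℝ) (hpos : ∀ y, 0 < m (M.pc y))
    (hinv : ∀ h y, m (M.pc (M.act h y)) = m (M.pc y)) (ν : D → ℝ)
    (hsum : ∀ d π (t : Finset (G → D × P)), (∀ u, u ∈ t ↔ (∃ y, M.pc y = u) ∧ u 1 = (d, π)) →
      ∑ u ∈ t, m u = ν d) : VirtuallyInRACG M.rs.Pi := by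
  obtain ⟨s, s1, s2, s3⟩ := M.exists_finset
  let c : (G → D × P) → ℕ := fun u => (s.filter fun y => M.pc y = u).card
  have c1 : ∀ y ∈ s, 0 < c (M.pc y) := fun y hy =>
    Finset.card_pos.mpr ⟨y, Finset.mem_filter.mpr ⟨hy, rfl⟩⟩
  have c2 : ∀ h y, c (M.pc (M.act h y)) = c (M.pc y) := by
    intro h y
    symm
    refine Finset.card_bij (fun y' _ => M.act h y') ?_ ?_ ?_
    · intro y' hy'
      rw [Finset.mem_filter] at hy' ⊢
      exact ⟨s1 h _ hy'.1, (M.pc_act_iff _ _ _).mpr hy'.2⟩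
    · intro a _ b _ e; exact (M.act h).injective e
    · intro y' hy'
      rw [Finset.mem_filter] at hy'
      refine ⟨M.act h⁻¹ y', Finset.mem_filter.mpr ⟨s1 _ _ hy'.1, ?_⟩, by simp⟩
      rw [← M.pc_act_iff h, act_act_inv]; exact hy'.2
  obtain ⟨k, k1, k2, k3⟩ := exists_nat_weights s (fun y => m (M.pc y) / c (M.pc y))
    (fun y hy => div_pos (hpos y) (by exact_mod_cast c1 y hy))
  have key : ∀ d π, ∑ y ∈ s.filter (fun y => (M.atm y.1, y.2) = (d, π)),
      m (M.pc y) / c (M.pc y) = ν d := by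
    intro d π
    rw [← hsum d π ((s.filter (fun y => (M.atm y.1, y.2) = (d, π))).image M.pc)]
    · rw [Finset.sum_comp (fun u => m u / c u) M.pc]
      refine Finset.sum_congr rfl fun u hu => ?_
      obtain ⟨y, hy, rfl⟩ := Finset.mem_image.mp hu
      rw [Finset.mem_filter] at hy
      have : ((s.filter (fun y => (M.atm y.1, y.2) = (d, π))).filter
          fun y' => M.pc y' = M.pc y).card = c (M.pc y) := by
        congr 1
        ext y'
        simp only [Finset.mem_filter]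
        refine ⟨fun h => ⟨h.1.1, h.2⟩, fun h => ⟨⟨h.1, ?_⟩, h.2⟩⟩
        rw [← M.pc_one, h.2, M.pc_one, hy.2]
      rw [this, nsmul_eq_mul]
      have : (c (M.pc y) : ℝ) ≠ 0 := by exact_mod_cast (c1 y hy.1).ne'
      field_simp
    · intro u
      rw [Finset.mem_image]
      constructor
      · rintro ⟨y, hy, rfl⟩
        exact ⟨⟨y, rfl⟩, by rw [M.pc_one]; exact (Finset.mem_filter.mp hy).2⟩
      · rintro ⟨⟨y, rfl⟩, h2⟩
        obtain ⟨y', h3, h4⟩ := s2 y
        exact ⟨y', Finset.mem_filter.mpr ⟨h3, by rw [← M.pc_one, h4, h2]⟩, h4⟩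
  obtain ⟨Z₂, _, M₂, H⟩ := M.exists_compat_of_weights hc s s1 s2 s3 k k1
    (fun h y _ => k2 _ _ (by simp only [hinv, c2]))
    (fun d π => k3 _ _ (Finset.filter_subset _ _) (Finset.filter_subset _ _)
      (by rw [key, key]))
  exact H.virt

end Mdl

end FG63
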