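import Pool.Agent.Lib.MP_63c928_gt.FG.Main

/-! Cocycle data attached to a family of finite and infinite cyclic groups. -/

open Classical Topology Filter MeasureTheory

namespace FG63

variable {X : Type} [TopologicalSpace X] {ι : Type} (A : ι → Subgroup (X ≃ₜ X))
  (T : ι → (X ≃ₜ X))

/-- The finite factors. -/
noncomputable def finF (i : ι) : Subgroup (X ≃ₜ X) := if Finite (A i) then A i else ⊥

instance (i : ι) : Finite (finF A i) := by
  unfold finF
  split_ifs with h
  · exact h
  · infer_instance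

theorem finF_le (i : ι) : finF A i ≤ A i := by
  unfold finF
  split_ifs
  · exact le_rfl
  · exact bot_le

/-- Height of a port. -/
def ht (b : Bool) : ℤ := if b then 1 else 0

/-- The cocycle data. -/
noncomputable def core :
    Core X ((∀ i, finF A i) × (ι → Equiv.Perm Bool)) (Option (ι × Bool)) none where
  st h π := match π with
    | none => 1
    | some (i, b) =>
      if Finite (A i) then (if b then 1 else (h.1 i : X ≃ₜ X)) else T i ^ (ht (h.2 i b) - ht b)
  pt h π := match π with
    | none => none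
    | some (i, b) => some (i, if Finite (A i) then b else h.2 i b)
  st_one := by
    rintro (_ | ⟨i, b⟩)
    · rfl
    · simp
  pt_one := by
    rintro (_ | ⟨i, b⟩)
    · rfl
    · simp
  st_mul := by
    rintro h k (_ | ⟨i, b⟩)
    · simp
    · by_cases e : Finite (A i)
      · cases b <;> simp [e]
      · simp only [e, if_false, ← zpow_add]
        simp
  pt_mul := by
    rintro h k (_ | ⟨i, b⟩)
    · rfl
    · by_cases e : Finite (A i) <;> simp [e]
  st_o _ := rfl
  pt_o _ := rfl

theorem core_st (h : (∀ i, finF A i) × (ι → Equiv.Perm Bool)) (i : ι) (b : Bool) :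
    (core A T).st h (some (i, b)) =
      if Finite (A i) then (if b then 1 else (h.1 i : X ≃ₜ X))
      else T i ^ (ht (h.2 i b) - ht b) := rfl

theorem core_pt (h : (∀ i, finF A i) × (ι → Equiv.Perm Bool)) (i : ι) (b : Bool) :
    (core A T).pt h (some (i, b)) = some (i, if Finite (A i) then b else h.2 i b) := rfl

variable (hT : ∀ i, ¬ Finite (A i) → A i = Subgroup.zpowers (T i) ∧
  ∀ n : ℤ, n ≠ 0 → ∀ x, ¬ TrivialGerm (T i ^ n) x)

include hT

theorem zpow_mem_A {i : ι} (e : ¬ Finite (A i)) (n : ℤ) : T i ^ n ∈ A i := by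
  rw [(hT i e).1]; exact ⟨n, rfl⟩

theorem core_st_mem (h : (∀ i, finF A i) × (ι → Equiv.Perm Bool)) (i : ι) (b : Bool) :
    (core A T).st h (some (i, b)) ∈ A i := by
  rw [core_st]
  split_ifs with e e'
  · exact one_mem _
  · exact finF_le A i (h.1 i).2
  · exact zpow_mem_A A T hT e _

theorem le_core_Γ : ⨆ i, A i ≤ (core A T).Γ := by
  refine iSup_le fun i => ?_
  by_cases e : Finite (A i)
  · intro a ha
    have ha' : a ∈ finF A i := by unfold finF; rwa [if_pos e]
    have := (core A T).st_mem (Pi.mulSingle i ⟨a, ha'⟩, 1) (some (i, false))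
    simpa [core_st, e] using this
  · rw [(hT i e).1, Subgroup.zpowers_le]
    have := (core A T).st_mem (1, fun _ => Equiv.swap false true) (some (i, false))
    simpa [core_st, e, ht] using this

omit hT in
theorem trivialGerm_one (x : X) : TrivialGerm (1 : X ≃ₜ X) x := Eventually.of_forall fun _ => rfl

theorem core_free (hF : FreeGerms A) : (core A T).Free := by
  intro x
  let NT : List (ι × (X ≃ₜ X)) → Prop := fun L =>
    ∀ L₁ p L₂, L = L₁ ++ p :: L₂ → ¬ TrivialGerm p.2 ((L₂.map Prod.snd).prod x)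
  have NTc : ∀ p L, NT L → ¬ TrivialGerm p.2 ((L.map Prod.snd).prod x) → NT (p :: L) := by
    intro p L h1 h2 L₁ q L₂ e
    cases L₁ with
    | nil =>
      obtain ⟨rfl, rfl⟩ := List.cons.inj e
      exact h2
    | cons r L₁ => exact h1 L₁ q L₂ (List.cons.inj e).2
  have NTt : ∀ p L, NT (p :: L) → NT L := fun p L h L₁ q L₂ e => h (p :: L₁) q L₂ (by simp [e])
  have key : ∀ g π, (core A T).Path x g π → ∃ L : List (ι × (X ≃ₜ X)),
      g = (L.map Prod.snd).prod ∧ (∀ p ∈ L, p.2 ∈ A p.1) ∧ L.IsChain (fun p q => p.1 ≠ q.1) ∧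
      NT L ∧ ((L = [] ∧ π = none) ∨ ∃ i b a L', L = (i, a) :: L' ∧ π = some (i, b) ∧
        (Finite (A i) → b = false) ∧
        (¬ Finite (A i) → ∃ n : ℤ, a = T i ^ n ∧ if b then 0 < n else n < 0)) := by
    intro g π hp
    induction hp with
    | nil => exact ⟨[], rfl, by simp, List.isChain_nil, by simp [NT], Or.inl ⟨rfl, rfl⟩⟩
    | @step g π h π' _ h1 h2 h3 ih =>
      obtain ⟨L, rfl, k1, k2, k3, k4⟩ := ih
      obtain _ | ⟨j, c⟩ := π'
      · exact absurd rfl h2
      have newl : (∀ i a L', L = (i, a) :: L' → j ≠ i) →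
          ¬ TrivialGerm ((core A T).st h (some (j, c))) ((L.map Prod.snd).prod x) →
          ∀ b, (core A T).pt h (some (j, c)) = some (j, b) → (Finite (A j) → b = false) →
          (¬ Finite (A j) → ∃ n : ℤ, (core A T).st h (some (j, c)) = T j ^ n ∧
            if b then 0 < n else n < 0) →
          ∃ L' : List (ι × (X ≃ₜ X)),
            (core A T).st h (some (j, c)) * (L.map Prod.snd).prod = (L'.map Prod.snd).prod ∧
            (∀ p ∈ L', p.2 ∈ A p.1) ∧ L'.IsChain (fun p q => p.1 ≠ q.1) ∧
            NT L' ∧ ((L' = [] ∧ (core A T).pt h (some (j, c)) = none) ∨ ∃ i b a L'',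
              L' = (i, a) :: L'' ∧ (core A T).pt h (some (j, c)) = some (i, b) ∧
              (Finite (A i) → b = false) ∧
              (¬ Finite (A i) → ∃ n : ℤ, a = T i ^ n ∧ if b then 0 < n else n < 0)) := by
        intro a1 a2 b a3 a4 a5
        refine ⟨(j, (core A T).st h (some (j, c))) :: L, by simp, ?_, ?_, NTc _ _ k3 a2,
          Or.inr ⟨j, b, _, L, rfl, a3, a4, a5⟩⟩
        · intro p hp
          rcases List.mem_cons.mp hp with rfl | hp
          · exact core_st_mem A T hT h j c
          · exact k1 p hp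
        · cases L with
          | nil => exact List.isChain_singleton _
          | cons q L => exact List.isChain_cons_cons.mpr ⟨a1 q.1 q.2 L rfl, k2⟩
      by_cases e : Finite (A j)
      · have hp : (core A T).pt h (some (j, c)) = some (j, c) := by rw [core_pt, if_pos e]
        have hc : c = false := by
          cases c
          · rfl
          · exact absurd ⟨hp, by simpa [core_st, e] using trivialGerm_one _⟩ h3
        refine newl ?_ (fun k => h3 ⟨hp, k⟩) c hp (fun _ => hc) (fun k => absurd e k)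
        rintro i a L' rfl rfl
        rcases k4 with ⟨k, -⟩ | ⟨i, b, a', L'', k5, k6, k7, -⟩
        · simp at k
        · obtain ⟨k8, -⟩ := List.cons.inj k5
          obtain ⟨rfl, -⟩ := Prod.ext_iff.mp k8
          exact h1 (by rw [k6, k7 e, hc])
      · have hp : (core A T).pt h (some (j, c)) = some (j, h.2 j c) := by rw [core_pt, if_neg e]
        have hs : (core A T).st h (some (j, c)) = T j ^ (ht (h.2 j c) - ht c) := by
          rw [core_st, if_neg e]
        have hne : h.2 j c ≠ c := by
          intro k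
          exact h3 ⟨by rw [hp, k], by simpa [hs, k] using trivialGerm_one _⟩
        have hsg : if h.2 j c then 0 < ht (h.2 j c) - ht c else ht (h.2 j c) - ht c < 0 := by
          revert hne
          cases h.2 j c <;> cases c <;> simp [ht]
        have hnz : ht (h.2 j c) - ht c ≠ 0 := by
          split_ifs at hsg <;> omega
        by_cases hd : ∀ i a L', L = (i, a) :: L' → j ≠ i
        · exact newl hd (by rw [hs]; exact (hT j e).2 _ hnz _) _ hp (fun k => absurd k e)
            (fun _ => ⟨_, hs, hsg⟩)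
        · push Not at hd
          obtain ⟨i, a, L', rfl, rfl⟩ := hd
          rcases k4 with ⟨k, -⟩ | ⟨i, b, a', L'', k5, k6, -, k7⟩
          · simp at k
          obtain ⟨k8, rfl⟩ := List.cons.inj k5
          obtain ⟨rfl, rfl⟩ := Prod.ext_iff.mp k8
          obtain ⟨n, k9, k10⟩ := k7 e
          simp only at k9
          have hb : b = h.2 j c := by
            have : c ≠ b := fun k => h1 (by rw [k6, k])
            revert hne this
            cases h.2 j c <;> cases c <;> cases b <;> simp
          have hsg' : if h.2 j c then 0 < ht (h.2 j c) - ht c + n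
              else ht (h.2 j c) - ht c + n < 0 := by
            rw [hb] at k10
            split_ifs at hsg k10 ⊢ <;> omega
          have hnz' : ht (h.2 j c) - ht c + n ≠ 0 := by
            split_ifs at hsg' <;> omega
          refine ⟨(j, T j ^ (ht (h.2 j c) - ht c + n)) :: L', ?_, ?_, ?_,
            NTc _ _ (NTt _ _ k3) ((hT j e).2 _ hnz' _),
            Or.inr ⟨j, _, _, L', rfl, hp, fun k => absurd k e, fun _ => ⟨_, rfl, hsg'⟩⟩⟩
          · simp [hs, k9, zpow_add, mul_assoc]
          · intro p hp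
            rcases List.mem_cons.mp hp with rfl | hp
            · exact zpow_mem_A A T hT e _
            · exact k1 p (List.mem_cons_of_mem _ hp)
          · cases L' with
            | nil => exact List.isChain_singleton _
            | cons q L' =>
              rw [List.isChain_cons_cons] at k2 ⊢
              exact k2
  intro g π hp hπ hg
  obtain ⟨L, rfl, k1, k2, k3, k4⟩ := key g π hp
  have hL : L ≠ [] := by
    rcases k4 with ⟨-, k⟩ | ⟨i, b, a, L', k, -⟩
    · exact absurd k hπ
    · simp [k]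
  obtain ⟨L₁, p, L₂, e, k⟩ := hF L x hL k1 k2 hg
  exact k3 L₁ p L₂ e k

omit hT in
theorem exists_gens (hA : ∀ i, Finite (A i) ∨
    (IsCyclic (A i) ∧ ∀ a ∈ A i, a ≠ 1 → ∀ x, ¬ TrivialGerm a x)) :
    ∃ T : ι → (X ≃ₜ X), ∀ i, ¬ Finite (A i) → A i = Subgroup.zpowers (T i) ∧
      ∀ n : ℤ, n ≠ 0 → ∀ x, ¬ TrivialGerm (T i ^ n) x := by
  have : ∀ i, ∃ t : X ≃ₜ X, ¬ Finite (A i) → A i = Subgroup.zpowers t ∧
      ∀ n : ℤ, n ≠ 0 → ∀ x, ¬ TrivialGerm (t ^ n) x := by
    intro i
    rcases hA i with h | ⟨h1, h2⟩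
    · exact ⟨1, fun k => absurd h k⟩
    · obtain ⟨t, ht⟩ := (Subgroup.isCyclic_iff_exists_zpowers_eq_top (A i)).mp h1
      refine ⟨t, fun k => ⟨ht.symm, fun n hn => h2 _ (ht ▸ ⟨n, rfl⟩) fun e => k ?_⟩⟩
      rw [← ht]
      exact (finite_zpowers.mpr (isOfFinOrder_iff_zpow_eq_one.mpr ⟨n, hn, e⟩)).to_subtype
  exact Classical.skolem.mp this

omit hT in
theorem fullGroups [CompactSpace X] [T2Space X] [TotallyDisconnectedSpace X]
    [MeasurableSpace X] [BorelSpace X] (μ : Measure X) [IsProbabilityMeasure μ]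
    [μ.IsOpenPosMeasure] [Finite ι] (hμ : ∀ i, ∀ a ∈ A i, MeasurePreserving a μ μ)
    (hA : ∀ i, Finite (A i) ∨ (IsCyclic (A i) ∧ ∀ a ∈ A i, a ≠ 1 → ∀ x, ¬ TrivialGerm a x))
    (hF : FreeGerms A) (H : Subgroup (X ≃ₜ X)) (hH : ∀ g ∈ H, LocallyIn (⨆ i, A i) g) :
    IsColimitOfVirtuallyInRACG H := by
  obtain ⟨T, hT⟩ := exists_gens A hA
  refine (core A T).main μ ?_ (core_free A T hT hF) H fun g hg x => ?_
  · rintro h (_ | ⟨i, b⟩)
    · exact MeasurePreserving.id μ
    · exact hμ i _ (core_st_mem A T hT h i b)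
  · obtain ⟨γ, h1, h2⟩ := hH g hg x
    exact ⟨γ, le_core_Γ A T hT h1, h2⟩

end FG63
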