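import Pool.Agent.Lib.MP_63c928_gt.FG.Topo
import Pool.Agent.Lib.MP_63c928_gt.FG.Defs

/-! Elements of a picture group that act trivially die after refinement. -/

open Classical Topology Filter

namespace FG63

theorem countP_le_one {α : Type} {R : α → α → Prop} {p : α → Prop} {l : List α}
    (hl : l.Pairwise R) (h : ∀ a b, R a b → p a → ¬ p b) :
    l.countP (fun a => decide (p a)) ≤ 1 := by
  induction l with
  | nil => simp
  | cons a l ih =>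
    rw [List.pairwise_cons] at hl
    rw [List.countP_cons]
    by_cases e : p a
    · have : l.countP (fun a => decide (p a)) = 0 := by
        rw [List.countP_eq_zero]
        intro b hb
        simpa using h a b (hl.1 b hb) e
      simp [this, e]
    · simpa [e] using ih hl.2

namespace Core

variable {X : Type} [TopologicalSpace X] {G : Type} [Group G] {P : Type} {o : P}
  (K : Core X G P o)

/-- Reduced itineraries of a point, with the last exit port. -/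
inductive Path (x : X) : (X ≃ₜ X) → P → Prop
  | nil : Path x 1 o
  | step {g : X ≃ₜ X} {π : P} (h : G) (π' : P) : Path x g π → π' ≠ π → π' ≠ o →
      ¬ (K.pt h π' = π' ∧ TrivialGerm (K.st h π') (g x)) → Path x (K.st h π' * g) (K.pt h π')

/-- Nonempty reduced itineraries have nontrivial germs. -/
def Free : Prop := ∀ x g π, K.Path x g π → π ≠ o → ¬ TrivialGerm g x

variable {Q : DiscreteQuotient X}

/-- A pair of cells that cancels near a token after refinement. -/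
def Spot (l : List (K.lv Q).Cell) (θ : X) : Prop :=
  ∃ l₁ c l₂ c' l₃, l = l₁ ++ c :: (l₂ ++ c' :: l₃) ∧ c.1.2 = c'.1.2 ∧ ∃ z, (θ, z) ∈ c.1.1 ∧
    ∀ᶠ z' in 𝓝 z, ∀ θ', (θ', z') ∈ c.1.1 →
      (θ', z') ∈ c'.1.1 ∧ ∀ d ∈ l₂, θ' ∉ (K.lv Q).rs.supp d

/-- The invariant of a token along a word. -/
def Inv (l : List (K.lv Q).Cell) (v : X → Set (Set (X × (X × P)))) (θ : X) : Prop :=
  K.Spot l θ ∨ ((∀ c ∈ l, θ ∉ (K.lv Q).rs.supp c) ∧ v θ = (K.lv Q).rs.v0 θ) ∨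
    ∃ l₁ c l₂ g π, l = l₁ ++ c :: l₂ ∧ θ ∈ (K.lv Q).rs.supp c ∧
      (∀ θ' ∈ (K.lv Q).rs.dom (v θ), ∀ d ∈ l₂, θ' ∉ (K.lv Q).rs.supp d) ∧ K.Path θ g π ∧
      (∀ᶠ θ' in 𝓝 θ, (θ', g θ') ∈ c.1.1) ∧
      ((v θ = (K.lv Q).rs.a c ∧ π = c.1.2) ∨ (v θ = (K.lv Q).rs.b c θ ∧ π ≠ c.1.2))

variable {K} [Finite G]

theorem inv_step {l : List (K.lv Q).Cell} {u v : X → Set (Set (X × (X × P)))} {θ : X}
    {e : (K.lv Q).Cell} (hc : (K.lv Q).rs.Cons u) (h : (K.lv Q).rs.Step u e v)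
    (hI : K.Inv l u θ) : K.Inv (l ++ [e]) v θ := by
  rcases hI with ⟨l₁, c, l₂, c', l₃, rfl, k⟩ | hI
  · exact Or.inl ⟨l₁, c, l₂, c', l₃ ++ [e], by simp, k⟩
  by_cases hθ : θ ∈ (K.lv Q).rs.supp e
  swap
  · right
    rcases hI with ⟨k1, k2⟩ | ⟨l₁, c, l₂, g, π, rfl, k1, k2, k3⟩
    · left
      refine ⟨fun c hc' => ?_, (h.2 θ hθ).trans k2⟩
      rcases List.mem_append.mp hc' with a | a
      · exact k1 c a
      · rw [List.mem_singleton.mp a]; exact hθ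
    · right
      rw [h.2 θ hθ]
      refine ⟨l₁, c, l₂ ++ [e], g, π, by simp, k1, fun θ' h' d hd => ?_, k3⟩
      rcases List.mem_append.mp hd with a | a
      · exact k2 θ' h' d a
      · rw [List.mem_singleton.mp a]; exact RS.touch hc h hθ h'
  rcases hI with ⟨-, k2⟩ | ⟨l₁, c, l₂, g, π, rfl, k1, k2, k3, k4, ⟨k5, k6⟩ | ⟨k5, k6⟩⟩
  · rw [Mdl.v0_eq'] at k2
    rcases h.1 with h1 | h1
    · have e1 := gr_inj (Mdl.eq_of_orb_o (fun _ hp => hp.2) (k2.symm.trans (h1 θ hθ).1))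
      refine Or.inr (Or.inr ⟨l, e, [], 1, o, rfl, hθ, by simp, Path.nil, ?_,
        Or.inr ⟨(h1 θ hθ).2, e.2.2.symm⟩⟩)
      filter_upwards [Q.proj_isLocallyConstant.eventually_eq θ] with θ' a
      rw [e1]; exact ⟨rfl, a⟩
    · exact absurd (k2.symm.trans (h1 θ hθ).1) ((K.lv Q).a_ne_b _ e hθ)
  · rcases h.1 with h1 | h1
    · have e1 := gr_inj (Mdl.eq_of_orb_o (fun _ hp => hp.2) (k5.symm.trans (h1 θ hθ).1))
      by_cases hp : c.1.2 = e.1.2
      · refine Or.inl ⟨l₁, c, l₂, e, [], by simp, hp, _, k4.self_of_nhds,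
          Eventually.of_forall fun z' θ' a => ⟨e1 ▸ a, k2 θ' ?_⟩⟩
        rw [k5, (K.lv Q).rs.dom_a]
        exact ⟨_, a⟩
      · exact Or.inr (Or.inr ⟨_, e, [], g, π, rfl, hθ, by simp, k3, e1 ▸ k4,
          Or.inr ⟨(h1 θ hθ).2, k6 ▸ hp⟩⟩)
    · exact absurd (k5.symm.trans (h1 θ hθ).1) ((K.lv Q).a_ne_b _ e hθ)
  · rcases h.1 with h1 | h1
    · exact absurd ((h1 θ hθ).1.symm.trans k5) ((K.lv Q).a_ne_b _ c k1)
    · obtain ⟨k, hk⟩ := Mdl.exists_mv_of_orb (k5.symm.trans (h1 θ hθ).1)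
      have mvm : ∀ θ' z', (θ', (z', c.1.2)) ∈ (K.lv Q).cut θ (gr c.1.1 c.1.2) →
          (θ', K.st k c.1.2 z') ∈ e.1.1 ∧ K.pt k c.1.2 = e.1.2 := by
        intro θ' z' a
        have b := (K.lv Q).act_mem_mv (h := k) |>.mpr a
        rw [← hk] at b
        exact b.1
      have ev := K.ev_cut (Q := Q) g k4 c.1.2
      have hp := (mvm _ _ ev.self_of_nhds).2
      by_cases ht : K.pt k c.1.2 = c.1.2 ∧ TrivialGerm (K.st k c.1.2) (g θ)
      · refine Or.inl ⟨l₁, c, l₂, e, [], by simp, ht.1.symm.trans hp, _, k4.self_of_nhds, ?_⟩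
        filter_upwards [ht.2, K.pc_loc (Q := Q) (g θ) c.1.2] with z' a b θ' m
        have m2 : (θ', (z', c.1.2)) ∈ (K.lv Q).cut θ (gr c.1.1 c.1.2) :=
          ⟨⟨m, rfl⟩, _, ⟨k4.self_of_nhds, rfl⟩, b⟩
        refine ⟨a ▸ (mvm _ _ m2).1, k2 θ' ?_⟩
        rw [k5]
        exact (K.lv Q).mem_dom_orb.mpr ⟨_, m2⟩
      · exact Or.inr (Or.inr ⟨_, e, [], K.st k c.1.2 * g, K.pt k c.1.2, rfl, hθ, by simp,
          Path.step k _ k3 k6.symm c.2.2 ht, ev.mono fun θ' a => (mvm _ _ a).1,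
          Or.inl ⟨(h1 θ hθ).2, hp⟩⟩)

theorem inv_exec {l : List (K.lv Q).Cell} {v : X → Set (Set (X × (X × P)))} (θ : X)
    (h : (K.lv Q).rs.Exec (K.lv Q).rs.v0 l v) : K.Inv l v θ := by
  induction l using List.reverseRecOn generalizing v with
  | nil => exact Or.inr (Or.inl ⟨by simp, by rw [← RS.exec_nil_iff.mp h]⟩)
  | append_singleton l e ih =>
    obtain ⟨u, h1, h2⟩ := RS.exec_append_iff.mp h
    obtain ⟨u', h3, h4⟩ := RS.exec_cons_iff.mp h2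
    rw [← RS.exec_nil_iff.mp h4]
    exact inv_step (h1.cons' RS.cons_v0) h3 (ih h1)

theorem spot_or_avoid (hF : K.Free) {l : List (K.lv Q).Cell} (θ : X)
    (h : (K.lv Q).rs.Exec (K.lv Q).rs.v0 l (K.lv Q).rs.v0) :
    K.Spot l θ ∨ ∀ c ∈ l, θ ∉ (K.lv Q).rs.supp c := by
  rcases inv_exec θ h with k | ⟨k, -⟩ | ⟨l₁, c, l₂, g, π, rfl, k1, -, k3, k4, ⟨k5, k6⟩ | ⟨k5, -⟩⟩
  · exact Or.inl k
  · exact Or.inr k
  · rw [Mdl.v0_eq'] at k5
    have e1 := gr_inj (Mdl.eq_of_orb_o (fun _ hp => hp.2) k5)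
    refine absurd ?_ (hF θ g π k3 (k6 ▸ c.2.2))
    filter_upwards [k4] with θ' a
    rw [e1] at a
    exact a.1.symm
  · rw [Mdl.v0_eq'] at k5
    exact absurd k5 ((K.lv Q).a_ne_b _ c k1)

variable [CompactSpace X]

variable (K) in
/-- Number of cells of a word that involve a token. -/
noncomputable def cnt (l : List (K.lv Q).Cell) (θ : X) : ℕ :=
  l.countP fun c => decide (θ ∈ (K.lv Q).rs.supp c)

omit [Finite G] in
theorem cnt_flatMap {Q' : DiscreteQuotient X} (l : List (K.lv Q).Cell) (θ : X) :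
    K.cnt (l.flatMap (Ref.T (K.lv Q'))) θ ≤ K.cnt l θ := by
  induction l with
  | nil => simp [cnt]
  | cons c l ih =>
    simp only [cnt, List.flatMap_cons, List.countP_append, List.countP_cons] at ih ⊢
    by_cases e : θ ∈ (K.lv Q).rs.supp c
    · have := countP_le_one (p := fun c => θ ∈ (K.lv Q').rs.supp c) (Ref.pw_T (M' := K.lv Q') c)
        fun a b h k => Set.disjoint_left.mp h k
      simp only [e, decide_true, if_true]
      omega
    · have : (Ref.T (K.lv Q') c).countP (fun c => decide (θ ∈ (K.lv Q').rs.supp c)) = 0 := by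
        rw [List.countP_eq_zero]
        intro d hd k
        exact e (Ref.supp_sub (Ref.mem_T.mp hd) (by simpa using k))
      omega

variable [T2Space X] [TotallyDisconnectedSpace X]

omit [Finite G] in
theorem reduce {l : List (K.lv Q).Cell} {θ : X} (hs : K.Spot l θ)
    (h : (K.lv Q).rs.Exec (K.lv Q).rs.v0 l (K.lv Q).rs.v0) :
    ∃ (Q' : DiscreteQuotient X) (hQ : Q' ≤ Q) (l' : List (K.lv Q').Cell),
      (K.lv Q').rs.Exec (K.lv Q').rs.v0 l' (K.lv Q').rs.v0 ∧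
      (K.lv Q').rs.w l' = (K.ref hQ).mor.wHom ((K.lv Q).rs.w l) ∧ K.cnt l' θ < K.cnt l θ := by
  obtain ⟨l₁, c, l₂, c', l₃, hl, hp, z, hz, ev⟩ := hs
  obtain ⟨Q', hQ, hN⟩ := ((eventually_le_atBot Q).and (ev_nhds ev)).exists
  obtain ⟨e, he, he2⟩ := (K.ref hQ).exists_sub c hz
  have hm : ∀ θ' z', (θ', z') ∈ e.1.1 →
      (θ', z') ∈ c'.1.1 ∧ ∀ d ∈ l₂, θ' ∉ (K.lv Q).rs.supp d := by
    intro θ' z' a
    rw [he2] at a
    exact hN z' a.2 θ' a.1
  have he' : e ∈ Ref.sub (K.lv Q') c' := ⟨he.1.trans hp, fun ⟨θ', z'⟩ a => (hm _ _ a).1⟩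
  obtain ⟨s₁, s₂, hs⟩ := List.append_of_mem (Ref.mem_T.mpr he)
  obtain ⟨t₁, t₂, ht⟩ := List.append_of_mem (Ref.mem_T.mpr he')
  have p1 := Ref.pw_T (M' := K.lv Q') c
  have p2 := Ref.pw_T (M' := K.lv Q') c'
  rw [hs, List.pairwise_append, List.pairwise_cons] at p1
  rw [ht, List.pairwise_append] at p2
  have key : l.flatMap (Ref.T (K.lv Q')) = (l₁.flatMap (Ref.T (K.lv Q')) ++ s₁) ++
      e :: ((s₂ ++ l₂.flatMap (Ref.T (K.lv Q')) ++ t₁) ++
        e :: (t₂ ++ l₃.flatMap (Ref.T (K.lv Q')))) := by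
    rw [hl]; simp [hs, ht]
  have hd : ∀ d ∈ s₂ ++ l₂.flatMap (Ref.T (K.lv Q')) ++ t₁, (K.lv Q').rs.R e d := by
    intro d hd
    rcases List.mem_append.mp hd with a | a
    · rcases List.mem_append.mp a with a | a
      · exact p1.2.1.1 d a
      · obtain ⟨d', a1, a2⟩ := List.mem_flatMap.mp a
        rw [RS.R, Set.disjoint_left]
        rintro θ' ⟨z', b⟩ b'
        exact (hm _ _ b).2 d' a1 (Ref.supp_sub (Ref.mem_T.mp a2) b')
    · exact (K.lv Q').rs.R_symm _ _ (p2.2.2 d a e (by simp))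
  have ex := (K.ref hQ).mor.exec h
  rw [Mor.base1] at ex
  change (K.lv Q').rs.Exec _ (l.flatMap (Ref.T (K.lv Q'))) _ at ex
  have hw := (K.ref hQ).mor.wHom_w l
  change _ = (K.lv Q').rs.w (l.flatMap (Ref.T (K.lv Q'))) at hw
  have hcnt := cnt_flatMap (Q' := Q') l θ
  rw [key] at ex hw hcnt
  refine ⟨Q', hQ, _, RS.exec_cancel ex hd, ?_, lt_of_lt_of_le ?_ hcnt⟩
  · rw [hw]; exact (wp_cancel _ _ _ _ _ _ hd).symm
  · have : θ ∈ (K.lv Q').rs.supp e := ⟨z, by rw [he2]; exact ⟨hz, rfl⟩⟩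
    simp only [cnt, List.countP_append, List.countP_cons, this, decide_true, if_true]
    omega

theorem kill_token (hF : K.Free) (θ : X) (n : ℕ) :
    ∀ (Q : DiscreteQuotient X) (l : List (K.lv Q).Cell), K.cnt l θ ≤ n →
      (K.lv Q).rs.Exec (K.lv Q).rs.v0 l (K.lv Q).rs.v0 →
      ∃ (Q' : DiscreteQuotient X) (hQ : Q' ≤ Q) (l' : List (K.lv Q').Cell),
        (K.lv Q').rs.Exec (K.lv Q').rs.v0 l' (K.lv Q').rs.v0 ∧
        (K.lv Q').rs.w l' = (K.ref hQ).mor.wHom ((K.lv Q).rs.w l) ∧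
        ∀ c ∈ l', θ ∉ (K.lv Q').rs.supp c := by
  induction n using Nat.strong_induction_on with
  | _ n ih =>
    intro Q l hn h
    rcases spot_or_avoid hF θ h with k | k
    · obtain ⟨Q', hQ, l', h1, h2, h3⟩ := reduce k h
      obtain ⟨Q'', hQ', l'', h4, h5, h6⟩ := ih _ (lt_of_lt_of_le h3 hn) Q' l' le_rfl h1
      exact ⟨Q'', hQ'.trans hQ, l'', h4, by rw [h5, h2, Ref.wHom_comp], h6⟩
    · exact ⟨Q, le_rfl, l, h, (Ref.wHom_self _ _).symm, k⟩

theorem ker (hF : K.Free) (x : (K.lv Q).rs.Pi) (hx : K.ε Q x = 1) :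
    ∃ (Q' : DiscreteQuotient X) (hQ : Q' ≤ Q), (K.ref hQ).mor.piHom x = 1 := by
  obtain ⟨l, h1, h2⟩ := x.2
  have hr : x.1.right = 1 := Subtype.ext (Equiv.ext fun θ => by
    have := ε_apply x θ
    rw [hx] at this
    exact this.symm)
  rw [hr, RS.act_one] at h1
  choose R hR L k1 k2 k3 using fun θ => kill_token hF θ _ Q l le_rfl h1
  obtain ⟨t, ht⟩ := isCompact_univ.elim_nhds_subcover
    (fun θ => {θ' | ∀ c ∈ L θ, θ' ∉ (K.lv (R θ)).rs.supp c}) fun θ _ => ev_avoid (k1 θ) (k3 θ)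
  obtain ⟨Q', hQ, hQ'⟩ := ((eventually_le_atBot Q).and
    ((eventually_all_finset t).mpr fun θ _ => eventually_le_atBot (R θ))).exists
  refine ⟨Q', hQ, Subtype.ext (SemidirectProduct.ext ?_ ?_)⟩
  · change (K.ref hQ).mor.wHom x.1.left = 1
    refine eq_one_of_avoid _ _ fun s => ?_
    obtain ⟨θ', hθ'⟩ := (K.lv Q').supp_nonempty s
    obtain ⟨θ, a, b⟩ := Set.mem_iUnion₂.mp (ht.2 (Set.mem_univ θ'))
    refine ⟨(L θ).flatMap (K.ref (hQ' θ a)).mor.T, fun m => ?_, ?_⟩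
    · obtain ⟨c, m1, m2⟩ := List.mem_flatMap.mp m
      exact b c m1 (Ref.supp_sub (Ref.mem_T.mp m2) hθ')
    · refine ((K.ref (hQ' θ a)).mor.wHom_w (L θ)).symm.trans ?_
      rw [k2, Ref.wHom_comp _ _ (K.ref hQ), h2]
  · change (K.ref hQ).mor.ψ x.1.right = 1
    rw [hr, map_one]

end Core

end FG63
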