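import Pool.Agent.Lib.MP_63c928_gt.FG.Restrict

/-! The restriction map of picture groups is onto. -/

open Classical

namespace FG63

variable {G : Type} [Group G] {P : Type} {o : P} {D Z Z' : Type}

namespace Emb

variable {M : Mdl G P o D Z} {M' : Mdl G P o D Z'} (E : Emb M M')

theorem lift_atom {v : Z → Set (Set (Z × (Z × P)))} (ht : M.Typed v) {θ z : Z'}
    {ℓ' : Set (Z' × Z')} (h : E.resV v θ = M'.orb (gr ℓ' o)) (hz : (θ, z) ∈ ℓ') :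
    ∃ ℓ, M.AG ℓ ∧ v (E.j θ) = M.orb (gr ℓ o) ∧ E.resL ℓ = ℓ' := by
  obtain ⟨γ, h1, h2⟩ := ht (E.j θ)
  simp only [resV] at h
  rw [h2, res_orb] at h
  have e : E.res γ = gr ℓ' o := Mdl.eq_of_orb_o (fun _ hp => hp.2) h.symm
  have m : (E.j θ, (E.j z, o)) ∈ γ := by
    have : (θ, (z, o)) ∈ gr ℓ' o := ⟨hz, rfl⟩
    rw [← e] at this
    exact this
  have po : ∀ θ y, (θ, y) ∈ γ → y.2 = o := fun θ y hy => Mdl.port_of_pc (h1.pc_eq hy m)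
  have e2 : gr {p : Z × Z | (p.1, (p.2, o)) ∈ γ} o = γ := by
    ext ⟨θ', ⟨z', π⟩⟩
    rw [mem_gr]
    constructor
    · rintro ⟨k1, k2⟩
      simp only at k2
      subst k2; exact k1
    · intro k
      have := po _ _ k
      simp only at this
      subst this; exact ⟨k, rfl⟩
  refine ⟨{p : Z × Z | (p.1, (p.2, o)) ∈ γ}, ⟨?_, ?_, ?_, ?_⟩, by rw [e2, h2], ?_⟩
  · intro θ z z' k1 k2
    exact (Prod.ext_iff.mp (h1.fn _ _ _ k1 k2)).1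
  · intro θ θ' z k1 k2
    exact h1.inj _ _ _ k1 k2
  · intro θ z k
    exact h1.col _ _ k
  · refine ⟨E.j z, fun z' => ⟨?_, ?_⟩⟩
    · rintro ⟨θ', k⟩
      exact Mdl.atm_of_pc (h1.pc_eq k m)
    · intro k
      exact h1.onto m (M.pc_o (y := (z', o)) rfl rfl k)
  · apply gr_inj (π := o)
    rw [← res_gr, e2, e]

theorem lift_merge {v : Z → Set (Set (Z × (Z × P)))} (hc : M.rs.Cons v) (ht : M.Typed v)
    {e : M'.Cell} (h : ∀ θ ∈ M'.rs.supp e, E.resV v θ = M'.rs.b e θ) :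
    ∃ c, E.resC c = e ∧ ∀ θ ∈ M.rs.supp c, v θ = M.rs.b c θ := by
  obtain ⟨⟨ℓe, π⟩, hA, hπ⟩ := e
  simp only at hA hπ
  let Q : Z' → Set (Z × (Z × P)) → Prop := fun θ γ =>
    (∃ z, (θ, z) ∈ ℓe) ∧ M.PG γ ∧ v (E.j θ) = M.orb γ ∧ E.res γ = M'.cut θ (gr ℓe π)
  have Q0 : ∀ θ z, (θ, z) ∈ ℓe → ∃ γ, Q θ γ := by
    intro θ z hz
    obtain ⟨γ, h1, h2⟩ := ht (E.j θ)
    have h3 := h θ ⟨z, hz⟩
    simp only [resV] at h3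
    rw [h2, res_orb] at h3
    obtain ⟨k, hk⟩ := Mdl.exists_mv_of_orb h3
    exact ⟨M.mv k γ, ⟨z, hz⟩, h1.mv k, by rw [h2, Mdl.orb_mv], by rw [res_mv]; exact hk.symm⟩
  have Q1 : ∀ θ γ z, Q θ γ → (θ, z) ∈ ℓe → (E.j θ, E.jj (z, π)) ∈ γ := by
    intro θ γ z hq hz
    rw [← mem_res, hq.2.2.2]
    exact Mdl.self_mem_cut ⟨hz, rfl⟩
  have Qport : ∀ θ γ θ' y, Q θ γ → (θ', y) ∈ γ → y.2 = π := by
    intro θ γ θ' y hq hy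
    obtain ⟨z, hz⟩ := hq.1
    exact Mdl.port_of_pc (hq.2.1.pc_eq hy (Q1 _ _ _ hq hz))
  have Qv : ∀ θ γ θ' y, Q θ γ → (θ', y) ∈ γ → v θ' = M.orb γ := by
    intro θ γ θ' y hq hy
    rw [← hq.2.2.1]
    refine (hc _).2 _ ?_
    rw [hq.2.2.1]
    exact M.mem_dom_orb.mpr ⟨_, hy⟩
  have Qtok : ∀ θ₁ γ₁ θ₂ γ₂ θ y₁ y₂, Q θ₁ γ₁ → Q θ₂ γ₂ → (θ, y₁) ∈ γ₁ → (θ, y₂) ∈ γ₂ →
      γ₁ = γ₂ := by
    intro θ₁ γ₁ θ₂ γ₂ θ y₁ y₂ q1 q2 m1 m2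
    have e1 : M.orb γ₁ = M.orb γ₂ := (Qv _ _ _ _ q1 m1).symm.trans (Qv _ _ _ _ q2 m2)
    obtain ⟨k, hk⟩ := Mdl.exists_mv_of_orb e1
    obtain ⟨z, hz⟩ := q2.1
    have m3 := Q1 _ _ _ q2 hz
    rw [hk, Mdl.mem_mv, act_jj, ← mem_res, q1.2.2.2] at m3
    have e2 := Mdl.cut_eq_of_mem (fun _ _ _ => hA.gr_fn) m3
    rw [hk, E.PG_uniq q1.2.1]
    rw [← hk, q1.2.2.2, q2.2.2.2, e2]
  have Qpc : ∀ θ₁ γ₁ θ₂ γ₂ θ θ' y₁ y₂, Q θ₁ γ₁ → Q θ₂ γ₂ → (θ, y₁) ∈ γ₁ → (θ', y₂) ∈ γ₂ →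
      M.pc y₁ = M.pc y₂ → γ₁ = γ₂ := by
    intro θ₁ γ₁ θ₂ γ₂ θ θ' y₁ y₂ q1 q2 m1 m2 e1
    obtain ⟨z, hz⟩ := q2.1
    have m3 := Q1 _ _ _ q2 hz
    obtain ⟨θ'', m4⟩ := q1.2.1.onto m1 ((q2.2.1.pc_eq m3 m2).trans e1.symm)
    obtain ⟨w, rfl⟩ := E.exists_of_col (q1.2.1.col _ _ m4)
    have m5 : (w, (z, π)) ∈ E.res γ₁ := m4
    rw [q1.2.2.2] at m5
    have e2 : w = θ₂ := hA.inj _ _ _ m5.1.1 hz
    subst e2
    exact Qtok _ _ _ _ _ _ _ q1 q2 m4 m3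
  let ℓ : Set (Z × Z) := {p | ∃ θ γ, Q θ γ ∧ (p.1, (p.2, π)) ∈ γ}
  have hℓ : M.AG ℓ := by
    refine ⟨?_, ?_, ?_, ?_⟩
    · rintro θ z z' ⟨θ₁, γ₁, q1, m1⟩ ⟨θ₂, γ₂, q2, m2⟩
      have := Qtok _ _ _ _ _ _ _ q1 q2 m1 m2
      subst this
      exact (Prod.ext_iff.mp (q1.2.1.fn _ _ _ m1 m2)).1
    · rintro θ θ' z ⟨θ₁, γ₁, q1, m1⟩ ⟨θ₂, γ₂, q2, m2⟩
      have := Qpc _ _ _ _ _ _ _ _ q1 q2 m1 m2 rfl
      subst this
      exact q1.2.1.inj _ _ _ m1 m2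
    · rintro θ z ⟨θ₁, γ₁, q1, m1⟩
      exact q1.2.1.col _ _ m1
    · obtain ⟨z₀, h0⟩ := hA.rng
      refine ⟨E.j z₀, fun z => ⟨?_, ?_⟩⟩
      · rintro ⟨θ, θ₁, γ₁, q1, m1⟩
        obtain ⟨z', hz'⟩ := q1.1
        have := Mdl.atm_of_pc (q1.2.1.pc_eq m1 (Q1 _ _ _ q1 hz'))
        refine this.trans ?_
        change M.atm (E.j z') = _
        rw [E.atm, E.atm]
        exact (h0 _).mp ⟨_, hz'⟩
      · intro k
        obtain ⟨⟨z', π'⟩, hy'⟩ := E.meet (z, π)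
        rw [← pc_jj] at hy'
        have e1 : π' = π := Mdl.port_of_pc hy'
        subst e1
        have e2 : M.atm (E.j z') = M.atm z := Mdl.atm_of_pc hy'
        obtain ⟨θ', hθ'⟩ := (h0 z').mpr (by rw [← E.atm, ← E.atm, e2, k])
        obtain ⟨γ, q⟩ := Q0 _ _ hθ'
        obtain ⟨θ, m⟩ := q.2.1.onto (Q1 _ _ _ q hθ') hy'.symm
        exact ⟨θ, θ', γ, q, m⟩
  have hin : ∀ θ γ θ' y, Q θ γ → (θ', y) ∈ γ → (θ', y) ∈ gr ℓ π := by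
    intro θ γ θ' y q m
    have e1 := Qport _ _ _ _ q m
    refine ⟨⟨θ, γ, q, ?_⟩, e1⟩
    obtain ⟨z, π'⟩ := y
    simp only at e1
    subst e1; exact m
  have hout : ∀ θ' y, (θ', y) ∈ gr ℓ π → ∃ θ γ, Q θ γ ∧ (θ', y) ∈ γ := by
    rintro θ' ⟨z, π'⟩ ⟨⟨θ, γ, q, m⟩, e1⟩
    simp only at e1
    subst e1; exact ⟨θ, γ, q, m⟩
  refine ⟨⟨(ℓ, π), hℓ, hπ⟩, Mdl.Cell.ext' ?_ rfl, ?_⟩
  · ext ⟨θ, z⟩
    constructor
    · rintro ⟨θ₁, γ₁, q1, m1⟩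
      have m2 : (θ, (z, π)) ∈ E.res γ₁ := m1
      rw [q1.2.2.2] at m2
      exact m2.1.1
    · intro hz
      obtain ⟨γ, q⟩ := Q0 _ _ hz
      exact ⟨θ, γ, q, Q1 _ _ _ q hz⟩
  · rintro θ ⟨z, θ₁, γ₁, q1, m1⟩
    rw [Qv _ _ _ _ q1 m1]
    change _ = M.orb (M.cut θ (gr ℓ π))
    congr 1
    ext ⟨θ', y'⟩
    constructor
    · intro m
      exact ⟨hin _ _ _ _ q1 m, _, hin _ _ _ _ q1 m1, q1.2.1.pc_eq m m1⟩
    · rintro ⟨k1, y, k2, k3⟩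
      obtain ⟨θ₂, γ₂, q2, m2⟩ := hout _ _ k1
      obtain ⟨θ₃, γ₃, q3, m3⟩ := hout _ _ k2
      have e1 := Qtok _ _ _ _ _ _ _ q1 q3 m1 m3
      have e2 := Qpc _ _ _ _ _ _ _ _ q2 q3 m2 m3 k3
      rw [e1, ← e2]; exact m2

theorem lift_step {v : Z → Set (Set (Z × (Z × P)))} (hc : M.rs.Cons v) (ht : M.Typed v)
    {e : M'.Cell} {u : Z' → Set (Set (Z' × (Z' × P)))} (h : M'.rs.Step (E.resV v) e u) :
    ∃ c v', M.rs.Step v c v' ∧ E.resC c = e ∧ E.resV v' = u := by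
  rcases h.1 with h1 | h1
  · obtain ⟨θ₀, z₀, hz₀⟩ := e.2.1.nonempty
    obtain ⟨ℓ, k1, k2, k3⟩ := E.lift_atom ht (h1 θ₀ ⟨z₀, hz₀⟩).1 hz₀
    let c : M.Cell := ⟨(ℓ, e.1.2), k1, e.2.2⟩
    have hce : E.resC c = e := Mdl.Cell.ext' k3 rfl
    refine ⟨c, fun θ => if θ ∈ M.rs.supp c then M.rs.b c θ else v θ, ⟨Or.inl ?_, ?_⟩, hce, ?_⟩
    · intro θ hθ
      simp only [hθ, if_true, and_true]
      have : θ ∈ M.rs.dom (v (E.j θ₀)) := by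
        rw [k2]
        exact (M.rs.dom_a c).symm ▸ hθ
      rw [(hc _).2 _ this, k2]; rfl
    · intro θ hθ; simp [hθ]
    · funext θ
      simp only [resV]
      split_ifs with hθ
      · rw [res_b, hce]
        exact (h1 θ (hce ▸ E.mem_supp_resC.mpr hθ)).2.symm
      · exact (h.2 θ fun k => hθ (E.mem_supp_resC.mp (hce ▸ k))).symm
  · obtain ⟨c, hce, k⟩ := E.lift_merge hc ht fun θ hθ => (h1 θ hθ).1
    refine ⟨c, fun θ => if θ ∈ M.rs.supp c then M.rs.a c else v θ, ⟨Or.inr ?_, ?_⟩, hce, ?_⟩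
    · intro θ hθ
      simp only [hθ, if_true, and_true]
      exact k θ hθ
    · intro θ hθ; simp [hθ]
    · funext θ
      simp only [resV]
      split_ifs with hθ
      · rw [res_a, hce]
        exact (h1 θ (hce ▸ E.mem_supp_resC.mpr hθ)).2.symm
      · exact (h.2 θ fun k => hθ (E.mem_supp_resC.mp (hce ▸ k))).symm

theorem lift_exec {l' : List M'.Cell} {v : Z → Set (Set (Z × (Z × P)))} (hc : M.rs.Cons v)
    (ht : M.Typed v) {u : Z' → Set (Set (Z' × (Z' × P)))} (h : M'.rs.Exec (E.resV v) l' u) :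
    ∃ l v', M.rs.Exec v l v' ∧ l.map E.resC = l' ∧ E.resV v' = u := by
  induction l' generalizing v with
  | nil => exact ⟨[], v, RS.Exec.nil _, rfl, RS.exec_nil_iff.mp h⟩
  | cons e l' ih =>
    obtain ⟨u1, h1, h2⟩ := RS.exec_cons_iff.mp h
    obtain ⟨c, v1, k1, k2, rfl⟩ := E.lift_step hc ht h1
    obtain ⟨l, v2, k3, k4, k5⟩ := ih (k1.cons hc) (Mdl.typed_step k1 ht) h2
    exact ⟨c :: l, v2, RS.Exec.cons k1 k3, by rw [List.map_cons, k2, k4], k5⟩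

theorem lift_final {v : Z → Set (Set (Z × (Z × P)))} (hc : M.rs.Cons v) (ht : M.Typed v)
    (σ' : M'.Sym) (h : E.resV v = M'.rs.act σ' M'.rs.v0) :
    ∃ σ : M.Sym, v = M.rs.act σ M.rs.v0 ∧ E.resS σ = σ' := by
  have h0 : ∀ θ, ∃ ℓ θ', M.AG ℓ ∧ v θ = M.orb (gr ℓ o) ∧ E.resL ℓ = M'.baseG σ'.1 θ' := by
    intro θ
    obtain ⟨θ', hθ'⟩ := E.dom_meet ht θ
    obtain ⟨ℓ, k1, k2, k3⟩ := E.lift_atom ht (θ := θ') (z := σ'.1⁻¹ θ')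
      (ℓ' := M'.baseG σ'.1 θ') (by rw [h, Mdl.act_v0]) ⟨rfl, rfl⟩
    exact ⟨ℓ, θ', k1, by rw [← (hc θ).2 _ hθ', k2], k3⟩
  choose L t hA hv hr using h0
  have hdom : ∀ θ θ', θ' ∈ M.rs.dom (v θ) ↔ ∃ z, (θ', z) ∈ L θ := by
    intro θ θ'
    rw [hv, Mdl.rs_dom, Mdl.mem_dom_orb]
    exact ⟨fun ⟨y, hy⟩ => ⟨_, hy.1⟩, fun ⟨z, hz⟩ => ⟨(z, o), hz, rfl⟩⟩
  choose p hp using fun θ => (hdom θ θ).mp (hc θ).1
  have hL : ∀ θ θ', v θ = v θ' → L θ = L θ' := by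
    intro θ θ' e
    rw [hv, hv] at e
    exact (gr_inj (Mdl.eq_of_orb_o (fun _ hp => hp.2) e)).symm
  have hL' : ∀ θ θ' z, (θ', z) ∈ L θ → L θ' = L θ := fun θ θ' z hz =>
    hL _ _ ((hc θ).2 _ ((hdom _ _).mpr ⟨z, hz⟩))
  have hj : ∀ θ w z, (E.j w, E.j z) ∈ L θ → σ'.1⁻¹ w = z := by
    intro θ w z hz
    have : (w, z) ∈ E.resL (L θ) := hz
    rw [hr] at this
    exact this.1
  have hat : ∀ θ z', M.atm (E.j z') = M.atm (p θ) → (E.j (σ'.1 z'), E.j z') ∈ L θ := by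
    intro θ z' e
    obtain ⟨θ', hθ'⟩ := (hA θ).onto (hp θ) e
    obtain ⟨w, rfl⟩ := E.exists_of_col ((hA θ).col _ _ hθ')
    have := hj _ _ _ hθ'
    have e2 : σ'.1 z' = w := by rw [← this]; simp
    rw [e2]; exact hθ'
  have hsame : ∀ θ θ', M.atm (p θ) = M.atm (p θ') → L θ = L θ' := by
    intro θ θ' e
    obtain ⟨z', hz'⟩ := E.meet_atm (p θ)
    rw [← hL' _ _ _ (hat θ z' hz'), hL' _ _ _ (hat θ' z' (hz'.trans e))]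
  have hpj : ∀ w, p (E.j w) = E.j (σ'.1⁻¹ w) := by
    intro w
    obtain ⟨z, hz⟩ := E.exists_of_col ((hA _).col _ _ (hp (E.j w))).symm
    have := hp (E.j w)
    rw [← hz] at this ⊢
    rw [hj _ _ _ this]
  have hbij : Function.Bijective p := by
    constructor
    · intro θ θ' e
      have k := hp θ'
      rw [← hsame θ θ' (by rw [e]), ← e] at k
      exact (hA θ).inj _ _ _ (hp θ) k
    · intro z
      obtain ⟨z', hz'⟩ := E.meet_atm z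
      obtain ⟨θ, hθ⟩ := (hA (E.j (σ'.1 z'))).onto (hp _) (z' := z) (by
        rw [hpj]; simpa using hz'.symm)
      refine ⟨θ, ?_⟩
      have k := hp θ
      rw [hL' _ _ _ hθ] at k
      exact (hA _).fn _ _ _ k hθ
  let τ : M.Sym := ⟨Equiv.ofBijective p hbij, fun θ => ((hA θ).col _ _ (hp θ)).symm⟩
  have hτ : ∀ θ, (τ⁻¹).1⁻¹ θ = p θ := fun θ => rfl
  refine ⟨τ⁻¹, ?_, ?_⟩
  · funext θ
    rw [Mdl.act_v0, hv]
    congr 2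
    ext ⟨θ', z⟩
    change _ ↔ ((τ⁻¹).1⁻¹ θ' = z ∧ M.atm z = M.atm ((τ⁻¹).1⁻¹ θ))
    rw [hτ, hτ]
    constructor
    · intro hz
      refine ⟨?_, (hA θ).atm_eq hz (hp θ)⟩
      have k := hp θ'
      rw [hL' _ _ _ hz] at k
      exact (hA _).fn _ _ _ k hz
    · rintro ⟨rfl, e⟩
      rw [← hsame _ _ e]; exact hp θ'
  · rw [← inv_inj]
    refine Subtype.ext (Equiv.ext fun w => E.inj ?_)
    change E.j ((E.resS τ⁻¹).1⁻¹ w) = E.j (σ'.1⁻¹ w)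
    rw [j_resS_inv, hτ, hpj]

theorem piHom_surjective : Function.Surjective E.mor.piHom := by
  rintro ⟨x, l', h1, h2⟩
  have b : E.resV M.rs.v0 = M'.rs.v0 := E.mor.base1
  rw [← b] at h1
  obtain ⟨l, v, k1, k2, k3⟩ := E.lift_exec RS.cons_v0 M.typed_v0 h1
  rw [b] at k3
  obtain ⟨σ, k4, k5⟩ := E.lift_final (k1.cons' RS.cons_v0) (Mdl.typed_exec k1 M.typed_v0) _ k3
  refine ⟨⟨⟨M.rs.w l, σ⟩, l, k4 ▸ k1, rfl⟩, Subtype.ext (SemidirectProduct.ext ?_ k5)⟩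
  change E.mor.wHom (M.rs.w l) = x.left
  rw [Mor.wHom_w, flatMap_T, k2, h2]

end Emb

end FG63
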