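import Pool.Agent.Lib.MP_63c928_gt.FG.Topo
import Pool.Agent.Lib.MP_63c928_gt.FG.Defs

/-! Every element of the full group comes from a picture group. -/

open Classical Topology Filter

namespace FG63

namespace Core

variable {X : Type} [TopologicalSpace X] {G : Type} [Group G] {P : Type} {o : P}
  (K : Core X G P o) {Q₁ : DiscreteQuotient X}

/-- The atom graph of a token when the block `V` has moved by `g V`. -/
def sgr (Q : DiscreteQuotient X) (g : Q₁ → (X ≃ₜ X)) (θ : X) : Set (X × X) :=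
  {p | Q₁.proj p.1 = Q₁.proj θ ∧ p.2 = g (Q₁.proj θ) p.1 ∧
    Q.proj p.2 = Q.proj (g (Q₁.proj θ) θ)}

/-- The partition is fine enough for `g`. -/
def Good (Q : DiscreteQuotient X) (g : Q₁ → (X ≃ₜ X)) : Prop :=
  ∀ V z z', Q.proj z = Q.proj z' → Q₁.proj ((g V).symm z) = Q₁.proj ((g V).symm z')

theorem ev_good [CompactSpace X] (g : Q₁ → (X ≃ₜ X)) :
    ∀ᶠ Q : DiscreteQuotient X in atBot, Good Q g :=
  eventually_all.mpr fun V => ev_comap Q₁ (g V).symm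

variable {Q : DiscreteQuotient X} {g : Q₁ → (X ≃ₜ X)}

theorem self_mem_sgr (θ : X) : (θ, g (Q₁.proj θ) θ) ∈ sgr Q g θ := ⟨rfl, rfl, rfl⟩

theorem sgr_eq {θ θ' z : X} (h : (θ', z) ∈ sgr Q g θ) : sgr Q g θ' = sgr Q g θ := by
  obtain ⟨h1, h2, h3⟩ := h
  simp only at h1 h2 h3
  ext p
  simp only [sgr, Set.mem_ofPred_eq]
  rw [h1, ← h2, h3]

theorem sgr_AG (hg : Good Q g) (θ : X) : (K.lv Q).AG (sgr Q g θ) where
  fn _ _ _ h1 h2 := h1.2.1.trans h2.2.1.symm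
  inj _ _ _ h1 h2 := (g (Q₁.proj θ)).injective (h1.2.1.symm.trans h2.2.1)
  col _ _ _ := rfl
  rng := by
    refine ⟨g (Q₁.proj θ) θ, fun z => ⟨fun ⟨_, h⟩ => h.2.2, fun h => ?_⟩⟩
    refine ⟨(g (Q₁.proj θ)).symm z, ?_, by simp, h⟩
    have := hg (Q₁.proj θ) _ _ h
    simpa using this

variable (Q g) in
/-- The state in which the block `V` has moved by `g V`. -/
def SG : X → Set (Set (X × (X × P))) := fun θ => (K.lv Q).orb (gr (sgr Q g θ) o)

variable (Q g) in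
/-- The block `V` has entered the port `π`. -/
noncomputable def mid (V : Q₁) (π : P) : X → Set (Set (X × (X × P))) := fun θ =>
  if Q₁.proj θ = V then (K.lv Q).orb ((K.lv Q).cut θ (gr (sgr Q g θ) π)) else K.SG Q g θ

theorem exec_split [CompactSpace X] (hg : Good Q g) (V : Q₁) {π : P} (hπ : π ≠ o) :
    ∃ l, (K.lv Q).rs.Exec (K.SG Q g) l (K.mid Q g V π) := by
  let A : Set (K.lv Q).Cell := {c | c.1.2 = π ∧ ∃ θ, Q₁.proj θ = V ∧ c.1.1 = sgr Q g θ}
  have hA : A.Finite := by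
    refine Set.Finite.of_finite_image (f := fun c : (K.lv Q).Cell => c.1.1) ?_ ?_
    · refine (Set.finite_range fun d : Q =>
        {p : X × X | Q₁.proj p.1 = V ∧ p.2 = g V p.1 ∧ Q.proj p.2 = d}).subset ?_
      rintro _ ⟨c, ⟨-, θ, rfl, h⟩, rfl⟩
      exact ⟨_, h.symm⟩
    · intro c hc c' hc' e
      exact Mdl.Cell.ext' e (hc.1.trans hc'.1.symm)
  have hm : ∀ c, c ∈ hA.toFinset.toList ↔ c ∈ A := fun c => by simp
  have hs : ∀ c ∈ A, ∀ θ ∈ (K.lv Q).rs.supp c, Q₁.proj θ = V ∧ c.1.1 = sgr Q g θ := by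
    rintro c ⟨-, θ₀, h1, h2⟩ θ ⟨z, hz⟩
    rw [h2] at hz ⊢
    exact ⟨hz.1.trans h1, (sgr_eq hz).symm⟩
  refine ⟨hA.toFinset.toList, RS.exec_all ?_ ?_ ?_⟩
  · refine (Finset.nodup_toList _).pairwise_of_forall_ne fun c hc c' hc' hne => ?_
    rw [hm] at hc hc'
    rw [RS.R, Set.disjoint_left]
    intro θ h1 h2
    exact hne (Mdl.Cell.ext' ((hs c hc θ h1).2.trans (hs c' hc' θ h2).2.symm)
      (hc.1.trans hc'.1.symm))
  · intro c hc θ hθ
    rw [hm] at hc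
    obtain ⟨h1, h2⟩ := hs c hc θ hθ
    rw [Mdl.rs_a, Mdl.rs_b, h2, hc.1, mid, if_pos h1]
    exact ⟨rfl, rfl⟩
  · intro θ hθ
    rw [mid, if_neg]
    intro h
    exact hθ ⟨(sgr Q g θ, π), K.sgr_AG hg θ, hπ⟩ ((hm _).mpr ⟨rfl, θ, h, rfl⟩)
      ⟨_, self_mem_sgr θ⟩

theorem mem_cut_sgr {θ θ' : X} {y : X × P} {ρ : P} :
    (θ', y) ∈ (K.lv Q).cut θ (gr (sgr Q g θ) ρ) ↔ Q₁.proj θ' = Q₁.proj θ ∧
      y = (g (Q₁.proj θ) θ', ρ) ∧ (K.lv Q).pc y = (K.lv Q).pc (g (Q₁.proj θ) θ, ρ) := by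
  constructor
  · rintro ⟨⟨h1, h2⟩, y', ⟨h3, h4⟩, h5⟩
    refine ⟨h1.1, Prod.ext h1.2.1 h2, ?_⟩
    have : y' = (g (Q₁.proj θ) θ, ρ) := Prod.ext h3.2.1 h4
    rw [← this]; exact h5
  · rintro ⟨h1, rfl, h3⟩
    exact ⟨⟨⟨h1, rfl, Mdl.atm_of_pc h3⟩, rfl⟩, _, ⟨self_mem_sgr θ, rfl⟩, h3⟩

theorem mid_eq (V : Q₁) (h : G) (π : P) :
    K.mid Q (Function.update g V (K.st h π * g V)) V (K.pt h π) = K.mid Q g V π := by
  funext θ
  simp only [mid]
  split_ifs with e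
  · rw [← (K.lv Q).orb_mv h ((K.lv Q).cut θ (gr (sgr Q g θ) π))]
    congr 1
    ext ⟨θ', y⟩
    obtain ⟨y, rfl⟩ := ((K.lv Q).act h).surjective y
    rw [Mdl.act_mem_mv, mem_cut_sgr, mem_cut_sgr, e, Function.update_self]
    have k : ∀ z, ((K.st h π * g V) z, K.pt h π) = (K.lv Q).act h (g V z, π) := fun z => rfl
    rw [k, k, Mdl.pc_act_iff, ((K.lv Q).act h).injective.eq_iff]
  · simp only [SG, sgr, Function.update_of_ne e]

variable (g) in
/-- One can pass from `g` to `g'` at all fine levels. -/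
def Reach (g' : Q₁ → (X ≃ₜ X)) : Prop :=
  ∀ᶠ Q : DiscreteQuotient X in atBot, ∃ l, (K.lv Q).rs.Exec (K.SG Q g) l (K.SG Q g')

theorem reach_refl : K.Reach g g := Eventually.of_forall fun _ => ⟨[], RS.Exec.nil _⟩

variable {K} in
theorem Reach.symm {g' : Q₁ → (X ≃ₜ X)} (h : K.Reach g g') : K.Reach g' g :=
  h.mono fun _ ⟨_, k⟩ => ⟨_, k.reverse⟩

variable {K} in
theorem Reach.trans {g' g'' : Q₁ → (X ≃ₜ X)} (h : K.Reach g g') (h' : K.Reach g' g'') :
    K.Reach g g'' := by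
  filter_upwards [h, h'] with Q ⟨_, k⟩ ⟨_, k'⟩
  exact ⟨_, k.append k'⟩

variable [CompactSpace X]

theorem reach_step (V : Q₁) (h : G) (π : P) :
    K.Reach g (Function.update g V (K.st h π * g V)) := by
  by_cases hπ : π = o
  · subst hπ
    rw [K.st_o, one_mul, Function.update_eq_self]
    exact K.reach_refl
  have hπ' : K.pt h π ≠ o := by
    intro e
    apply hπ
    rw [← K.pt_one π, ← inv_mul_cancel h, K.pt_mul, e, K.pt_o]
  filter_upwards [ev_good g, ev_good (Function.update g V (K.st h π * g V))] with Q h1 h2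
  obtain ⟨l, k⟩ := K.exec_split h1 V hπ
  obtain ⟨l', k'⟩ := K.exec_split h2 V hπ'
  rw [mid_eq] at k'
  exact ⟨_, k.append k'.reverse⟩

theorem reach_mem (V : Q₁) {γ : X ≃ₜ X} (hγ : γ ∈ K.Γ) :
    ∀ g : Q₁ → (X ≃ₜ X), K.Reach g (Function.update g V (γ * g V)) := by
  induction hγ using Subgroup.closure_induction with
  | mem γ h => obtain ⟨h, π, rfl⟩ := h; exact fun g => K.reach_step V h π
  | one => intro g; rw [one_mul, Function.update_eq_self]; exact K.reach_refl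
  | mul γ δ _ _ h1 h2 =>
    intro g
    have := (h2 g).trans (h1 _)
    rwa [Function.update_idem, Function.update_self, ← mul_assoc] at this
  | inv γ _ h1 =>
    intro g
    have := h1 (Function.update g V (γ⁻¹ * g V))
    rw [Function.update_idem, Function.update_self, mul_inv_cancel_left,
      Function.update_eq_self] at this
    exact this.symm

theorem reach_all (hg : ∀ V, g V ∈ K.Γ) : K.Reach (fun _ => 1) g := by
  have key : ∀ s : Finset Q₁, K.Reach (fun _ => 1) (s.piecewise g fun _ => 1) := by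
    intro s
    induction s using Finset.induction_on with
    | empty => simpa using K.reach_refl
    | insert V s hV ih =>
      have := ih.trans (K.reach_mem V (hg V) _)
      rw [Finset.piecewise_eq_of_notMem _ _ _ hV, mul_one] at this
      rwa [Finset.piecewise_insert]
  have := Fintype.ofFinite Q₁
  simpa using key Finset.univ

theorem surj [Finite G] [T2Space X] [TotallyDisconnectedSpace X] {k : X ≃ₜ X}
    (hk : LocallyIn K.Γ k) : ∃ Q x, K.ε Q x = k := by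
  choose γ hγ ev using hk
  obtain ⟨Q₁, h1⟩ := (ev_cover (fun x => {y | k y = γ x y}) ev).exists
  have h2 : ∀ V : Q₁, ∃ g ∈ K.Γ, ∀ θ, Q₁.proj θ = V → k θ = g θ := by
    intro V
    obtain ⟨z, rfl⟩ := Q₁.proj_surjective V
    obtain ⟨x, hx⟩ := h1 z
    exact ⟨γ x, hγ x, hx⟩
  choose g hg hkg using h2
  obtain ⟨Q, ⟨l, hl⟩, h3, h4⟩ := ((K.reach_all hg).and ((ev_good g).and
    (ev_good (Q₁ := Q₁) fun _ => 1))).exists
  let σ : (K.lv Q).Sym := ⟨k.toEquiv⁻¹, fun _ => rfl⟩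
  have e1 : K.SG Q (Q₁ := Q₁) (fun _ => 1) = (K.lv Q).rs.v0 := by
    funext θ
    rw [Mdl.v0_eq', SG]
    congr 2
    ext ⟨θ', z⟩
    constructor
    · rintro ⟨-, a, b⟩; exact ⟨a.symm, b⟩
    · rintro ⟨a, b⟩
      have a' : θ' = z := a
      subst a'
      exact ⟨h4 (Q₁.proj θ) _ _ b, rfl, b⟩
  have e2 : K.SG Q g = (K.lv Q).rs.act σ (K.lv Q).rs.v0 := by
    funext θ
    rw [Mdl.act_v0, SG]
    congr 2
    ext ⟨θ', z⟩
    change _ ↔ (k θ' = z ∧ Q.proj z = Q.proj (k θ))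
    rw [hkg _ θ rfl]
    constructor
    · rintro ⟨a, b, c⟩
      exact ⟨(hkg _ _ a).trans b.symm, c⟩
    · rintro ⟨rfl, c⟩
      have a := h3 (Q₁.proj θ) _ _ c
      rw [Homeomorph.symm_apply_apply] at a
      have b := hkg _ _ a
      rw [Homeomorph.apply_symm_apply] at b
      rw [k.injective b] at a
      exact ⟨a, hkg _ _ a, c⟩
  rw [e1, e2] at hl
  let x : (K.lv Q).rs.Pi := ⟨⟨(K.lv Q).rs.w l, σ⟩, l, hl, rfl⟩
  exact ⟨Q, x⁻¹, Homeomorph.ext fun _ => rfl⟩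

end Core

end FG63
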