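import Pool.Agent.Lib.MP_63c928_gt.FG.Ker
import Pool.Agent.Lib.MP_63c928_gt.FG.Surj
import Pool.Agent.Lib.MP_63c928_gt.FG.Fin

/-! The colimit theorem for cocycle data. -/

open Classical Topology Filter MeasureTheory

namespace FG63

theorem colim_of_cocone {I : Type} [Preorder I] [IsDirectedOrder I] [Nonempty I]
    (G : I → Type) [∀ i, Group (G i)] (f : ∀ i j : I, i ≤ j → G i →* G j)
    (f1 : ∀ i x, f i i le_rfl x = x)
    (f2 : ∀ i j k (h : i ≤ j) (h' : j ≤ k) x, f j k h' (f i j h x) = f i k (h.trans h') x)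
    {A : Type} [Group A] (ε : ∀ i, G i →* A) (hc : ∀ i j h x, ε j (f i j h x) = ε i x)
    (hk : ∀ i x, ε i x = 1 → ∃ j h, f i j h x = 1) (H : Subgroup A)
    (hs : ∀ g ∈ H, ∃ i x, ε i x = g) (hv : ∀ i, VirtuallyInRACG (G i)) :
    IsColimitOfVirtuallyInRACG H := by
  let G' : I → Type := fun i => H.comap (ε i)
  let f' : ∀ i j : I, i ≤ j → G' i →* G' j := fun i j h =>
    ((f i j h).comp (H.comap (ε i)).subtype).codRestrict (H.comap (ε j)) fun x => by
      rw [Subgroup.mem_comap]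
      change ε j (f i j h x.1) ∈ H
      rw [hc]; exact x.2
  let ε' : ∀ i, G' i →* H := fun i =>
    ((ε i).comp (H.comap (ε i)).subtype).codRestrict H fun x => x.2
  refine ⟨I, inferInstance, inferInstance, exists_ge_ge, G', inferInstance, f', ε',
    fun i => VirtuallyInRACG.of_injective _ (Subgroup.subtype_injective _) (hv i),
    fun i x => Subtype.ext (f1 i x.1), fun i j k h h' x => Subtype.ext (f2 i j k h h' x.1),
    fun i j h x => Subtype.ext (hc i j h x.1), ?_, ?_⟩
  · rintro ⟨g, hg⟩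
    obtain ⟨i, x, rfl⟩ := hs g hg
    exact ⟨i, ⟨x, hg⟩, rfl⟩
  · intro i x hz
    obtain ⟨j, h, e⟩ := hk i x.1 (congrArg Subtype.val hz)
    exact ⟨j, h, Subtype.ext e⟩

namespace Core

variable {X : Type} [TopologicalSpace X] {G : Type} [Group G] {P : Type} {o : P}
  (K : Core X G P o) [Finite G] [Finite P] [CompactSpace X]
  [MeasurableSpace X] [BorelSpace X] (μ : Measure X) [IsProbabilityMeasure μ]
  [μ.IsOpenPosMeasure]

omit [Finite P] [CompactSpace X] [MeasurableSpace X] [BorelSpace X] in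
theorem isClopen_piece (Q : DiscreteQuotient X) (π : P) (u : G → Q × P) :
    IsClopen {x | (K.lv Q).pc (x, π) = u} := by
  have : IsLocallyConstant fun x => (K.lv Q).pc (x, π) :=
    (IsLocallyConstant.iff_eventually_eq _).mpr fun x => K.pc_loc x π
  exact this.isClopen_fiber u

theorem virt (hμ : ∀ h π, MeasurePreserving (K.st h π) μ μ) (Q : DiscreteQuotient X) :
    VirtuallyInRACG (K.lv Q).rs.Pi := by
  refine (K.lv Q).virt_of_weights (fun _ _ => rfl)
    (fun u => μ.real {x | (K.lv Q).pc (x, (u 1).2) = u}) ?_ ?_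
    (fun d => μ.real {x | Q.proj x = d}) ?_
  · rintro ⟨z, π⟩
    rw [Mdl.pc_one]
    refine ENNReal.toReal_pos ?_ (measure_ne_top _ _)
    exact ((K.isClopen_piece Q π _).isOpen.measure_pos μ ⟨z, rfl⟩).ne'
  · rintro h ⟨z, π⟩
    rw [Mdl.pc_one, Mdl.pc_one]
    rw [← (hμ h π).measureReal_preimage
      (K.isClopen_piece Q _ _).isOpen.measurableSet.nullMeasurableSet]
    congr 1
    ext x
    exact (K.lv Q).pc_act_iff h (x, π) (z, π)
  · intro d π t ht
    have e : {x | Q.proj x = d} = ⋃ u ∈ t, {x | (K.lv Q).pc (x, π) = u} := by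
      ext x
      simp only [Set.mem_ofPred_eq, Set.mem_iUnion, exists_prop]
      constructor
      · intro hx
        exact ⟨_, (ht _).mpr ⟨⟨_, rfl⟩, by rw [Mdl.pc_one, ← hx]; rfl⟩, rfl⟩
      · rintro ⟨u, h1, rfl⟩
        have := ((ht _).mp h1).2
        rw [Mdl.pc_one] at this
        exact (Prod.ext_iff.mp this).1
    rw [e, measureReal_biUnion_finset]
    · refine Finset.sum_congr rfl fun u hu => ?_
      rw [((ht u).mp hu).2]
    · intro u _ u' _ hne
      rw [Function.onFun, Set.disjoint_left]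
      intro x h1 h2
      exact hne (Eq.trans (Eq.symm h1) h2)
    · exact fun u _ => (K.isClopen_piece Q π u).isOpen.measurableSet

theorem main [T2Space X] [TotallyDisconnectedSpace X]
    (hμ : ∀ h π, MeasurePreserving (K.st h π) μ μ) (hF : K.Free)
    (H : Subgroup (X ≃ₜ X)) (hH : ∀ g ∈ H, LocallyIn K.Γ g) : IsColimitOfVirtuallyInRACG H :=
  colim_of_cocone (I := (DiscreteQuotient X)ᵒᵈ)
    (fun Q => (K.lv (OrderDual.ofDual Q)).rs.Pi)
    (fun _ _ h => (K.ref (show OrderDual.ofDual _ ≤ OrderDual.ofDual _ from h)).mor.piHom)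
    (fun _ x => Ref.piHom_self _ x) (fun _ _ _ _ _ x => Ref.piHom_comp _ _ _ x)
    (fun Q => K.ε (OrderDual.ofDual Q)) (fun _ _ _ _ => rfl)
    (fun _ x hx => ker hF x hx) H (fun g hg => K.surj (hH g hg)) (fun _ => K.virt μ hμ _)

end Core

end FG63
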