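import Pool.Agent.Lib.MP_63c928_gt.FG.Rs

/-! Concrete token models. -/

open Classical

namespace FG63

/-- An action given by a function, as a homomorphism to permutations. -/
def permHom {S α : Type} [Group S] (f : S → α → α) (h1 : ∀ x, f 1 x = x)
    (hm : ∀ σ τ x, f (σ * τ) x = f σ (f τ x)) : S →* Equiv.Perm α where
  toFun σ := ⟨f σ, f σ⁻¹, fun x => by rw [← hm, inv_mul_cancel, h1],
    fun x => by rw [← hm, mul_inv_cancel, h1]⟩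
  map_one' := by ext x; exact h1 x
  map_mul' σ τ := by ext x; exact hm σ τ x

@[simp] theorem permHom_apply {S α : Type} [Group S] (f : S → α → α) (h1 : ∀ x, f 1 x = x)
    (hm : ∀ σ τ x, f (σ * τ) x = f σ (f τ x)) (σ : S) (x : α) : permHom f h1 hm σ x = f σ x := rfl

/-- Relabelling of the first coordinate. -/
def rl {Z β : Type} (σ : Equiv.Perm Z) (γ : Set (Z × β)) : Set (Z × β) :=
  {p | (σ⁻¹ p.1, p.2) ∈ γ}

theorem mem_rl {Z β : Type} {σ : Equiv.Perm Z} {γ : Set (Z × β)} {θ : Z} {y : β} :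
    (θ, y) ∈ rl σ γ ↔ (σ⁻¹ θ, y) ∈ γ := Iff.rfl

theorem rl_one {Z β : Type} (γ : Set (Z × β)) : rl 1 γ = γ := by
  ext ⟨θ, y⟩; simp [mem_rl]

theorem rl_mul {Z β : Type} (σ τ : Equiv.Perm Z) (γ : Set (Z × β)) :
    rl (σ * τ) γ = rl σ (rl τ γ) := by
  ext ⟨θ, y⟩; simp [mem_rl]

/-- The graph placed at a port. -/
def gr {Z P : Type} (ℓ : Set (Z × Z)) (π : P) : Set (Z × (Z × P)) :=
  {p | (p.1, p.2.1) ∈ ℓ ∧ p.2.2 = π}

theorem mem_gr {Z P : Type} {ℓ : Set (Z × Z)} {π : P} {θ : Z} {y : Z × P} :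
    (θ, y) ∈ gr ℓ π ↔ (θ, y.1) ∈ ℓ ∧ y.2 = π := Iff.rfl

theorem gr_inj {Z P : Type} {ℓ ℓ' : Set (Z × Z)} {π : P} (h : gr ℓ π = gr ℓ' π) : ℓ = ℓ' := by
  ext ⟨θ, z⟩
  have := Set.ext_iff.mp h (θ, (z, π))
  simpa [mem_gr] using this

theorem rl_gr {Z P : Type} (σ : Equiv.Perm Z) (ℓ : Set (Z × Z)) (π : P) :
    rl σ (gr ℓ π) = gr (rl σ ℓ) π := rfl

/-- The diagonal. -/
def diag (Z : Type) : Set (Z × Z) := {p | p.1 = p.2}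

/-- A finite group acting on positions times ports, with atoms and colours. -/
structure Mdl (G : Type) [Group G] (P : Type) (o : P) (D : Type) (Z : Type) where
  col : Z → Bool
  atm : Z → D
  act : G →* Equiv.Perm (Z × P)
  act_o : ∀ h z, act h (z, o) = (z, o)
  col_act : ∀ h y, col (act h y).1 = col y.1

namespace Mdl

variable {G : Type} [Group G] {P : Type} {o : P} {D Z : Type} (M : Mdl G P o D Z)

theorem act_act (h k : G) (y : Z × P) : M.act h (M.act k y) = M.act (h * k) y := by simp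

@[simp] theorem act_inv_act (h : G) (y : Z × P) : M.act h⁻¹ (M.act h y) = y := by simp
@[simp] theorem act_act_inv (h : G) (y : Z × P) : M.act h (M.act h⁻¹ y) = y := by simp

theorem act_of_o (h : G) {y : Z × P} (hy : y.2 = o) : M.act h y = y := by
  obtain ⟨z, π⟩ := y
  simp only at hy
  subst hy
  exact M.act_o h z

theorem act_snd_eq_o (h : G) (y : Z × P) : (M.act h y).2 = o ↔ y.2 = o := by
  constructor
  · intro e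
    have := M.act_of_o h⁻¹ e
    rw [act_inv_act] at this
    rw [this]; exact e
  · intro e; rw [M.act_of_o h e]; exact e

/-- The label of the piece of a point. -/
def pc (y : Z × P) : G → D × P := fun h => (M.atm (M.act h y).1, (M.act h y).2)

theorem pc_act (k : G) (y : Z × P) (h : G) : M.pc (M.act k y) h = M.pc y (h * k) := by
  simp [pc]

theorem pc_act_iff (k : G) (y y' : Z × P) :
    M.pc (M.act k y) = M.pc (M.act k y') ↔ M.pc y = M.pc y' := by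
  constructor
  · intro e
    funext h
    have := congrFun e (h * k⁻¹)
    simpa [pc_act] using this
  · intro e
    funext h
    rw [pc_act, pc_act, e]

theorem pc_one (y : Z × P) : M.pc y 1 = (M.atm y.1, y.2) := by simp [pc]

variable {M} in
theorem atm_of_pc {y y' : Z × P} (e : M.pc y = M.pc y') : M.atm y.1 = M.atm y'.1 := by
  have := congrFun e 1
  rw [pc_one, pc_one] at this
  exact congrArg Prod.fst this

variable {M} in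
theorem port_of_pc {y y' : Z × P} (e : M.pc y = M.pc y') : y.2 = y'.2 := by
  have := congrFun e 1
  rw [pc_one, pc_one] at this
  exact (Prod.ext_iff.mp this).2

theorem pc_o {y y' : Z × P} (hy : y.2 = o) (hy' : y'.2 = o) (e : M.atm y.1 = M.atm y'.1) :
    M.pc y = M.pc y' := by
  funext h
  simp only [pc, M.act_of_o h hy, M.act_of_o h hy', e, hy, hy']

/-- Moving a graph by the group. -/
def mv (h : G) (γ : Set (Z × (Z × P))) : Set (Z × (Z × P)) := {p | (p.1, M.act h⁻¹ p.2) ∈ γ}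

theorem mem_mv {h : G} {γ : Set (Z × (Z × P))} {θ : Z} {y : Z × P} :
    (θ, y) ∈ M.mv h γ ↔ (θ, M.act h⁻¹ y) ∈ γ := Iff.rfl

theorem act_mem_mv {h : G} {γ : Set (Z × (Z × P))} {θ : Z} {y : Z × P} :
    (θ, M.act h y) ∈ M.mv h γ ↔ (θ, y) ∈ γ := by rw [mem_mv, act_inv_act]

theorem mv_one (γ : Set (Z × (Z × P))) : M.mv 1 γ = γ := by
  ext ⟨θ, y⟩; simp [mem_mv]

theorem mv_mul (h k : G) (γ : Set (Z × (Z × P))) : M.mv (h * k) γ = M.mv h (M.mv k γ) := by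
  ext ⟨θ, y⟩; simp [mem_mv]

theorem mv_of_o (h : G) {γ : Set (Z × (Z × P))} (hγ : ∀ p ∈ γ, p.2.2 = o) : M.mv h γ = γ := by
  ext ⟨θ, y⟩
  rw [mem_mv]
  constructor
  · intro k
    have e : y.2 = o := (M.act_snd_eq_o h⁻¹ y).mp (hγ _ k)
    rwa [M.act_of_o _ e] at k
  · intro k
    rwa [M.act_of_o _ (hγ _ k)]

theorem mv_gr_o (h : G) (ℓ : Set (Z × Z)) : M.mv h (gr ℓ o) = gr ℓ o :=
  M.mv_of_o h fun _ hp => hp.2

/-- Letters are orbits of graphs. -/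
def orb (γ : Set (Z × (Z × P))) : Set (Set (Z × (Z × P))) := Set.range fun h => M.mv h γ

theorem mem_orb_self (γ : Set (Z × (Z × P))) : γ ∈ M.orb γ := ⟨1, M.mv_one γ⟩

theorem orb_mv (h : G) (γ : Set (Z × (Z × P))) : M.orb (M.mv h γ) = M.orb γ := by
  ext δ
  constructor
  · rintro ⟨k, rfl⟩; exact ⟨k * h, M.mv_mul _ _ _⟩
  · rintro ⟨k, rfl⟩
    exact ⟨k * h⁻¹, by simp only [← mv_mul]; simp⟩

variable {M} in
theorem exists_mv_of_orb {γ δ : Set (Z × (Z × P))} (e : M.orb γ = M.orb δ) :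
    ∃ h, δ = M.mv h γ := by
  have := M.mem_orb_self δ
  rw [← e] at this
  obtain ⟨h, hh⟩ := this
  exact ⟨h, hh.symm⟩

variable {M} in
theorem orb_eq_of_mem {γ δ : Set (Z × (Z × P))} (e : δ ∈ M.orb γ) : M.orb δ = M.orb γ := by
  obtain ⟨h, rfl⟩ := e
  exact M.orb_mv h γ

variable {M} in
theorem eq_of_orb_o {γ δ : Set (Z × (Z × P))} (hγ : ∀ p ∈ γ, p.2.2 = o)
    (e : M.orb γ = M.orb δ) : δ = γ := by
  obtain ⟨h, rfl⟩ := exists_mv_of_orb e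
  exact M.mv_of_o h hγ

/-- The part of a graph on the piece of a token. -/
def cut (θ : Z) (γ : Set (Z × (Z × P))) : Set (Z × (Z × P)) :=
  {p | p ∈ γ ∧ ∃ y, (θ, y) ∈ γ ∧ M.pc p.2 = M.pc y}

theorem mem_cut {θ θ' : Z} {γ : Set (Z × (Z × P))} {y' : Z × P} :
    (θ', y') ∈ M.cut θ γ ↔ (θ', y') ∈ γ ∧ ∃ y, (θ, y) ∈ γ ∧ M.pc y' = M.pc y := Iff.rfl

theorem cut_mv (h : G) (θ : Z) (γ : Set (Z × (Z × P))) :
    M.cut θ (M.mv h γ) = M.mv h (M.cut θ γ) := by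
  ext ⟨θ', y'⟩
  rw [mem_cut, mem_mv, mem_mv, mem_cut]
  refine and_congr Iff.rfl ⟨?_, ?_⟩
  · rintro ⟨y, h1, h2⟩
    exact ⟨_, h1, (M.pc_act_iff _ _ _).mpr h2⟩
  · rintro ⟨y, h1, h2⟩
    refine ⟨M.act h y, M.act_mem_mv.mpr h1, ?_⟩
    rw [← M.pc_act_iff h⁻¹, act_inv_act]; exact h2

theorem rl_cut (σ : Equiv.Perm Z) (θ : Z) (γ : Set (Z × (Z × P))) :
    rl σ (M.cut θ γ) = M.cut (σ θ) (rl σ γ) := by
  ext ⟨θ', y'⟩
  simp [mem_rl, mem_cut]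

theorem rl_mv (σ : Equiv.Perm Z) (h : G) (γ : Set (Z × (Z × P))) :
    rl σ (M.mv h γ) = M.mv h (rl σ γ) := rfl

theorem rl_orb (σ : Equiv.Perm Z) (γ : Set (Z × (Z × P))) :
    rl σ '' M.orb γ = M.orb (rl σ γ) := by
  rw [orb, ← Set.range_comp]; rfl

/-- Tokens of a letter. -/
def dom (s : Set (Set (Z × (Z × P)))) : Set Z := {θ | ∃ γ ∈ s, ∃ y, (θ, y) ∈ γ}

theorem mem_dom_orb {γ : Set (Z × (Z × P))} {θ : Z} :
    θ ∈ dom (M.orb γ) ↔ ∃ y, (θ, y) ∈ γ := by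
  constructor
  · rintro ⟨_, ⟨h, rfl⟩, y, hy⟩
    exact ⟨_, hy⟩
  · rintro ⟨y, hy⟩
    exact ⟨γ, M.mem_orb_self γ, y, hy⟩

/-- Graph of a bijection from tokens onto an atom. -/
structure AG (ℓ : Set (Z × Z)) : Prop where
  fn : ∀ θ z z', (θ, z) ∈ ℓ → (θ, z') ∈ ℓ → z = z'
  inj : ∀ θ θ' z, (θ, z) ∈ ℓ → (θ', z) ∈ ℓ → θ = θ'
  col : ∀ θ z, (θ, z) ∈ ℓ → M.col θ = M.col z
  rng : ∃ z₀, ∀ z, (∃ θ, (θ, z) ∈ ℓ) ↔ M.atm z = M.atm z₀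

/-- Graph of a bijection from tokens onto a piece. -/
structure PG (γ : Set (Z × (Z × P))) : Prop where
  fn : ∀ θ y y', (θ, y) ∈ γ → (θ, y') ∈ γ → y = y'
  inj : ∀ θ θ' y, (θ, y) ∈ γ → (θ', y) ∈ γ → θ = θ'
  col : ∀ θ y, (θ, y) ∈ γ → M.col θ = M.col y.1
  rng : ∃ y₀, ∀ y, (∃ θ, (θ, y) ∈ γ) ↔ M.pc y = M.pc y₀

variable {M}

theorem AG.atm_eq {ℓ : Set (Z × Z)} (h : M.AG ℓ) {θ θ' z z' : Z} (h1 : (θ, z) ∈ ℓ)
    (h2 : (θ', z') ∈ ℓ) : M.atm z = M.atm z' := by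
  obtain ⟨z₀, h0⟩ := h.rng
  rw [(h0 z).mp ⟨_, h1⟩, (h0 z').mp ⟨_, h2⟩]

theorem AG.onto {ℓ : Set (Z × Z)} (h : M.AG ℓ) {θ z z' : Z} (h1 : (θ, z) ∈ ℓ)
    (h2 : M.atm z' = M.atm z) : ∃ θ', (θ', z') ∈ ℓ := by
  obtain ⟨z₀, h0⟩ := h.rng
  exact (h0 z').mpr (h2.trans ((h0 z).mp ⟨_, h1⟩))

theorem AG.nonempty {ℓ : Set (Z × Z)} (h : M.AG ℓ) : ∃ θ z, (θ, z) ∈ ℓ := by
  obtain ⟨z₀, h0⟩ := h.rng
  obtain ⟨θ, hθ⟩ := (h0 z₀).mpr rfl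
  exact ⟨θ, z₀, hθ⟩

theorem PG.pc_eq {γ : Set (Z × (Z × P))} (h : M.PG γ) {θ θ' : Z} {y y' : Z × P}
    (h1 : (θ, y) ∈ γ) (h2 : (θ', y') ∈ γ) : M.pc y = M.pc y' := by
  obtain ⟨y₀, h0⟩ := h.rng
  rw [(h0 y).mp ⟨_, h1⟩, (h0 y').mp ⟨_, h2⟩]

theorem PG.onto {γ : Set (Z × (Z × P))} (h : M.PG γ) {θ : Z} {y y' : Z × P} (h1 : (θ, y) ∈ γ)
    (h2 : M.pc y' = M.pc y) : ∃ θ', (θ', y') ∈ γ := by
  obtain ⟨y₀, h0⟩ := h.rng
  exact (h0 y').mpr (h2.trans ((h0 y).mp ⟨_, h1⟩))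

theorem PG.mv {γ : Set (Z × (Z × P))} (h : M.PG γ) (k : G) : M.PG (M.mv k γ) where
  fn θ y y' h1 h2 := (M.act k⁻¹).injective (h.fn _ _ _ h1 h2)
  inj θ θ' y h1 h2 := h.inj _ _ _ h1 h2
  col θ y h1 := by rw [h.col _ _ h1, M.col_act]
  rng := by
    obtain ⟨y₀, h0⟩ := h.rng
    refine ⟨M.act k y₀, fun y => ?_⟩
    rw [← M.pc_act_iff k⁻¹, act_inv_act, ← h0]
    rfl

theorem AG.gr_fn {ℓ : Set (Z × Z)} (h : M.AG ℓ) {π : P} {θ : Z} {y y' : Z × P}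
    (h1 : (θ, y) ∈ gr ℓ π) (h2 : (θ, y') ∈ gr ℓ π) : y = y' :=
  Prod.ext (h.fn _ _ _ h1.1 h2.1) (h1.2.trans h2.2.symm)

theorem AG.pg_o {ℓ : Set (Z × Z)} (h : M.AG ℓ) : M.PG (gr ℓ o) where
  fn θ y y' h1 h2 := h.gr_fn h1 h2
  inj θ θ' y h1 h2 := h.inj _ _ _ h1.1 h2.1
  col θ y h1 := h.col _ _ h1.1
  rng := by
    obtain ⟨z₀, h0⟩ := h.rng
    refine ⟨(z₀, o), fun y => ⟨?_, ?_⟩⟩
    · rintro ⟨θ, h1, h2⟩
      exact M.pc_o h2 rfl ((h0 _).mp ⟨_, h1⟩)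
    · intro e
      obtain ⟨θ, hθ⟩ := (h0 y.1).mpr (atm_of_pc e)
      exact ⟨θ, hθ, port_of_pc e⟩

theorem AG.pg_cut {ℓ : Set (Z × Z)} (h : M.AG ℓ) (π : P) {θ z : Z} (hz : (θ, z) ∈ ℓ) :
    M.PG (M.cut θ (gr ℓ π)) where
  fn θ' y y' h1 h2 := h.gr_fn h1.1 h2.1
  inj θ₁ θ₂ y h1 h2 := h.inj _ _ _ h1.1.1 h2.1.1
  col θ' y h1 := h.col _ _ h1.1.1
  rng := by
    refine ⟨(z, π), fun y => ⟨?_, ?_⟩⟩
    · rintro ⟨θ', -, y', h2, h3⟩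
      rw [h3, h.gr_fn h2 (y' := (z, π)) ⟨hz, rfl⟩]
    · intro e
      obtain ⟨θ', hθ'⟩ := h.onto hz (atm_of_pc e)
      exact ⟨θ', ⟨hθ', port_of_pc e⟩, (z, π), ⟨hz, rfl⟩, e⟩

theorem cut_eq_of_mem {γ : Set (Z × (Z × P))}
    (hf : ∀ θ y y', (θ, y) ∈ γ → (θ, y') ∈ γ → y = y') {θ θ' : Z} {y' : Z × P}
    (h : (θ', y') ∈ M.cut θ γ) : M.cut θ' γ = M.cut θ γ := by
  obtain ⟨h1, y, h2, h3⟩ := h
  ext ⟨θ'', y''⟩
  rw [mem_cut, mem_cut]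
  refine and_congr Iff.rfl ⟨?_, ?_⟩
  · rintro ⟨y₁, h4, h5⟩
    refine ⟨y, h2, ?_⟩
    rw [h5, hf _ _ _ h4 h1]; exact h3
  · rintro ⟨y₁, h4, h5⟩
    refine ⟨y', h1, ?_⟩
    rw [h5, hf _ _ _ h4 h2]; exact h3.symm

theorem self_mem_cut {γ : Set (Z × (Z × P))} {θ : Z} {y : Z × P} (h : (θ, y) ∈ γ) :
    (θ, y) ∈ M.cut θ γ := ⟨h, y, h, rfl⟩

variable (M)

/-- Colour preserving permutations of the tokens. -/
def Sym : Subgroup (Equiv.Perm Z) where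
  carrier := {σ | ∀ z, M.col (σ z) = M.col z}
  one_mem' := fun _ => rfl
  mul_mem' := fun {σ τ} h1 h2 z => (h1 (τ z)).trans (h2 z)
  inv_mem' := fun {σ} h z => by
    have := h (σ⁻¹ z)
    simpa using this.symm

variable {M} in
theorem AG.rl {ℓ : Set (Z × Z)} (h : M.AG ℓ) (σ : M.Sym) : M.AG (rl σ.1 ℓ) where
  fn θ z z' h1 h2 := h.fn _ _ _ h1 h2
  inj θ θ' z h1 h2 := (σ.1⁻¹).injective (h.inj _ _ _ h1 h2)
  col θ z h1 := by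
    rw [← h.col _ _ h1]
    exact ((σ⁻¹).2 θ).symm
  rng := by
    obtain ⟨z₀, h0⟩ := h.rng
    refine ⟨z₀, fun z => ?_⟩
    rw [← h0]
    constructor
    · rintro ⟨θ, hθ⟩; exact ⟨_, hθ⟩
    · rintro ⟨θ, hθ⟩; exact ⟨σ.1 θ, by simpa [mem_rl] using hθ⟩

/-- Cells: an atom graph and a port. -/
def Cell : Type := {c : Set (Z × Z) × P // M.AG c.1 ∧ c.2 ≠ o}

variable {M} in
theorem Cell.ext' {c c' : M.Cell} (h1 : c.1.1 = c'.1.1) (h2 : c.1.2 = c'.1.2) : c = c' :=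
  Subtype.ext (Prod.ext h1 h2)

theorem diag_fn (θ : Z) (y y' : Z × P) (h1 : (θ, y) ∈ gr (diag Z) o)
    (h2 : (θ, y') ∈ gr (diag Z) o) : y = y' :=
  Prod.ext ((show θ = y.1 from h1.1).symm.trans h2.1) (h1.2.trans h2.2.symm)

/-- The rewriting system of a model. -/
def rs : RS M.Sym Z (Set (Set (Z × (Z × P)))) M.Cell where
  supp c := {θ | ∃ z, (θ, z) ∈ c.1.1}
  a c := M.orb (gr c.1.1 o)
  b c θ := M.orb (M.cut θ (gr c.1.1 c.1.2))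
  dom := dom
  v0 θ := M.orb (M.cut θ (gr (diag Z) o))
  aΘ := M.Sym.subtype
  aΛ := permHom (fun σ s => rl σ.1 '' s)
    (fun s => by simp [rl_one])
    (fun σ τ s => by simp [rl_mul, Set.image_image])
  aC := permHom (fun σ c => ⟨(rl σ.1 c.1.1, c.1.2), c.2.1.rl σ, c.2.2⟩)
    (fun c => Cell.ext' (rl_one _) rfl)
    (fun σ τ c => Cell.ext' (rl_mul _ _ _) rfl)
  dom_a c := by
    ext θ
    rw [mem_dom_orb]
    exact ⟨fun ⟨y, hy⟩ => ⟨_, hy.1⟩, fun ⟨z, hz⟩ => ⟨(z, o), hz, rfl⟩⟩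
  dom_b c θ _ θ' h := by
    obtain ⟨y, hy⟩ := M.mem_dom_orb.mp h
    exact ⟨_, hy.1.1⟩
  mem_b c θ := fun ⟨z, hz⟩ =>
    M.mem_dom_orb.mpr ⟨(z, c.1.2), self_mem_cut ⟨hz, rfl⟩⟩
  b_eq c θ θ' _ h := by
    obtain ⟨y, hy⟩ := M.mem_dom_orb.mp h
    rw [cut_eq_of_mem (fun _ _ _ => c.2.1.gr_fn) hy]
  mem_v0 θ := M.mem_dom_orb.mpr ⟨(θ, o), self_mem_cut ⟨rfl, rfl⟩⟩
  v0_eq θ θ' h := by
    obtain ⟨y, hy⟩ := M.mem_dom_orb.mp h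
    rw [cut_eq_of_mem diag_fn hy]
  supp_act σ c θ := by
    change (∃ z, (σ.1 θ, z) ∈ rl σ.1 c.1.1) ↔ ∃ z, (θ, z) ∈ c.1.1
    simp [mem_rl]
  a_act σ c := (M.rl_orb σ.1 (gr c.1.1 o)).symm
  b_act σ c θ := by
    change M.orb (M.cut (σ.1 θ) (gr (rl σ.1 c.1.1) c.1.2)) = rl σ.1 '' M.orb _
    rw [rl_orb, rl_cut, rl_gr]

theorem mem_supp {c : M.Cell} {θ : Z} : θ ∈ M.rs.supp c ↔ ∃ z, (θ, z) ∈ c.1.1 := Iff.rfl
theorem rs_a (c : M.Cell) : M.rs.a c = M.orb (gr c.1.1 o) := rfl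
theorem rs_b (c : M.Cell) (θ : Z) : M.rs.b c θ = M.orb (M.cut θ (gr c.1.1 c.1.2)) := rfl
theorem rs_v0 (θ : Z) : M.rs.v0 θ = M.orb (M.cut θ (gr (diag Z) o)) := rfl
theorem rs_dom (s : Set (Set (Z × (Z × P)))) : M.rs.dom s = dom s := rfl

theorem supp_nonempty (c : M.Cell) : ∃ θ, θ ∈ M.rs.supp c := by
  obtain ⟨θ, z, h⟩ := c.2.1.nonempty
  exact ⟨θ, z, h⟩

/-- The graph of the relabelled base letter. -/
def baseG (σ : Equiv.Perm Z) (θ : Z) : Set (Z × Z) :=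
  {p | σ⁻¹ p.1 = p.2 ∧ M.atm p.2 = M.atm (σ⁻¹ θ)}

theorem act_v0 (σ : M.Sym) (θ : Z) :
    M.rs.act σ M.rs.v0 θ = M.orb (gr (M.baseG σ.1 θ) o) := by
  change rl σ.1 '' M.orb (M.cut (σ.1⁻¹ θ) (gr (diag Z) o)) = _
  rw [rl_orb]
  congr 1
  ext ⟨θ', y'⟩
  rw [mem_rl, mem_cut, mem_gr, mem_gr]
  constructor
  · rintro ⟨⟨h1, h2⟩, y, ⟨h3, h4⟩, h5⟩
    refine ⟨⟨h1, ?_⟩, h2⟩
    have h3' : σ.1⁻¹ θ = y.1 := h3
    rw [h3']; exact atm_of_pc h5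
  · rintro ⟨⟨h1, h2⟩, h3⟩
    exact ⟨⟨h1, h3⟩, (σ.1⁻¹ θ, o), ⟨rfl, rfl⟩, M.pc_o h3 rfl h2⟩

theorem v0_eq' (θ : Z) : M.rs.v0 θ = M.orb (gr (M.baseG 1 θ) o) := by
  have := M.act_v0 1 θ
  rwa [RS.act_one] at this

theorem baseG_AG (σ : M.Sym) (θ : Z) : M.AG (M.baseG σ.1 θ) where
  fn _ _ _ h1 h2 := h1.1.symm.trans h2.1
  inj _ _ _ h1 h2 := (σ.1⁻¹).injective (h1.1.trans h2.1.symm)
  col θ' z h := by
    have : σ.1⁻¹ θ' = z := h.1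
    rw [← this]; exact ((σ⁻¹).2 θ').symm
  rng := ⟨σ.1⁻¹ θ, fun z => ⟨fun ⟨_, h⟩ => h.2, fun h => ⟨σ.1 z, by simp, h⟩⟩⟩

theorem eq_one_of_act_v0 (σ : M.Sym) (h : M.rs.act σ M.rs.v0 = M.rs.v0) : σ = 1 := by
  have key : ∀ θ, σ.1⁻¹ θ = θ := by
    intro θ
    have e := congrFun h θ
    rw [act_v0, v0_eq'] at e
    have e2 := gr_inj (eq_of_orb_o (fun _ hp => hp.2) e)
    have : (θ, θ) ∈ M.baseG 1 θ := ⟨rfl, rfl⟩
    rw [e2] at this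
    exact this.1
  have : σ⁻¹ = 1 := Subtype.ext (Equiv.ext key)
  simpa using this

/-- An atom letter is never a piece letter at a proper port. -/
theorem a_ne_b (ℓ : Set (Z × Z)) (c : M.Cell) {θ : Z} (hθ : θ ∈ M.rs.supp c) :
    M.orb (gr ℓ o) ≠ M.rs.b c θ := by
  intro e
  obtain ⟨z, hz⟩ := hθ
  have e2 := eq_of_orb_o (fun _ hp => hp.2) e
  have : (θ, (z, c.1.2)) ∈ M.cut θ (gr c.1.1 c.1.2) := self_mem_cut ⟨hz, rfl⟩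
  rw [e2] at this
  exact c.2.2 this.2

/-- Every letter is the class of a piece graph. -/
def Typed (v : Z → Set (Set (Z × (Z × P)))) : Prop := ∀ θ, ∃ γ, M.PG γ ∧ v θ = M.orb γ

theorem typed_v0 : M.Typed M.rs.v0 := fun θ =>
  ⟨_, (M.baseG_AG 1 θ).pg_o, M.v0_eq' θ⟩

variable {M} in
theorem typed_step {v v' : Z → Set (Set (Z × (Z × P)))} {c : M.Cell} (h : M.rs.Step v c v')
    (hv : M.Typed v) : M.Typed v' := by
  intro θ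
  by_cases hθ : θ ∈ M.rs.supp c
  · rcases h.1 with h1 | h1
    · obtain ⟨z, hz⟩ := hθ
      exact ⟨_, c.2.1.pg_cut c.1.2 hz, (h1 θ ⟨z, hz⟩).2⟩
    · exact ⟨_, c.2.1.pg_o, (h1 θ hθ).2⟩
  · rw [h.2 θ hθ]; exact hv θ

variable {M} in
theorem typed_exec {v v' : Z → Set (Set (Z × (Z × P)))} {l : List M.Cell}
    (h : M.rs.Exec v l v') (hv : M.Typed v) : M.Typed v' := by
  induction l generalizing v with
  | nil => rw [← RS.exec_nil_iff.mp h]; exact hv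
  | cons c l ih =>
    obtain ⟨v1, h1, h2⟩ := RS.exec_cons_iff.mp h
    exact ih h2 (typed_step h1 hv)

end Mdl

end FG63
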