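import Mathlib

/-! Right-angled Coxeter groups on an arbitrary generating set. -/

open Classical

namespace FG63

variable {C : Type} (R : C → C → Prop) (hR : ∀ a b, R a b → R b a)

/-- Coxeter matrix of the right-angled Coxeter group in which `a`, `b` commute when `R a b`. -/
noncomputable def cox : CoxeterMatrix C where
  M := Matrix.of fun a b => if a = b then 1 else if R a b then 2 else 0
  isSymm := by
    ext a b
    simp only [Matrix.transpose_apply, Matrix.of_apply]
    by_cases h : a = b
    · subst h; simp
    · have h' : ¬ b = a := fun e => h e.symm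
      by_cases h2 : R a b
      · simp [h, h', h2, hR a b h2]
      · have : ¬ R b a := fun e => h2 (hR _ _ e)
        simp [h, h', h2, this]
  diagonal := by intro a; simp
  off_diagonal := by
    intro a b h
    simp only [Matrix.of_apply, h, if_false]
    split_ifs <;> simp

theorem cox_apply (a b : C) :
    cox R hR a b = if a = b then 1 else if R a b then 2 else 0 := rfl

/-- The group. -/
abbrev W : Type := (cox R hR).Group

/-- The generators. -/
noncomputable def gen (c : C) : W R hR := (cox R hR).toCoxeterSystem.simple c

theorem gen_mul_self (c : C) : gen R hR c * gen R hR c = 1 :=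
  (cox R hR).toCoxeterSystem.simple_mul_simple_self c

theorem gen_inv (c : C) : (gen R hR c)⁻¹ = gen R hR c :=
  (cox R hR).toCoxeterSystem.inv_simple c

theorem gen_comm {a b : C} (h : R a b) : Commute (gen R hR a) (gen R hR b) := by
  by_cases e : a = b
  · subst e; exact Commute.refl _
  have := (cox R hR).toCoxeterSystem.simple_mul_simple_pow a b
  rw [cox_apply, if_neg e, if_pos h] at this
  change (gen R hR a * gen R hR b) ^ 2 = 1 at this
  have h2 : gen R hR a * gen R hR b = (gen R hR a * gen R hR b)⁻¹ := by
    rw [eq_inv_iff_mul_eq_one, ← pow_two, this]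
  rw [mul_inv_rev, gen_inv, gen_inv] at h2
  exact h2

/-- Product of a word. -/
noncomputable def wp (l : List C) : W R hR := (l.map (gen R hR)).prod

@[simp] theorem wp_nil : wp R hR [] = 1 := rfl
@[simp] theorem wp_cons (c : C) (l : List C) : wp R hR (c :: l) = gen R hR c * wp R hR l := by
  simp [wp]
@[simp] theorem wp_append (l l' : List C) : wp R hR (l ++ l') = wp R hR l * wp R hR l' := by
  simp [wp]
theorem wp_reverse (l : List C) : wp R hR l.reverse = (wp R hR l)⁻¹ := by
  induction l with
  | nil => simp
  | cons c l ih => simp [ih, gen_inv]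

theorem wp_surj (w : W R hR) : ∃ l, wp R hR l = w :=
  (cox R hR).toCoxeterSystem.wordProd_surjective w

theorem gen_comm_wp {e : C} {m : List C} (h : ∀ c ∈ m, R e c) :
    Commute (gen R hR e) (wp R hR m) := by
  induction m with
  | nil => simp
  | cons c m ih =>
    rw [wp_cons]
    exact (gen_comm R hR (h c (by simp))).mul_right (ih fun d hd => h d (by simp [hd]))

theorem wp_comm_wp {m m' : List C} (h : ∀ c ∈ m, ∀ d ∈ m', R c d) :
    Commute (wp R hR m) (wp R hR m') := by
  induction m with
  | nil => simp
  | cons c m ih =>
    rw [wp_cons]
    exact (gen_comm_wp R hR (h c (by simp))).mul_left (ih fun d hd => h d (by simp [hd]))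

theorem wp_cancel (l₁ m l₃ : List C) (e : C) (h : ∀ c ∈ m, R e c) :
    wp R hR (l₁ ++ e :: (m ++ e :: l₃)) = wp R hR (l₁ ++ (m ++ l₃)) := by
  simp only [wp_append, wp_cons]
  congr 1
  rw [← mul_assoc, (gen_comm_wp R hR h).eq, mul_assoc, ← mul_assoc (gen R hR e), gen_mul_self,
    one_mul]

theorem wp_sq {m : List C} (h : m.Pairwise R) : wp R hR m * wp R hR m = 1 := by
  induction m with
  | nil => simp
  | cons c m ih =>
    rw [List.pairwise_cons] at h
    rw [wp_cons, mul_assoc, ← mul_assoc (wp R hR m), ← (gen_comm_wp R hR h.1).eq, mul_assoc,
      ih h.2, mul_one, gen_mul_self]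

theorem wp_perm {m m' : List C} (hp : m.Perm m') (h : m.Pairwise R) :
    wp R hR m = wp R hR m' := by
  unfold wp
  refine List.Perm.prod_eq' (hp.map _) ?_
  rw [List.pairwise_map]
  exact h.imp fun h => gen_comm R hR h

section lift
variable {G : Type} [Group G] (f : C → G) (h1 : ∀ c, f c * f c = 1)
  (h2 : ∀ a b, R a b → Commute (f a) (f b))

/-- Universal property. -/
noncomputable def lift : W R hR →* G :=
  (cox R hR).toCoxeterSystem.lift ⟨f, by
    intro a b
    rw [cox_apply]
    split_ifs with e h
    · subst e; simp [h1]
    · rw [pow_two, mul_assoc, ← mul_assoc (f b), ← (h2 a b h).eq, mul_assoc, h1, mul_one, h1]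
    · simp⟩

@[simp] theorem lift_gen (c : C) : lift R hR f h1 h2 (gen R hR c) = f c :=
  (cox R hR).toCoxeterSystem.lift_apply_simple _ c

theorem lift_wp (l : List C) : lift R hR f h1 h2 (wp R hR l) = (l.map f).prod := by
  induction l with
  | nil => simp
  | cons c l ih => simp [ih]

end lift

theorem hom_ext {G : Type} [Group G] {φ ψ : W R hR →* G}
    (h : ∀ c, φ (gen R hR c) = ψ (gen R hR c)) : φ = ψ :=
  (cox R hR).toCoxeterSystem.ext_simple h

/-- The retraction that kills one generator. -/
noncomputable def kill (s : C) : W R hR →* W R hR :=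
  lift R hR (fun c => if c = s then 1 else gen R hR c)
    (by intro c; split_ifs <;> simp [gen_mul_self])
    (by
      intro a b h
      split_ifs
      · exact Commute.refl _
      · exact Commute.one_left _
      · exact Commute.one_right _
      · exact gen_comm R hR h)

theorem kill_wp (s : C) (l : List C) :
    kill R hR s (wp R hR l) = wp R hR (l.filter (fun c => c ≠ s)) := by
  induction l with
  | nil => simp
  | cons c l ih =>
    rw [wp_cons, map_mul, ih]
    by_cases e : c = s
    · simp [kill, e]
    · simp [kill, e]

theorem eq_one_of_avoid {w : W R hR} (h : ∀ s, ∃ l, s ∉ l ∧ wp R hR l = w) : w = 1 := by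
  have key : ∀ n, ∀ l : List C, l.length ≤ n → wp R hR l = w → w = 1 := by
    intro n
    induction n with
    | zero =>
      intro l hl e
      have : l = [] := List.length_eq_zero_iff.mp (by omega)
      subst this; simpa using e.symm
    | succ n ih =>
      intro l hl e
      cases l with
      | nil => simpa using e.symm
      | cons s t =>
        obtain ⟨l', hs, e'⟩ := h s
        have k1 : kill R hR s w = w := by
          rw [← e', kill_wp]
          congr 1
          rw [List.filter_eq_self]
          intro c hc
          simp only [ne_eq, decide_not, Bool.not_eq_eq_eq_not, Bool.not_true,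
            decide_eq_false_iff_not]
          rintro rfl; exact hs hc
        refine ih (t.filter (fun c => c ≠ s)) ?_ ?_
        · have := List.length_filter_le (fun c => decide (c ≠ s)) t
          simp only [List.length_cons] at hl
          omega
        · rw [← k1, ← e, kill_wp]
          simp
  obtain ⟨l, e⟩ := wp_surj R hR w
  exact key _ l le_rfl e

/-- A word is reduced when no letter can be cancelled after commutations. -/
def Red (l : List C) : Prop :=
  ∀ l₁ e m l₃, l = l₁ ++ e :: (m ++ e :: l₃) → ¬ ∀ c ∈ m, R e c

/-- Reflection representation. -/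
noncomputable def refl (s : C) : (C → ℤ) → (C → ℤ) := fun x t =>
  if t = s then - x s else if R s t then x t else x t + 2 * x s

theorem refl_refl (s : C) (x : C → ℤ) : refl R s (refl R s x) = x := by
  funext t
  simp only [refl]
  split_ifs with h1 h2
  · subst h1; simp
  · rfl
  · simp

/-- The reflection as a permutation. -/
noncomputable def reflP (s : C) : Equiv.Perm (C → ℤ) :=
  Function.Involutive.toPerm (refl R s) (refl_refl R s)

include hR in
theorem refl_comm {a b : C} (h : R a b) : Commute (reflP R a) (reflP R b) := by
  by_cases e : a = b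
  · subst e; exact Commute.refl _
  have e' : ¬ b = a := fun k => e k.symm
  have h' := hR _ _ h
  ext x t
  change refl R a (refl R b x) t = refl R b (refl R a x) t
  simp only [refl]
  by_cases h1 : t = a
  · subst h1; simp [e, h']
  · by_cases h2 : t = b
    · subst h2; simp [e', h]
    · simp only [h1, h2, e, e', h, h', if_true, if_false]
      split_ifs <;> ring

/-- The representation. -/
noncomputable def rep : W R hR →* Equiv.Perm (C → ℤ) :=
  lift R hR (reflP R) (fun c => by ext x t; exact congrFun (refl_refl R c x) t)
    (fun _ _ h => refl_comm R hR h)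

theorem rep_gen (s : C) (x : C → ℤ) : rep R hR (gen R hR s) x = refl R s x := by
  rw [rep, lift_gen]; rfl

include hR in
theorem rep_inv (l : List C) (hl : Red R l) :
    (∀ t, (∀ u v, l = u ++ t :: v → ¬ ∀ c ∈ u, R t c) → 0 < rep R hR (wp R hR l) 1 t) ∧
    (∀ s t, s ≠ t → ¬ R s t →
      0 ≤ rep R hR (wp R hR l) 1 s + rep R hR (wp R hR l) 1 t) := by
  induction l with
  | nil => simp
  | cons s l ih =>
    have hl' : Red R l := by
      intro l₁ e m l₃ he
      exact hl (s :: l₁) e m l₃ (by simp [he])
    obtain ⟨i1, i2⟩ := ih hl'
    set x := rep R hR (wp R hR l) 1 with hx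
    have hs : 0 < x s := i1 s fun u v he => hl [] s u v (by simp [he])
    have hx' : rep R hR (wp R hR (s :: l)) 1 = refl R s x := by
      rw [wp_cons, map_mul, Equiv.Perm.mul_apply, ← hx, rep_gen]
    rw [hx']
    constructor
    · intro t ht
      have hts : t ≠ s := by
        rintro rfl
        exact ht [] l rfl (by simp)
      simp only [refl, hts, if_false]
      split_ifs with h
      · refine i1 t fun u v he hu => ht (s :: u) v (by simp [he]) ?_
        intro c hc
        rcases List.mem_cons.mp hc with rfl | hc
        · exact hR _ _ h
        · exact hu c hc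
      · have := i2 s t hts.symm h
        omega
    · intro a b hab hn
      have hn' : ¬ R b a := fun k => hn (hR _ _ k)
      have := i2 a b hab hn
      simp only [refl]
      by_cases h1 : a = s
      · subst h1
        simp only [if_true, hab.symm, if_false, hn]
        omega
      · by_cases h2 : b = s
        · subst h2
          simp only [if_true, hab, if_false, hn']
          omega
        · simp only [h1, h2, if_false]
          split_ifs <;> omega

theorem eq_nil_of_red {l : List C} (hl : Red R l) (h : wp R hR l = 1) : l = [] := by
  cases l with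
  | nil => rfl
  | cons s l =>
    exfalso
    have hl' : Red R l := by
      intro l₁ e m l₃ he
      exact hl (s :: l₁) e m l₃ (by simp [he])
    have hs : 0 < rep R hR (wp R hR l) 1 s :=
      (rep_inv R hR l hl').1 s fun u v he => hl [] s u v (by simp [he])
    have hx' : rep R hR (wp R hR (s :: l)) 1 = refl R s (rep R hR (wp R hR l) 1) := by
      rw [wp_cons, map_mul, Equiv.Perm.mul_apply, rep_gen]
    rw [h] at hx'
    have := congrFun hx' s
    simp [refl] at this
    omega

end FG63
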