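import Pool.Agent.Lib.MP_63c928_gt.FG.Model

/-! Refinement of the atoms. -/

open Classical

namespace FG63

variable {G : Type} [Group G] {P : Type} {o : P} {D D' D'' Z : Type}

/-- `M'` has the same action as `M` and finer atoms. -/
structure Ref (M : Mdl G P o D Z) (M' : Mdl G P o D' Z) : Prop where
  col : ∀ z, M'.col z = M.col z
  act : ∀ h y, M'.act h y = M.act h y
  atm : ∀ z z', M'.atm z = M'.atm z' → M.atm z = M.atm z'

namespace Ref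

variable {M : Mdl G P o D Z} {M' : Mdl G P o D' Z} {M'' : Mdl G P o D'' Z}

theorem pc (H : Ref M M') {y y' : Z × P} (e : M'.pc y = M'.pc y') : M.pc y = M.pc y' := by
  funext h
  have := Prod.ext_iff.mp (congrFun e h)
  simp only [Mdl.pc, H.act] at this
  exact Prod.ext (H.atm _ _ this.1) this.2

theorem mv (H : Ref M M') (h : G) (γ : Set (Z × (Z × P))) : M'.mv h γ = M.mv h γ := by
  ext ⟨θ, y⟩
  rw [Mdl.mem_mv, Mdl.mem_mv, H.act]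

theorem cut_orb (H : Ref M M') (θ : Z) (γ : Set (Z × (Z × P))) :
    M'.cut θ '' M.orb γ = M'.orb (M'.cut θ γ) := by
  rw [Mdl.orb, ← Set.range_comp]
  refine congrArg _ (funext fun h => ?_)
  change M'.cut θ (M.mv h γ) = _
  rw [← H.mv, Mdl.cut_mv]

theorem cut_cut (H : Ref M M') (θ : Z) (γ : Set (Z × (Z × P))) :
    M'.cut θ (M.cut θ γ) = M'.cut θ γ := by
  ext ⟨θ', y'⟩
  rw [Mdl.mem_cut, Mdl.mem_cut, Mdl.mem_cut]
  constructor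
  · rintro ⟨⟨h1, -⟩, y, h2, h3⟩
    exact ⟨h1, y, h2.1, h3⟩
  · rintro ⟨h1, y, h2, h3⟩
    exact ⟨⟨h1, y, h2, H.pc h3⟩, y, Mdl.self_mem_cut h2, h3⟩

theorem mem_of_sub {ℓ ℓ' : Set (Z × Z)} (h : M.AG ℓ) (h' : M'.AG ℓ') (hs : ℓ' ⊆ ℓ) {θ z θ' z' : Z}
    (hz : (θ, z) ∈ ℓ') (hz' : (θ', z') ∈ ℓ) (e : M'.atm z' = M'.atm z) : (θ', z') ∈ ℓ' := by
  obtain ⟨θ'', k⟩ := h'.onto hz e
  rw [h.inj _ _ _ hz' (hs k)]; exact k

theorem cut_sub {ℓ ℓ' : Set (Z × Z)} (h : M.AG ℓ) (h' : M'.AG ℓ') (hs : ℓ' ⊆ ℓ) {θ z : Z}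
    (hz : (θ, z) ∈ ℓ') (ρ : P) : M'.cut θ (gr ℓ ρ) = M'.cut θ (gr ℓ' ρ) := by
  ext ⟨θ', y'⟩
  rw [Mdl.mem_cut, Mdl.mem_cut]
  constructor
  · rintro ⟨h1, y, h2, h3⟩
    have e : y = (z, ρ) := h.gr_fn h2 ⟨hs hz, rfl⟩
    subst e
    exact ⟨⟨mem_of_sub h h' hs hz h1.1 (Mdl.atm_of_pc h3), h1.2⟩, _, ⟨hz, rfl⟩, h3⟩
  · rintro ⟨h1, y, h2, h3⟩
    exact ⟨⟨hs h1.1, h1.2⟩, y, ⟨hs h2.1, h2.2⟩, h3⟩

theorem cut_o {ℓ' : Set (Z × Z)} (h' : M'.AG ℓ') {θ z : Z} (hz : (θ, z) ∈ ℓ') :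
    M'.cut θ (gr ℓ' o) = gr ℓ' o := by
  ext ⟨θ', y'⟩
  refine ⟨fun h => h.1, fun h => ⟨h, (z, o), ⟨hz, rfl⟩, ?_⟩⟩
  exact h'.pg_o.pc_eq h (y' := (z, o)) ⟨hz, rfl⟩

variable (M') in
/-- Subcells. -/
def sub (c : M.Cell) : Set M'.Cell := {e | e.1.2 = c.1.2 ∧ e.1.1 ⊆ c.1.1}

theorem sub_eq {c : M.Cell} {e e' : M'.Cell} (h : e ∈ sub M' c) (h' : e' ∈ sub M' c)
    {θ z θ' z' : Z} (hz : (θ, z) ∈ e.1.1) (hz' : (θ', z') ∈ e'.1.1) (k : M'.atm z = M'.atm z') :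
    e = e' := by
  refine Mdl.Cell.ext' ?_ (h.1.trans h'.1.symm)
  ext ⟨θ₁, z₁⟩
  constructor
  · intro m
    exact mem_of_sub c.2.1 e'.2.1 h'.2 hz' (h.2 m) ((e.2.1.atm_eq m hz).trans k)
  · intro m
    exact mem_of_sub c.2.1 e.2.1 h.2 hz (h'.2 m) ((e'.2.1.atm_eq m hz').trans k.symm)

theorem sub_finite [Finite D'] (c : M.Cell) : (sub M' c).Finite := by
  refine Set.Finite.of_finite_image
    (f := fun e : M'.Cell => {d | ∃ θ z, (θ, z) ∈ e.1.1 ∧ M'.atm z = d}) (Set.toFinite _) ?_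
  intro e he e' he' k
  obtain ⟨θ, z, hz⟩ := e.2.1.nonempty
  have : M'.atm z ∈ {d | ∃ θ z, (θ, z) ∈ e.1.1 ∧ M'.atm z = d} := ⟨θ, z, hz, rfl⟩
  simp only at k
  rw [k] at this
  obtain ⟨θ', z', hz', k'⟩ := this
  exact sub_eq he he' hz hz' k'.symm

theorem sub_disj {c : M.Cell} {e e' : M'.Cell} (h : e ∈ sub M' c) (h' : e' ∈ sub M' c)
    (hne : e ≠ e') : M'.rs.R e e' := by
  rw [RS.R, Set.disjoint_left]
  rintro θ ⟨z, hz⟩ ⟨z', hz'⟩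
  exact hne (sub_eq h h' hz hz' (by rw [c.2.1.fn _ _ _ (h.2 hz) (h'.2 hz')]))

theorem supp_sub {c : M.Cell} {e : M'.Cell} (h : e ∈ sub M' c) : M'.rs.supp e ⊆ M.rs.supp c :=
  fun _ ⟨z, hz⟩ => ⟨z, h.2 hz⟩

theorem exists_sub (H : Ref M M') (c : M.Cell) {θ z : Z} (hz : (θ, z) ∈ c.1.1) :
    ∃ e ∈ sub M' c, e.1.1 = {p | p ∈ c.1.1 ∧ M'.atm p.2 = M'.atm z} := by
  refine ⟨⟨({p | p ∈ c.1.1 ∧ M'.atm p.2 = M'.atm z}, c.1.2), ⟨?_, ?_, ?_, ?_⟩, c.2.2⟩,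
    ⟨rfl, fun _ h => h.1⟩, rfl⟩
  · intro θ z z' h1 h2; exact c.2.1.fn _ _ _ h1.1 h2.1
  · intro θ θ' z h1 h2; exact c.2.1.inj _ _ _ h1.1 h2.1
  · intro θ z h1; rw [H.col, H.col]; exact c.2.1.col _ _ h1.1
  · refine ⟨z, fun z' => ⟨fun ⟨_, h⟩ => h.2, fun h => ?_⟩⟩
    obtain ⟨θ', k⟩ := c.2.1.onto hz (H.atm _ _ h)
    exact ⟨θ', k, h⟩

variable (M') in
/-- The list of subcells. -/
noncomputable def T [Finite D'] (c : M.Cell) : List M'.Cell := (sub_finite c).toFinset.toList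

theorem mem_T [Finite D'] {c : M.Cell} {e : M'.Cell} : e ∈ T M' c ↔ e ∈ sub M' c := by
  simp [T]

theorem nodup_T [Finite D'] (c : M.Cell) : (T M' c).Nodup := Finset.nodup_toList _

theorem pw_T [Finite D'] (c : M.Cell) : (T M' c).Pairwise M'.rs.R :=
  (nodup_T c).pairwise_of_forall_ne fun _ h _ h' hne => sub_disj (mem_T.mp h) (mem_T.mp h') hne

theorem sym_le (H : Ref M M') : M.Sym ≤ M'.Sym := fun σ hσ z => by
  rw [H.col, H.col]; exact hσ z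

theorem ref_ab (H : Ref M M') {c : M.Cell} {e : M'.Cell} (h : e ∈ sub M' c) {θ : Z}
    (hθ : θ ∈ M'.rs.supp e) :
    M'.cut θ '' M.rs.a c = M'.rs.a e ∧ M'.cut θ '' M.rs.b c θ = M'.rs.b e θ := by
  obtain ⟨z, hz⟩ := hθ
  constructor
  · rw [Mdl.rs_a, H.cut_orb, cut_sub c.2.1 e.2.1 h.2 hz, cut_o e.2.1 hz]; rfl
  · rw [Mdl.rs_b, H.cut_orb, H.cut_cut, cut_sub c.2.1 e.2.1 h.2 hz, ← h.1]; rfl

theorem not_mem_supp [Finite D'] (H : Ref M M') {c : M.Cell} {θ : Z}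
    (h : ∀ e ∈ T M' c, θ ∉ M'.rs.supp e) : θ ∉ M.rs.supp c := by
  rintro ⟨z, hz⟩
  obtain ⟨e, h1, h2⟩ := H.exists_sub c hz
  exact h e (mem_T.mpr h1) ⟨z, by rw [h2]; exact ⟨hz, rfl⟩⟩

/-- The refinement morphism. -/
noncomputable def mor [Finite D'] (H : Ref M M') : Mor M.rs M'.rs where
  T := T M'
  s v θ := M'.cut θ '' v θ
  ψ := Subgroup.inclusion H.sym_le
  pw := pw_T
  disj c c' h d hd d' hd' :=
    Set.disjoint_of_subset (supp_sub (mem_T.mp hd)) (supp_sub (mem_T.mp hd')) h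
  equiv σ c := by
    refine (List.perm_ext_iff_of_nodup (nodup_T _)
      ((nodup_T c).map (M'.rs.aC _).injective)).mpr fun e => ?_
    rw [mem_T, List.mem_map]
    constructor
    · intro h
      refine ⟨M'.rs.aC (Subgroup.inclusion H.sym_le σ)⁻¹ e, mem_T.mpr ⟨h.1, ?_⟩, by simp⟩
      rintro ⟨θ, z⟩ k
      have k2 : (σ.1⁻¹⁻¹ θ, z) ∈ rl σ.1 c.1.1 := h.2 k
      simpa [mem_rl] using k2
    · rintro ⟨e', h, rfl⟩
      rw [mem_T] at h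
      exact ⟨h.1, fun ⟨θ, z⟩ k => h.2 k⟩
  step v c v' h := by
    have ho : ∀ θ, (∀ e ∈ T M' c, θ ∉ M'.rs.supp e) → M'.cut θ '' v' θ = M'.cut θ '' v θ :=
      fun θ k => by rw [h.2 θ (H.not_mem_supp k)]
    rcases h.1 with h1 | h1
    · refine RS.exec_all (pw_T c) (fun e he θ hθ => ?_) ho
      have k := h1 θ (supp_sub (mem_T.mp he) hθ)
      rw [k.1, k.2]
      exact H.ref_ab (mem_T.mp he) hθ
    · refine RS.exec_all' (pw_T c) (fun e he θ hθ => ?_) ho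
      have k := h1 θ (supp_sub (mem_T.mp he) hθ)
      rw [k.1, k.2]
      exact (H.ref_ab (mem_T.mp he) hθ).symm
  base σ := by
    funext θ
    rw [Mdl.act_v0, Mdl.act_v0, H.cut_orb]
    have hz : (θ, σ.1⁻¹ θ) ∈ M'.baseG (Subgroup.inclusion H.sym_le σ).1 θ := ⟨rfl, rfl⟩
    rw [cut_sub (M.baseG_AG σ θ) (M'.baseG_AG (Subgroup.inclusion H.sym_le σ) θ)
      (fun _ k => ⟨k.1, H.atm _ _ k.2⟩) hz, cut_o (M'.baseG_AG _ θ) hz]

theorem flatMap_T_perm [Finite D'] [Finite D''] (H : Ref M M') (H' : Ref M' M'') (c : M.Cell) :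
    ((T M' c).flatMap (T M'')).Perm (T M'' c) := by
  refine (List.perm_ext_iff_of_nodup ?_ (nodup_T c)).mpr fun e => ?_
  · rw [List.nodup_flatMap]
    refine ⟨fun d _ => nodup_T d, (pw_T c).imp fun {d d'} h => ?_⟩
    intro e h1 h2
    obtain ⟨θ, hθ⟩ := M''.supp_nonempty e
    exact Set.disjoint_left.mp h (supp_sub (mem_T.mp h1) hθ) (supp_sub (mem_T.mp h2) hθ)
  · rw [List.mem_flatMap, mem_T]
    constructor
    · rintro ⟨d, h1, h2⟩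
      rw [mem_T] at h1 h2
      exact ⟨h2.1.trans h1.1, h2.2.trans h1.2⟩
    · intro h
      obtain ⟨θ, z, hz⟩ := e.2.1.nonempty
      obtain ⟨d, h1, h2⟩ := H.exists_sub c (h.2 hz)
      refine ⟨d, mem_T.mpr h1, mem_T.mpr ⟨h.1.trans h1.1.symm, ?_⟩⟩
      rintro ⟨θ', z'⟩ k
      rw [h2]
      exact ⟨h.2 k, H'.atm _ _ (e.2.1.atm_eq k hz)⟩

theorem wHom_comp [Finite D'] [Finite D''] (H : Ref M M') (H' : Ref M' M'') (H'' : Ref M M'')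
    (x : M.rs.WW) : H'.mor.wHom (H.mor.wHom x) = H''.mor.wHom x := by
  have : H'.mor.wHom.comp H.mor.wHom = H''.mor.wHom := by
    refine hom_ext _ _ fun c => ?_
    rw [MonoidHom.comp_apply, Mor.wHom_gen, Mor.wHom_gen, Mor.wHom_w]
    exact (wp_perm _ _ (flatMap_T_perm H H' c).symm (pw_T c)).symm
  exact DFunLike.congr_fun this x

theorem wHom_self [Finite D] (H : Ref M M) (x : M.rs.WW) : H.mor.wHom x = x := by
  have : H.mor.wHom = MonoidHom.id _ := by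
    refine hom_ext _ _ fun c => ?_
    rw [Mor.wHom_gen]
    have p : (T M c).Perm [c] := by
      refine (List.perm_ext_iff_of_nodup (nodup_T c) (List.nodup_singleton c)).mpr fun e => ?_
      rw [mem_T, List.mem_singleton]
      constructor
      · intro h
        obtain ⟨θ, z, hz⟩ := e.2.1.nonempty
        exact sub_eq (c := c) h ⟨rfl, subset_rfl⟩ hz (h.2 hz) rfl
      · rintro rfl; exact ⟨rfl, subset_rfl⟩
    exact (wp_perm _ _ p (pw_T c)).trans (by simp)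
  rw [this]; rfl

theorem piHom_comp [Finite D'] [Finite D''] (H : Ref M M') (H' : Ref M' M'') (H'' : Ref M M'')
    (x : M.rs.Pi) : H'.mor.piHom (H.mor.piHom x) = H''.mor.piHom x :=
  Subtype.ext (SemidirectProduct.ext (wHom_comp H H' H'' _) rfl)

theorem piHom_self [Finite D] (H : Ref M M) (x : M.rs.Pi) : H.mor.piHom x = x :=
  Subtype.ext (SemidirectProduct.ext (wHom_self H _) rfl)

end Ref

end FG63
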