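import Pool.Agent.Lib.MP_63c928_gt.FG.Model

/-! Restriction of a model to a colour class that meets every piece. -/

open Classical

namespace FG63

variable {G : Type} [Group G] {P : Type} {o : P} {D Z Z' : Type}

/-- A colour class that sees all pieces and their pointwise stabilisers. -/
structure Emb (M : Mdl G P o D Z) (M' : Mdl G P o D Z') where
  j : Z' → Z
  b0 : Bool
  inj : Function.Injective j
  rng : ∀ z, M.col z = b0 ↔ ∃ z', j z' = z
  col' : ∀ z z', M'.col z = M'.col z'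
  atm : ∀ z, M.atm (j z) = M'.atm z
  act : ∀ h y, M.act h (j y.1, y.2) = (j (M'.act h y).1, (M'.act h y).2)
  meet : ∀ y, ∃ y', M'.pc y' = M.pc y
  fix : ∀ h y, (∀ y', M'.pc y' = M.pc y → M'.act h y' = y') → M.act h y = y

namespace Emb

variable {M : Mdl G P o D Z} {M' : Mdl G P o D Z'} (E : Emb M M')

/-- The embedding on positions times ports. -/
def jj (y : Z' × P) : Z × P := (E.j y.1, y.2)

theorem act_jj (h : G) (y : Z' × P) : M.act h (E.jj y) = E.jj (M'.act h y) := E.act h y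

theorem jj_inj : Function.Injective E.jj := fun _ _ e =>
  Prod.ext (E.inj (Prod.ext_iff.mp e).1) (Prod.ext_iff.mp e).2

theorem pc_jj (y : Z' × P) : M.pc (E.jj y) = M'.pc y := by
  funext h
  simp only [Mdl.pc, act_jj]
  simp [jj, E.atm]

theorem col_j (z : Z') : M.col (E.j z) = E.b0 := (E.rng _).mpr ⟨z, rfl⟩

theorem exists_of_col {z : Z} {z' : Z'} (h : M.col z = M.col (E.j z')) : ∃ w, E.j w = z :=
  (E.rng _).mp (h.trans (E.col_j z'))

theorem exists_jj_of_col {y : Z × P} {z' : Z'} (h : M.col y.1 = M.col (E.j z')) :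
    ∃ w, E.jj w = y := by
  obtain ⟨w, hw⟩ := E.exists_of_col h
  exact ⟨(w, y.2), Prod.ext hw rfl⟩

/-- Restricted graph. -/
def res (γ : Set (Z × (Z × P))) : Set (Z' × (Z' × P)) := {p | (E.j p.1, E.jj p.2) ∈ γ}

/-- Restricted atom graph. -/
def resL (ℓ : Set (Z × Z)) : Set (Z' × Z') := {p | (E.j p.1, E.j p.2) ∈ ℓ}

theorem mem_res {γ : Set (Z × (Z × P))} {θ : Z'} {y : Z' × P} :
    (θ, y) ∈ E.res γ ↔ (E.j θ, E.jj y) ∈ γ := Iff.rfl

theorem res_gr (ℓ : Set (Z × Z)) (π : P) : E.res (gr ℓ π) = gr (E.resL ℓ) π := rfl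

theorem res_mv (h : G) (γ : Set (Z × (Z × P))) : E.res (M.mv h γ) = M'.mv h (E.res γ) := by
  ext ⟨θ, y⟩
  rw [mem_res, Mdl.mem_mv, Mdl.mem_mv, mem_res, act_jj]

theorem res_orb (γ : Set (Z × (Z × P))) : E.res '' M.orb γ = M'.orb (E.res γ) := by
  rw [Mdl.orb, ← Set.range_comp]
  exact congrArg _ (funext fun h => E.res_mv h γ)

theorem res_cut {γ : Set (Z × (Z × P))} (hγ : ∀ θ y, (θ, y) ∈ γ → M.col θ = M.col y.1)
    (θ : Z') : E.res (M.cut (E.j θ) γ) = M'.cut θ (E.res γ) := by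
  ext ⟨θ', y'⟩
  rw [mem_res, Mdl.mem_cut, Mdl.mem_cut, mem_res]
  refine and_congr Iff.rfl ⟨?_, ?_⟩
  · rintro ⟨y, h1, h2⟩
    obtain ⟨w, rfl⟩ := E.exists_jj_of_col (hγ _ _ h1).symm
    exact ⟨w, h1, by rwa [pc_jj, pc_jj] at h2⟩
  · rintro ⟨y, h1, h2⟩
    exact ⟨E.jj y, h1, by rwa [pc_jj, pc_jj]⟩

theorem meet_atm (z : Z) : ∃ z', M.atm (E.j z') = M.atm z := by
  obtain ⟨y', hy'⟩ := E.meet (z, o)
  rw [← pc_jj] at hy'
  exact ⟨y'.1, Mdl.atm_of_pc hy'⟩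

theorem resL_AG {ℓ : Set (Z × Z)} (h : M.AG ℓ) : M'.AG (E.resL ℓ) where
  fn θ z z' h1 h2 := E.inj (h.fn _ _ _ h1 h2)
  inj θ θ' z h1 h2 := E.inj (h.inj _ _ _ h1 h2)
  col θ z _ := E.col' _ _
  rng := by
    obtain ⟨z₀, h0⟩ := h.rng
    obtain ⟨z', hz'⟩ := E.meet_atm z₀
    refine ⟨z', fun z => ⟨?_, ?_⟩⟩
    · rintro ⟨θ, hθ⟩
      rw [← E.atm, ← E.atm, hz']
      exact (h0 _).mp ⟨_, hθ⟩
    · intro e
      obtain ⟨θ, hθ⟩ := (h0 (E.j z)).mpr (by rw [← hz', E.atm, E.atm, e])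
      obtain ⟨w, rfl⟩ := E.exists_of_col (h.col _ _ hθ)
      exact ⟨w, hθ⟩

/-- Restricted cell. -/
def resC (c : M.Cell) : M'.Cell := ⟨(E.resL c.1.1, c.1.2), E.resL_AG c.2.1, c.2.2⟩

theorem mem_supp_resC {c : M.Cell} {θ : Z'} :
    θ ∈ M'.rs.supp (E.resC c) ↔ E.j θ ∈ M.rs.supp c := by
  constructor
  · rintro ⟨z, hz⟩; exact ⟨_, hz⟩
  · rintro ⟨z, hz⟩
    obtain ⟨w, rfl⟩ := E.exists_of_col (c.2.1.col _ _ hz).symm
    exact ⟨w, hz⟩

theorem res_a (c : M.Cell) : E.res '' M.rs.a c = M'.rs.a (E.resC c) := E.res_orb _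

theorem res_b (c : M.Cell) (θ : Z') :
    E.res '' M.rs.b c (E.j θ) = M'.rs.b (E.resC c) θ := by
  rw [Mdl.rs_b, res_orb, E.res_cut fun θ y h => c.2.1.col _ _ h.1]
  rfl

theorem sym_ex (σ : M.Sym) (z : Z') : ∃ w, E.j w = σ.1 (E.j z) := E.exists_of_col (σ.2 _)

/-- Restricted permutation. -/
noncomputable def resF (σ : M.Sym) (z : Z') : Z' := (E.sym_ex σ z).choose

theorem j_resF (σ : M.Sym) (z : Z') : E.j (E.resF σ z) = σ.1 (E.j z) :=
  (E.sym_ex σ z).choose_spec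

/-- Restriction of permutations. -/
noncomputable def resS : M.Sym →* M'.Sym :=
  (permHom E.resF (fun z => E.inj (by rw [j_resF]; rfl))
    (fun σ τ z => E.inj (by rw [j_resF, j_resF, j_resF]; rfl))).codRestrict M'.Sym
    fun _ _ => E.col' _ _

theorem j_resS (σ : M.Sym) (z : Z') : E.j ((E.resS σ).1 z) = σ.1 (E.j z) := E.j_resF σ z

theorem j_resS_inv (σ : M.Sym) (z : Z') : E.j ((E.resS σ).1⁻¹ z) = σ.1⁻¹ (E.j z) := by
  have := E.j_resS σ⁻¹ z
  rwa [map_inv] at this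

/-- Restricted state. -/
def resV (v : Z → Set (Set (Z × (Z × P)))) : Z' → Set (Set (Z' × (Z' × P))) :=
  fun θ => E.res '' v (E.j θ)

theorem res_step {v v' : Z → Set (Set (Z × (Z × P)))} {c : M.Cell} (h : M.rs.Step v c v') :
    M'.rs.Step (E.resV v) (E.resC c) (E.resV v') := by
  refine ⟨?_, ?_⟩
  · rcases h.1 with h1 | h1
    · left
      intro θ hθ
      rw [mem_supp_resC] at hθ
      simp only [resV]
      rw [(h1 _ hθ).1, (h1 _ hθ).2, res_a, res_b]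
      exact ⟨rfl, rfl⟩
    · right
      intro θ hθ
      rw [mem_supp_resC] at hθ
      simp only [resV]
      rw [(h1 _ hθ).1, (h1 _ hθ).2, res_a, res_b]
      exact ⟨rfl, rfl⟩
  · intro θ hθ
    rw [mem_supp_resC] at hθ
    simp only [resV]
    rw [h.2 _ hθ]

theorem resL_baseG (σ : M.Sym) (θ : Z') :
    E.resL (M.baseG σ.1 (E.j θ)) = M'.baseG (E.resS σ).1 θ := by
  ext ⟨θ', z⟩
  change (σ.1⁻¹ (E.j θ') = E.j z ∧ M.atm (E.j z) = M.atm (σ.1⁻¹ (E.j θ))) ↔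
    ((E.resS σ).1⁻¹ θ' = z ∧ M'.atm z = M'.atm ((E.resS σ).1⁻¹ θ))
  rw [← j_resS_inv, ← j_resS_inv, E.atm, E.atm, E.inj.eq_iff]

/-- The restriction morphism. -/
noncomputable def mor : Mor M.rs M'.rs where
  T c := [E.resC c]
  s := E.resV
  ψ := E.resS
  pw c := List.pairwise_singleton _ _
  disj c c' h d hd d' hd' := by
    rw [List.mem_singleton] at hd hd'
    subst hd hd'
    rw [RS.R, Set.disjoint_left] at h ⊢
    intro θ h1 h2
    exact h (E.mem_supp_resC.mp h1) (E.mem_supp_resC.mp h2)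
  equiv σ c := by
    refine List.Perm.of_eq ?_
    rw [List.map_singleton]
    congr 1
    refine Mdl.Cell.ext' ?_ rfl
    ext ⟨θ, z⟩
    change (σ.1⁻¹ (E.j θ), E.j z) ∈ c.1.1 ↔ (E.j ((E.resS σ).1⁻¹ θ), E.j z) ∈ c.1.1
    rw [j_resS_inv]
  step v c v' h := (E.res_step h).exec
  base σ := by
    funext θ
    change E.res '' M.rs.act σ M.rs.v0 (E.j θ) = _
    rw [Mdl.act_v0, Mdl.act_v0, res_orb, res_gr, resL_baseG]

theorem flatMap_T (l : List M.Cell) : l.flatMap E.mor.T = l.map E.resC := by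
  induction l with
  | nil => rfl
  | cons c l ih => rw [List.flatMap_cons, ih]; rfl

theorem PG_meet {γ : Set (Z × (Z × P))} (h : M.PG γ) : ∃ θ y, (E.j θ, E.jj y) ∈ γ := by
  obtain ⟨y₀, h0⟩ := h.rng
  obtain ⟨y', hy'⟩ := E.meet y₀
  obtain ⟨θ, hθ⟩ := (h0 (E.jj y')).mpr (by rw [pc_jj, hy'])
  obtain ⟨w, rfl⟩ := E.exists_of_col (h.col _ _ hθ)
  exact ⟨w, y', hθ⟩

theorem PG_uniq {γ : Set (Z × (Z × P))} (h : M.PG γ) {k : G}
    (e : E.res (M.mv k γ) = E.res γ) : M.mv k γ = γ := by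
  have key : ∀ θ y, (θ, y) ∈ γ → M.act k y = y := by
    intro θ y hy
    refine E.fix k y fun y' hy' => ?_
    obtain ⟨θ', hθ'⟩ := h.onto hy (y' := E.jj y') (by rw [pc_jj, hy'])
    obtain ⟨w, rfl⟩ := E.exists_of_col (h.col _ _ hθ')
    have h1 : (w, M'.act k y') ∈ E.res (M.mv k γ) := by
      rw [mem_res, ← act_jj]; exact M.act_mem_mv.mpr hθ'
    rw [e] at h1
    exact E.jj_inj (h.fn _ _ _ h1 hθ')
  ext ⟨θ, y⟩
  rw [Mdl.mem_mv]
  constructor
  · intro h1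
    have := key _ _ h1
    rw [Mdl.act_act_inv] at this
    rwa [← this] at h1
  · intro h1
    have := key _ _ h1
    rw [← this, Mdl.act_inv_act]; exact h1

theorem dom_meet {v : Z → Set (Set (Z × (Z × P)))} (hv : M.Typed v) (θ : Z) :
    ∃ θ', E.j θ' ∈ M.rs.dom (v θ) := by
  obtain ⟨γ, h1, h2⟩ := hv θ
  obtain ⟨θ', y, h⟩ := E.PG_meet h1
  exact ⟨θ', by rw [h2]; exact M.mem_dom_orb.mpr ⟨_, h⟩⟩

theorem reflect_disj {v v' : Z → Set (Set (Z × (Z × P)))} {l : List M.Cell}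
    (h : M.rs.Exec v l v') (hc : M.rs.Cons v) (ht : M.Typed v) (T : Set Z)
    (hT : ∀ θ ∈ T, M.rs.dom (v θ) ⊆ T)
    (hl : ∀ c ∈ l, ∀ θ', E.j θ' ∈ T → E.j θ' ∉ M.rs.supp c) :
    ∀ c ∈ l, Disjoint T (M.rs.supp c) := by
  induction l generalizing v with
  | nil => simp
  | cons c l ih =>
    obtain ⟨v1, h1, h2⟩ := RS.exec_cons_iff.mp h
    have k : Disjoint T (M.rs.supp c) := by
      rw [Set.disjoint_left]
      intro θ hθ hs
      obtain ⟨θ', hθ'⟩ := E.dom_meet ht θ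
      have h3 := hl c (by simp) θ' (hT θ hθ hθ')
      refine RS.touch hc h1 h3 ?_ hs
      rw [(hc θ).2 _ hθ']; exact (hc θ).1
    intro d hd
    rcases List.mem_cons.mp hd with rfl | hd
    · exact k
    · refine ih h2 (h1.cons hc) (Mdl.typed_step h1 ht) ?_
        (fun e he => hl e (by simp [he])) d hd
      intro θ hθ
      rw [h1.2 θ (Set.disjoint_left.mp k hθ)]
      exact hT θ hθ

theorem cell_sub {c c' : M.Cell}
    (h : ∀ θ, E.j θ ∈ M.rs.supp c →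
      M.cut (E.j θ) (gr c.1.1 c.1.2) = M.cut (E.j θ) (gr c'.1.1 c'.1.2)) : c.1.1 ⊆ c'.1.1 := by
  rintro ⟨θ, z⟩ hz
  obtain ⟨y', hy'⟩ := E.meet (z, c.1.2)
  rw [← pc_jj] at hy'
  obtain ⟨θ', hθ'⟩ := c.2.1.onto hz (Mdl.atm_of_pc hy')
  obtain ⟨w, rfl⟩ := E.exists_of_col (c.2.1.col _ _ hθ')
  have h1 : (θ, (z, c.1.2)) ∈ M.cut (E.j w) (gr c.1.1 c.1.2) :=
    ⟨⟨hz, rfl⟩, E.jj y', ⟨hθ', Mdl.port_of_pc hy'⟩, hy'.symm⟩
  rw [h w ⟨_, hθ'⟩] at h1
  exact h1.1.1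

theorem reflect_eq {c c' : M.Cell} (e : E.resC c = E.resC c')
    {u u' v v' : Z → Set (Set (Z × (Z × P)))} (h1 : M.rs.Step u c u') (h2 : M.rs.Step v c' v')
    (huv : ∀ θ ∈ M.rs.supp c, v θ = u' θ) : c = c' := by
  have hp : c.1.2 = c'.1.2 := congrArg (fun d : M'.Cell => d.1.2) e
  have hs : ∀ θ, E.j θ ∈ M.rs.supp c ↔ E.j θ ∈ M.rs.supp c' := fun θ => by
    rw [← mem_supp_resC, ← mem_supp_resC, e]
  obtain ⟨θ₀, hθ₀⟩ := M'.supp_nonempty (E.resC c)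
  rw [mem_supp_resC] at hθ₀
  have hθ₀' := (hs _).mp hθ₀
  rcases h1.1 with k1 | k1 <;> rcases h2.1 with k2 | k2
  · exact absurd ((k2 _ hθ₀').1.symm.trans ((huv _ hθ₀).trans (k1 _ hθ₀).2))
      (M.a_ne_b _ c hθ₀)
  · have key : ∀ θ, E.j θ ∈ M.rs.supp c →
        M.cut (E.j θ) (gr c.1.1 c.1.2) = M.cut (E.j θ) (gr c'.1.1 c'.1.2) := by
      intro θ hθ
      have e1 : M.rs.b c (E.j θ) = M.rs.b c' (E.j θ) :=
        ((k1 _ hθ).2.symm.trans (huv _ hθ).symm).trans (k2 _ ((hs _).mp hθ)).1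
      obtain ⟨k, hk⟩ := Mdl.exists_mv_of_orb e1
      obtain ⟨z, hz⟩ := hθ
      rw [hk, E.PG_uniq (c.2.1.pg_cut _ hz)]
      rw [← hk, E.res_cut fun θ y h => c'.2.1.col _ _ h.1,
        E.res_cut fun θ y h => c.2.1.col _ _ h.1, res_gr, res_gr]
      have e2 : E.resL c.1.1 = E.resL c'.1.1 := congrArg (fun d : M'.Cell => d.1.1) e
      rw [e2, hp]
    refine Mdl.Cell.ext' (Set.Subset.antisymm (E.cell_sub key) (E.cell_sub ?_)) hp
    exact fun θ hθ => (key θ ((hs _).mpr hθ)).symm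
  · have e1 : M.rs.a c = M.rs.a c' :=
      ((k1 _ hθ₀).2.symm.trans (huv _ hθ₀).symm).trans (k2 _ hθ₀').1
    exact Mdl.Cell.ext' (gr_inj (Mdl.eq_of_orb_o (fun _ hp => hp.2) e1)).symm hp
  · exact absurd (((k1 _ hθ₀).2.symm.trans (huv _ hθ₀).symm).trans (k2 _ hθ₀').1)
      (M.a_ne_b _ c' hθ₀')

theorem eq_one_of_res {v' : Z → Set (Set (Z × (Z × P)))} (n : ℕ) :
    ∀ l : List M.Cell, l.length ≤ n → M.rs.Exec M.rs.v0 l v' → M'.rs.w (l.map E.resC) = 1 →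
      M.rs.w l = 1 ∧ M.rs.v0 = v' := by
  induction n with
  | zero =>
    intro l hl h _
    have : l = [] := List.length_eq_zero_iff.mp (by omega)
    subst this
    exact ⟨rfl, RS.exec_nil_iff.mp h⟩
  | succ n ih =>
    intro l hl h hw
    by_cases hr : Red M'.rs.R (l.map E.resC)
    · have := eq_nil_of_red _ _ hr hw
      have : l = [] := by simpa using this
      subst this
      exact ⟨rfl, RS.exec_nil_iff.mp h⟩
    · unfold Red at hr
      push Not at hr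
      obtain ⟨m₁, e, m₂, m₃, he, hm⟩ := hr
      obtain ⟨l₁, l', rfl, rfl, he2⟩ := List.map_eq_append_iff.mp he
      obtain ⟨c, l'', rfl, rfl, he3⟩ := List.map_eq_cons_iff.mp he2
      obtain ⟨l₂, l''', rfl, rfl, he4⟩ := List.map_eq_append_iff.mp he3
      obtain ⟨c', l₃, rfl, he5, rfl⟩ := List.map_eq_cons_iff.mp he4
      obtain ⟨v1, h1, h2⟩ := RS.exec_append_iff.mp h
      obtain ⟨v2, h3, h4⟩ := RS.exec_cons_iff.mp h2
      obtain ⟨v3, h5, h6⟩ := RS.exec_append_iff.mp h4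
      obtain ⟨v4, h7, h8⟩ := RS.exec_cons_iff.mp h6
      have c2 : M.rs.Cons v2 := h3.cons (h1.cons' RS.cons_v0)
      have t2 : M.Typed v2 := Mdl.typed_step h3 (Mdl.typed_exec h1 M.typed_v0)
      have hd : ∀ d ∈ l₂, M.rs.R c d := by
        refine E.reflect_disj h5 c2 t2 (M.rs.supp c) ?_ ?_
        · intro θ hθ
          rcases h3.1 with k | k
          · rw [(k θ hθ).2]; exact M.rs.dom_b c θ hθ
          · rw [(k θ hθ).2, M.rs.dom_a]
        · intro d hd θ' k1 k2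
          exact Set.disjoint_left.mp (hm _ (List.mem_map_of_mem hd)) (E.mem_supp_resC.mpr k1)
            (E.mem_supp_resC.mpr k2)
      have hcc : c = c' := E.reflect_eq he5.symm h3 h7 fun θ hθ =>
        h5.eq_off fun d hd' k => Set.disjoint_left.mp (hd d hd') hθ k
      subst hcc
      have k1 := RS.exec_cancel h hd
      have k2 := ih (l₁ ++ (l₂ ++ l₃)) (by simp at hl ⊢; omega) k1 (by
        rw [← hw]
        simp only [List.map_append, List.map_cons]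
        exact (wp_cancel _ _ _ _ _ _ hm).symm)
      exact ⟨(wp_cancel _ _ _ _ _ _ hd).trans k2.1, k2.2⟩

theorem piHom_injective : Function.Injective E.mor.piHom := by
  rw [injective_iff_map_eq_one]
  rintro ⟨x, l, h1, h2⟩ hx
  have hx' : E.mor.gHom x = 1 := congrArg Subtype.val hx
  have k : M'.rs.w (l.map E.resC) = 1 := by
    rw [← flatMap_T, ← Mor.wHom_w, h2, ← Mor.gHom_left, hx']; rfl
  obtain ⟨k1, k2⟩ := E.eq_one_of_res _ l le_rfl h1 k
  refine Subtype.ext (SemidirectProduct.ext ?_ ?_)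
  · exact h2.symm.trans k1
  · exact M.eq_one_of_act_v0 _ k2.symm

end Emb

end FG63
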