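import Pool.Agent.Lib.MP_63c928_gt.FG.Racg

/-! Abstract token rewriting systems and their picture groups. -/

open Classical

namespace FG63

/-- Tokens, letters and cells, with a group relabelling the tokens. -/
structure RS (S : Type) [Group S] (Θ Λ C : Type) where
  supp : C → Set Θ
  a : C → Λ
  b : C → Θ → Λ
  dom : Λ → Set Θ
  v0 : Θ → Λ
  aΘ : S →* Equiv.Perm Θ
  aΛ : S →* Equiv.Perm Λ
  aC : S →* Equiv.Perm C
  dom_a : ∀ c, dom (a c) = supp c
  dom_b : ∀ c θ, θ ∈ supp c → dom (b c θ) ⊆ supp c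
  mem_b : ∀ c θ, θ ∈ supp c → θ ∈ dom (b c θ)
  b_eq : ∀ c θ θ', θ ∈ supp c → θ' ∈ dom (b c θ) → b c θ' = b c θ
  mem_v0 : ∀ θ, θ ∈ dom (v0 θ)
  v0_eq : ∀ θ θ', θ' ∈ dom (v0 θ) → v0 θ' = v0 θ
  supp_act : ∀ σ c θ, aΘ σ θ ∈ supp (aC σ c) ↔ θ ∈ supp c
  a_act : ∀ σ c, a (aC σ c) = aΛ σ (a c)
  b_act : ∀ σ c θ, b (aC σ c) (aΘ σ θ) = aΛ σ (b c θ)

namespace RS

variable {S : Type} [Group S] {Θ Λ C : Type} (A : RS S Θ Λ C)

/-- Two cells commute when their supports are disjoint. -/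
def R (c c' : C) : Prop := Disjoint (A.supp c) (A.supp c')

theorem R_symm : ∀ c c', A.R c c' → A.R c' c := fun _ _ h => h.symm

/-- One rewriting step. -/
def Step (v : Θ → Λ) (c : C) (v' : Θ → Λ) : Prop :=
  ((∀ θ ∈ A.supp c, v θ = A.a c ∧ v' θ = A.b c θ) ∨
    (∀ θ ∈ A.supp c, v θ = A.b c θ ∧ v' θ = A.a c)) ∧ ∀ θ, θ ∉ A.supp c → v' θ = v θ

/-- Execution of a word. -/
inductive Exec : (Θ → Λ) → List C → (Θ → Λ) → Prop
  | nil (v : Θ → Λ) : Exec v [] v
  | cons {v v' v'' : Θ → Λ} {c : C} {l : List C} :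
      A.Step v c v' → Exec v' l v'' → Exec v (c :: l) v''

/-- Consistent states. -/
def Cons (v : Θ → Λ) : Prop :=
  ∀ θ, θ ∈ A.dom (v θ) ∧ ∀ θ' ∈ A.dom (v θ), v θ' = v θ

/-- Relabelled state. -/
def act (σ : S) (v : Θ → Λ) : Θ → Λ := fun θ => A.aΛ σ (v (A.aΘ σ⁻¹ θ))

variable {A}

theorem Step.symm {v v' : Θ → Λ} {c : C} (h : A.Step v c v') : A.Step v' c v := by
  refine ⟨?_, fun θ hθ => (h.2 θ hθ).symm⟩
  rcases h.1 with h1 | h1
  · exact Or.inr fun θ hθ => ⟨(h1 θ hθ).2, (h1 θ hθ).1⟩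
  · exact Or.inl fun θ hθ => ⟨(h1 θ hθ).2, (h1 θ hθ).1⟩

theorem exec_nil_iff {v v' : Θ → Λ} : A.Exec v [] v' ↔ v = v' :=
  ⟨fun h => by cases h; rfl, fun h => h ▸ Exec.nil v⟩

theorem exec_cons_iff {v v'' : Θ → Λ} {c : C} {l : List C} :
    A.Exec v (c :: l) v'' ↔ ∃ v', A.Step v c v' ∧ A.Exec v' l v'' :=
  ⟨fun h => by cases h with | cons h1 h2 => exact ⟨_, h1, h2⟩,
    fun ⟨_, h1, h2⟩ => Exec.cons h1 h2⟩

theorem Exec.append {v v' v'' : Θ → Λ} {l l' : List C} (h : A.Exec v l v')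
    (h' : A.Exec v' l' v'') : A.Exec v (l ++ l') v'' := by
  induction h with
  | nil => exact h'
  | cons h1 _ ih => exact Exec.cons h1 (ih h')

theorem exec_append_iff {v v'' : Θ → Λ} {l l' : List C} :
    A.Exec v (l ++ l') v'' ↔ ∃ v', A.Exec v l v' ∧ A.Exec v' l' v'' := by
  refine ⟨?_, fun ⟨_, h1, h2⟩ => h1.append h2⟩
  induction l generalizing v with
  | nil => exact fun h => ⟨v, Exec.nil v, h⟩
  | cons c l ih =>
    intro h
    obtain ⟨v1, h1, h2⟩ := exec_cons_iff.mp h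
    obtain ⟨v2, h3, h4⟩ := ih h2
    exact ⟨v2, Exec.cons h1 h3, h4⟩

theorem Step.exec {v v' : Θ → Λ} {c : C} (h : A.Step v c v') : A.Exec v [c] v' :=
  Exec.cons h (Exec.nil _)

theorem Exec.reverse {v v' : Θ → Λ} {l : List C} (h : A.Exec v l v') :
    A.Exec v' l.reverse v := by
  induction h with
  | nil => exact Exec.nil _
  | cons h1 _ ih => rw [List.reverse_cons]; exact ih.append h1.symm.exec

theorem Exec.eq_off {v v' : Θ → Λ} {l : List C} (h : A.Exec v l v') {θ : Θ}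
    (hθ : ∀ c ∈ l, θ ∉ A.supp c) : v' θ = v θ := by
  induction h with
  | nil => rfl
  | cons h1 _ ih =>
    rw [ih fun c hc => hθ c (by simp [hc])]
    exact h1.2 θ (hθ _ (by simp))

theorem act_one (v : Θ → Λ) : A.act 1 v = v := by
  funext θ; simp [act]

theorem act_mul (σ τ : S) (v : Θ → Λ) : A.act (σ * τ) v = A.act σ (A.act τ v) := by
  funext θ; simp [act]

theorem act_apply (σ : S) (v : Θ → Λ) (θ : Θ) :
    A.act σ v (A.aΘ σ θ) = A.aΛ σ (v θ) := by
  simp [act]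

theorem Step.act {v v' : Θ → Λ} {c : C} (h : A.Step v c v') (σ : S) :
    A.Step (A.act σ v) (A.aC σ c) (A.act σ v') := by
  refine ⟨?_, ?_⟩
  · rcases h.1 with h1 | h1
    · left
      intro θ hθ
      obtain ⟨θ, rfl⟩ := (A.aΘ σ).surjective θ
      rw [A.supp_act] at hθ
      rw [act_apply, act_apply, A.a_act, A.b_act, (h1 θ hθ).1, (h1 θ hθ).2]
      exact ⟨rfl, rfl⟩
    · right
      intro θ hθ
      obtain ⟨θ, rfl⟩ := (A.aΘ σ).surjective θ
      rw [A.supp_act] at hθ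
      rw [act_apply, act_apply, A.a_act, A.b_act, (h1 θ hθ).1, (h1 θ hθ).2]
      exact ⟨rfl, rfl⟩
  · intro θ hθ
    obtain ⟨θ, rfl⟩ := (A.aΘ σ).surjective θ
    rw [A.supp_act] at hθ
    rw [act_apply, act_apply, h.2 θ hθ]

theorem Exec.act {v v' : Θ → Λ} {l : List C} (h : A.Exec v l v') (σ : S) :
    A.Exec (A.act σ v) (l.map (A.aC σ)) (A.act σ v') := by
  induction h with
  | nil => exact Exec.nil _
  | cons h1 _ ih => exact Exec.cons (h1.act σ) ih

theorem R_act (σ : S) {c c' : C} (h : A.R c c') : A.R (A.aC σ c) (A.aC σ c') := by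
  rw [R, Set.disjoint_left] at h ⊢
  intro θ h1 h2
  obtain ⟨θ, rfl⟩ := (A.aΘ σ).surjective θ
  rw [A.supp_act] at h1 h2
  exact h h1 h2

theorem cons_v0 : A.Cons A.v0 := fun θ => ⟨A.mem_v0 θ, A.v0_eq θ⟩

theorem touch {v v' : Θ → Λ} {c : C} (hv : A.Cons v) (h : A.Step v c v') {θ θ' : Θ}
    (hθ : θ ∉ A.supp c) (h' : θ' ∈ A.dom (v θ)) : θ' ∉ A.supp c := by
  intro h2
  have e := (hv θ).2 θ' h'
  have m := (hv θ).1
  rw [← e] at m
  rcases h.1 with h1 | h1
  · rw [(h1 θ' h2).1, A.dom_a] at m; exact hθ m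
  · rw [(h1 θ' h2).1] at m; exact hθ (A.dom_b c θ' h2 m)

theorem Step.cons {v v' : Θ → Λ} {c : C} (h : A.Step v c v') (hv : A.Cons v) :
    A.Cons v' := by
  intro θ
  by_cases hθ : θ ∈ A.supp c
  · rcases h.1 with h1 | h1
    · rw [(h1 θ hθ).2]
      refine ⟨A.mem_b c θ hθ, fun θ' h' => ?_⟩
      rw [(h1 θ' (A.dom_b c θ hθ h')).2, A.b_eq c θ θ' hθ h']
    · rw [(h1 θ hθ).2, A.dom_a]
      exact ⟨hθ, fun θ' h' => (h1 θ' h').2⟩
  · rw [h.2 θ hθ]
    refine ⟨(hv θ).1, fun θ' h' => ?_⟩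
    rw [h.2 θ' (touch hv h hθ h'), (hv θ).2 θ' h']

theorem Exec.cons' {v v' : Θ → Λ} {l : List C} (h : A.Exec v l v') (hv : A.Cons v) :
    A.Cons v' := by
  induction h with
  | nil => exact hv
  | cons h1 _ ih => exact ih (h1.cons hv)

theorem Exec.touch {v v' : Θ → Λ} {l : List C} (h : A.Exec v l v') (hv : A.Cons v)
    {θ θ' : Θ} (hθ : ∀ c ∈ l, θ ∉ A.supp c) (h' : θ' ∈ A.dom (v θ)) :
    ∀ c ∈ l, θ' ∉ A.supp c := by
  induction h with
  | nil => simp
  | @cons v v1 v2 c l h1 _ ih =>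
    have k : θ ∉ A.supp c := hθ c (by simp)
    intro d hd
    rcases List.mem_cons.mp hd with rfl | hd
    · exact RS.touch hv h1 k h'
    · refine ih (h1.cons hv) (fun e he => hθ e (by simp [he])) ?_ d hd
      rw [h1.2 θ k]; exact h'

/-- Executing a word whose cells avoid a set only depends on the complement. -/
theorem Exec.patch {v v' : Θ → Λ} {l : List C} (h : A.Exec v l v') (T : Set Θ)
    (hT : ∀ c ∈ l, Disjoint T (A.supp c)) (u : Θ → Λ) :
    A.Exec (fun θ => if θ ∈ T then u θ else v θ) l (fun θ => if θ ∈ T then u θ else v' θ) := by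
  induction h with
  | nil => exact Exec.nil _
  | @cons v v1 v2 c l h1 _ ih =>
    refine Exec.cons ?_ (ih fun d hd => hT d (by simp [hd]))
    have k : ∀ θ ∈ A.supp c, θ ∉ T := fun θ hθ h' =>
      Set.disjoint_left.mp (hT c (by simp)) h' hθ
    refine ⟨?_, ?_⟩
    · rcases h1.1 with h2 | h2
      · left; intro θ hθ; simp only [k θ hθ, if_false]; exact h2 θ hθ
      · right; intro θ hθ; simp only [k θ hθ, if_false]; exact h2 θ hθ
    · intro θ hθ
      by_cases e : θ ∈ T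
      · simp [e]
      · simp only [e, if_false]; exact h1.2 θ hθ

theorem exec_cancel {v v' : Θ → Λ} {l₁ m l₃ : List C} {e : C}
    (h : A.Exec v (l₁ ++ e :: (m ++ e :: l₃)) v') (hm : ∀ c ∈ m, A.R e c) :
    A.Exec v (l₁ ++ (m ++ l₃)) v' := by
  obtain ⟨v1, h1, h2⟩ := exec_append_iff.mp h
  obtain ⟨v2, h3, h4⟩ := exec_cons_iff.mp h2
  obtain ⟨v3, h5, h6⟩ := exec_append_iff.mp h4
  obtain ⟨v4, h7, h8⟩ := exec_cons_iff.mp h6
  refine h1.append (Exec.append ?_ h8)
  have k := h5.patch (A.supp e) hm v1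
  have e1 : (fun θ => if θ ∈ A.supp e then v1 θ else v2 θ) = v1 := by
    funext θ
    split_ifs with hθ
    · rfl
    · exact h3.2 θ hθ
  have e2 : (fun θ => if θ ∈ A.supp e then v1 θ else v3 θ) = v4 := by
    funext θ
    split_ifs with hθ
    · have k2 : v3 θ = v2 θ := h5.eq_off fun c hc h' => Set.disjoint_left.mp (hm c hc) hθ h'
      rcases h3.1 with h9 | h9 <;> rcases h7.1 with h10 | h10
      · rw [(h10 θ hθ).2, ← (h9 θ hθ).2, ← k2, (h10 θ hθ).1, (h9 θ hθ).1]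
      · rw [(h10 θ hθ).2, (h9 θ hθ).1]
      · rw [(h10 θ hθ).2, (h9 θ hθ).1]
      · rw [(h10 θ hθ).2, ← (h9 θ hθ).2, ← k2, (h10 θ hθ).1, (h9 θ hθ).1]
    · exact (h7.2 θ hθ).symm
  rwa [e1, e2] at k

/-- Simultaneous execution of cells with disjoint supports. -/
theorem exec_all {l : List C} (hl : l.Pairwise A.R) {v v' : Θ → Λ}
    (h1 : ∀ c ∈ l, ∀ θ ∈ A.supp c, v θ = A.a c ∧ v' θ = A.b c θ)
    (h2 : ∀ θ, (∀ c ∈ l, θ ∉ A.supp c) → v' θ = v θ) : A.Exec v l v' := by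
  induction l generalizing v with
  | nil =>
    have : v' = v := funext fun θ => h2 θ (by simp)
    subst this; exact Exec.nil _
  | cons c l ih =>
    rw [List.pairwise_cons] at hl
    refine Exec.cons (v' := fun θ => if θ ∈ A.supp c then v' θ else v θ) ⟨Or.inl ?_, ?_⟩
      (ih hl.2 ?_ ?_)
    · intro θ hθ
      simp only [hθ, if_true]
      exact h1 c (by simp) θ hθ
    · intro θ hθ
      simp [hθ]
    · intro d hd θ hθ
      have : θ ∉ A.supp c := fun k => Set.disjoint_left.mp (hl.1 d hd) k hθ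
      simp only [this, if_false]
      exact h1 d (by simp [hd]) θ hθ
    · intro θ hθ
      by_cases k : θ ∈ A.supp c
      · simp [k]
      · simp only [k, if_false]
        refine h2 θ fun d hd => ?_
        rcases List.mem_cons.mp hd with rfl | hd
        · exact k
        · exact hθ d hd

theorem exec_all' {l : List C} (hl : l.Pairwise A.R) {v v' : Θ → Λ}
    (h1 : ∀ c ∈ l, ∀ θ ∈ A.supp c, v θ = A.b c θ ∧ v' θ = A.a c)
    (h2 : ∀ θ, (∀ c ∈ l, θ ∉ A.supp c) → v' θ = v θ) : A.Exec v l v' := by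
  have := exec_all (l := l.reverse) (v := v') (v' := v)
    (List.pairwise_reverse.mpr (hl.imp fun h => A.R_symm _ _ h))
    (fun c hc θ hθ => (h1 c (List.mem_reverse.mp hc) θ hθ).symm)
    (fun θ hθ => (h2 θ fun c hc => hθ c (List.mem_reverse.mpr hc)).symm)
  simpa using this.reverse

variable (A)

/-- The right-angled Coxeter group on the cells. -/
abbrev WW : Type := W A.R A.R_symm

/-- Product of a word of cells. -/
noncomputable abbrev w (l : List C) : A.WW := wp A.R A.R_symm l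

/-- Relabelling endomorphism. -/
noncomputable def autHom (σ : S) : A.WW →* A.WW :=
  lift A.R A.R_symm (fun c => gen A.R A.R_symm (A.aC σ c)) (fun _ => gen_mul_self _ _ _)
    (fun _ _ h => gen_comm _ _ (R_act σ h))

theorem autHom_gen (σ : S) (c : C) :
    A.autHom σ (gen A.R A.R_symm c) = gen A.R A.R_symm (A.aC σ c) := lift_gen _ _ _ _ _ _

theorem autHom_comp (σ τ : S) : (A.autHom σ).comp (A.autHom τ) = A.autHom (σ * τ) :=
  hom_ext _ _ fun c => by simp [autHom_gen]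

theorem autHom_one : A.autHom 1 = MonoidHom.id _ :=
  hom_ext _ _ fun c => by simp [autHom_gen]

/-- Relabelling action on the Coxeter group. -/
noncomputable def φ : S →* MulAut A.WW where
  toFun σ := MonoidHom.toMulEquiv (A.autHom σ) (A.autHom σ⁻¹)
    (by rw [autHom_comp, inv_mul_cancel, autHom_one])
    (by rw [autHom_comp, mul_inv_cancel, autHom_one])
  map_one' := by
    ext x
    change A.autHom 1 x = x
    rw [autHom_one]; rfl
  map_mul' σ τ := by
    ext x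
    change A.autHom (σ * τ) x = A.autHom σ (A.autHom τ x)
    rw [← autHom_comp]; rfl

theorem φ_gen (σ : S) (c : C) :
    A.φ σ (gen A.R A.R_symm c) = gen A.R A.R_symm (A.aC σ c) := A.autHom_gen σ c

theorem φ_w (σ : S) (l : List C) : A.φ σ (A.w l) = A.w (l.map (A.aC σ)) := by
  induction l with
  | nil => simp
  | cons c l ih =>
    rw [List.map_cons, w, w, wp_cons, wp_cons, map_mul, φ_gen]
    exact congrArg _ ih

/-- The picture group. -/
def Pi : Subgroup (SemidirectProduct A.WW S A.φ) where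
  carrier := {x | ∃ l, A.Exec A.v0 l (A.act x.right A.v0) ∧ A.w l = x.left}
  one_mem' := ⟨[], by simpa [act_one] using Exec.nil _, by simp⟩
  mul_mem' := by
    rintro x y ⟨l, h1, h2⟩ ⟨l', h3, h4⟩
    refine ⟨l ++ l'.map (A.aC x.right), ?_, ?_⟩
    · rw [SemidirectProduct.mul_right, act_mul]
      exact h1.append (h3.act _)
    · rw [SemidirectProduct.mul_left, w, wp_append, ← h2, ← h4, φ_w]
  inv_mem' := by
    rintro x ⟨l, h1, h2⟩
    refine ⟨l.reverse.map (A.aC x.right⁻¹), ?_, ?_⟩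
    · have := h1.reverse.act x.right⁻¹
      rw [← act_mul, inv_mul_cancel, act_one] at this
      rw [SemidirectProduct.inv_right]
      exact this
    · rw [SemidirectProduct.inv_left, ← φ_w, w, wp_reverse, ← h2]

theorem mem_Pi {x : SemidirectProduct A.WW S A.φ} :
    x ∈ A.Pi ↔ ∃ l, A.Exec A.v0 l (A.act x.right A.v0) ∧ A.w l = x.left := Iff.rfl

end RS

/-- Morphisms of rewriting systems. -/
structure Mor {S S' : Type} [Group S] [Group S'] {Θ Λ C Θ' Λ' C' : Type}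
    (A : RS S Θ Λ C) (B : RS S' Θ' Λ' C') where
  T : C → List C'
  s : (Θ → Λ) → (Θ' → Λ')
  ψ : S →* S'
  pw : ∀ c, (T c).Pairwise B.R
  disj : ∀ c c', A.R c c' → ∀ d ∈ T c, ∀ d' ∈ T c', B.R d d'
  equiv : ∀ σ c, (T (A.aC σ c)).Perm ((T c).map (B.aC (ψ σ)))
  step : ∀ v c v', A.Step v c v' → B.Exec (s v) (T c) (s v')
  base : ∀ σ, s (A.act σ A.v0) = B.act (ψ σ) B.v0

namespace Mor

variable {S S' : Type} [Group S] [Group S'] {Θ Λ C Θ' Λ' C' : Type}
  {A : RS S Θ Λ C} {B : RS S' Θ' Λ' C'} (F : Mor A B)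

theorem base1 : F.s A.v0 = B.v0 := by
  have := F.base 1
  rwa [map_one, RS.act_one, RS.act_one] at this

theorem exec {v v' : Θ → Λ} {l : List C} (h : A.Exec v l v') :
    B.Exec (F.s v) (l.flatMap F.T) (F.s v') := by
  induction h with
  | nil => exact RS.Exec.nil _
  | cons h1 _ ih => rw [List.flatMap_cons]; exact (F.step _ _ _ h1).append ih

/-- The map on Coxeter groups. -/
noncomputable def wHom : A.WW →* B.WW :=
  lift A.R A.R_symm (fun c => B.w (F.T c)) (fun c => wp_sq _ _ (F.pw c))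
    (fun c c' h => wp_comm_wp _ _ (F.disj c c' h))

theorem wHom_gen (c : C) : F.wHom (gen A.R A.R_symm c) = B.w (F.T c) := lift_gen _ _ _ _ _ _

theorem wHom_w (l : List C) : F.wHom (A.w l) = B.w (l.flatMap F.T) := by
  induction l with
  | nil => simp
  | cons c l ih =>
    rw [List.flatMap_cons, RS.w, RS.w, wp_cons, wp_append, map_mul, wHom_gen]
    exact congrArg _ ih

/-- The map on semidirect products. -/
noncomputable def gHom : SemidirectProduct A.WW S A.φ →* SemidirectProduct B.WW S' B.φ :=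
  SemidirectProduct.map F.wHom F.ψ (by
    intro σ
    refine hom_ext _ _ fun c => ?_
    change F.wHom (A.φ σ (gen A.R A.R_symm c)) = B.φ (F.ψ σ) (F.wHom (gen A.R A.R_symm c))
    rw [RS.φ_gen, wHom_gen, wHom_gen, RS.φ_w]
    exact wp_perm _ _ (F.equiv σ c) (F.pw _))

theorem gHom_left (x : SemidirectProduct A.WW S A.φ) : (F.gHom x).left = F.wHom x.left := rfl
theorem gHom_right (x : SemidirectProduct A.WW S A.φ) : (F.gHom x).right = F.ψ x.right := rfl

theorem gHom_mem {x : SemidirectProduct A.WW S A.φ} (hx : x ∈ A.Pi) : F.gHom x ∈ B.Pi := by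
  obtain ⟨l, h1, h2⟩ := hx
  refine ⟨l.flatMap F.T, ?_, ?_⟩
  · have := F.exec h1
    rwa [base1, F.base] at this
  · rw [gHom_left, ← h2, wHom_w]

/-- The map on picture groups. -/
noncomputable def piHom : A.Pi →* B.Pi :=
  (F.gHom.comp A.Pi.subtype).codRestrict B.Pi fun x => F.gHom_mem x.2

theorem piHom_coe (x : A.Pi) : (F.piHom x : SemidirectProduct B.WW S' B.φ) = F.gHom x := rfl

end Mor

end FG63
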