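import Pool.Agent.Lib.MP_63c928_gt.FG.Lift
import Pool.Agent.Lib.MP_63c928_gt.FG.Defs

/-! Comparison of two models with the same pieces. -/

open Classical

namespace FG63

variable {G : Type} [Group G] {P : Type} {o : P} {D Z₁ Z₂ : Type}

namespace Mdl

/-- The action on the disjoint union. -/
def sumF (M₁ : Mdl G P o D Z₁) (M₂ : Mdl G P o D Z₂) (h : G) :
    (Z₁ ⊕ Z₂) × P → (Z₁ ⊕ Z₂) × P
  | (Sum.inl z, π) => (Sum.inl (M₁.act h (z, π)).1, (M₁.act h (z, π)).2)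
  | (Sum.inr z, π) => (Sum.inr (M₂.act h (z, π)).1, (M₂.act h (z, π)).2)

/-- The disjoint union of two models. -/
def sum (M₁ : Mdl G P o D Z₁) (M₂ : Mdl G P o D Z₂) : Mdl G P o D (Z₁ ⊕ Z₂) where
  col := Sum.isLeft
  atm := Sum.elim M₁.atm M₂.atm
  act := permHom (sumF M₁ M₂)
    (by rintro ⟨z | z, π⟩ <;> simp [sumF])
    (by rintro h k ⟨z | z, π⟩ <;> simp [sumF])
  act_o := by rintro h (z | z) <;> simp [sumF, act_o]
  col_act := by rintro h ⟨z | z, π⟩ <;> simp [sumF]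

variable (M₁ : Mdl G P o D Z₁) (M₂ : Mdl G P o D Z₂)

theorem sum_pc_inl (z : Z₁) (π : P) : (M₁.sum M₂).pc (Sum.inl z, π) = M₁.pc (z, π) := rfl
theorem sum_pc_inr (z : Z₂) (π : P) : (M₁.sum M₂).pc (Sum.inr z, π) = M₂.pc (z, π) := rfl

/-- The two models have the same pieces with the same pointwise stabilisers. -/
structure Compat : Prop where
  c1 : ∀ z z', M₁.col z = M₁.col z'
  c2 : ∀ z z', M₂.col z = M₂.col z'
  r1 : ∀ y, ∃ y', M₂.pc y' = M₁.pc y
  r2 : ∀ y, ∃ y', M₁.pc y' = M₂.pc y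
  fx : ∀ h u, (∀ y, M₁.pc y = u → M₁.act h y = y) ↔ (∀ y, M₂.pc y = u → M₂.act h y = y)

variable {M₁ M₂}

theorem sum_fix {h : G} {y : (Z₁ ⊕ Z₂) × P}
    (h1 : ∀ y', M₁.pc y' = (M₁.sum M₂).pc y → M₁.act h y' = y')
    (h2 : ∀ y', M₂.pc y' = (M₁.sum M₂).pc y → M₂.act h y' = y') : (M₁.sum M₂).act h y = y := by
  obtain ⟨z | z, π⟩ := y
  · change (Sum.inl (M₁.act h (z, π)).1, (M₁.act h (z, π)).2) = _
    rw [h1 (z, π) rfl]
  · change (Sum.inr (M₂.act h (z, π)).1, (M₂.act h (z, π)).2) = _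
    rw [h2 (z, π) rfl]

/-- Left embedding. -/
def Compat.embL (H : Compat M₁ M₂) : Emb (M₁.sum M₂) M₁ where
  j := Sum.inl
  b0 := true
  inj := Sum.inl_injective
  rng := by rintro (z | z) <;> simp [sum]
  col' := H.c1
  atm _ := rfl
  act _ _ := rfl
  meet := by
    rintro ⟨z | z, π⟩
    · exact ⟨_, rfl⟩
    · exact H.r2 (z, π)
  fix h y k := sum_fix k ((H.fx h _).mp k)

/-- Right embedding. -/
def Compat.embR (H : Compat M₁ M₂) : Emb (M₁.sum M₂) M₂ where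
  j := Sum.inr
  b0 := false
  inj := Sum.inr_injective
  rng := by rintro (z | z) <;> simp [sum]
  col' := H.c2
  atm _ := rfl
  act _ _ := rfl
  meet := by
    rintro ⟨z | z, π⟩
    · exact H.r1 (z, π)
    · exact ⟨_, rfl⟩
  fix h y k := sum_fix ((H.fx h _).mpr k) k

theorem Compat.exists_inj (H : Compat M₁ M₂) :
    ∃ φ : M₁.rs.Pi →* M₂.rs.Pi, Function.Injective φ := by
  let e := MulEquiv.ofBijective H.embL.mor.piHom ⟨H.embL.piHom_injective, H.embL.piHom_surjective⟩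
  exact ⟨H.embR.mor.piHom.comp e.symm.toMonoidHom,
    H.embR.piHom_injective.comp e.symm.injective⟩

end Mdl

theorem VirtuallyInRACG.of_injective {H H' : Type} [Group H] [Group H'] (φ : H →* H')
    (hφ : Function.Injective φ) (h : VirtuallyInRACG H') : VirtuallyInRACG H := by
  obtain ⟨K, hK, B, hB, N, hN, ψ, hψ⟩ := h
  refine ⟨K.comap φ, ⟨?_⟩, B, hB, N, hN,
    ψ.comp ((φ.comp (K.comap φ).subtype).codRestrict K fun x => x.2), ?_⟩
  · rw [Subgroup.index_comap]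
    exact Subgroup.FiniteIndex.index_ne_zero
  · refine hψ.comp fun x y e => ?_
    exact Subtype.ext (hφ (congrArg Subtype.val e))

theorem Mdl.virt_finite [Finite P] [Finite Z₂] (M : Mdl G P o D Z₂) :
    VirtuallyInRACG M.rs.Pi := by
  refine VirtuallyInRACG.of_injective M.rs.Pi.subtype Subtype.val_injective ?_
  have : Finite M.Cell := by unfold Mdl.Cell; infer_instance
  refine ⟨(SemidirectProduct.rightHom (N := M.rs.WW) (φ := M.rs.φ)).ker, inferInstance,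
    M.Cell, this, cox M.rs.R M.rs.R_symm, ?_, ⟨⟨fun x => x.1.left, rfl⟩, ?_⟩, ?_⟩
  · intro i j h
    rw [cox_apply, if_neg h]
    split_ifs <;> simp
  · rintro ⟨x, hx⟩ ⟨y, hy⟩
    have hx' : x.right = 1 := hx
    change (x * y).left = x.left * y.left
    rw [SemidirectProduct.mul_left, hx']
    simp
  · rintro ⟨x, hx⟩ ⟨y, hy⟩ e
    have hx' : x.right = 1 := hx
    have hy' : y.right = 1 := hy
    exact Subtype.ext (SemidirectProduct.ext e (hx'.trans hy'.symm))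

theorem Mdl.Compat.virt [Finite P] [Finite Z₂] {M₁ : Mdl G P o D Z₁} {M₂ : Mdl G P o D Z₂}
    (H : Mdl.Compat M₁ M₂) : VirtuallyInRACG M₁.rs.Pi := by
  obtain ⟨φ, hφ⟩ := H.exists_inj
  exact VirtuallyInRACG.of_injective φ hφ M₂.virt_finite

end FG63
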