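import Pool.Agent.Lib.MP_63c928_gt.FG.Refine

/-! The models attached to clopen partitions of a space. -/

open Classical Topology Filter

namespace FG63

section dq
variable {X : Type} [TopologicalSpace X]

theorem proj_mono {Q Q' : DiscreteQuotient X} (h : Q' ≤ Q) {z z' : X}
    (e : Q'.proj z = Q'.proj z') : Q.proj z = Q.proj z' := by
  rw [← DiscreteQuotient.ofLE_proj h, ← DiscreteQuotient.ofLE_proj h, e]

theorem ev_clopen {U : Set X} (hU : IsClopen U) :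
    ∀ᶠ Q : DiscreteQuotient X in atBot, ∀ z z', Q.proj z = Q.proj z' → z ∈ U → z' ∈ U := by
  filter_upwards [eventually_le_atBot (DiscreteQuotient.ofIsClopen hU)] with Q hQ z z' e hz
  have : (DiscreteQuotient.ofIsClopen hU).toSetoid z z' := Quotient.exact (proj_mono hQ e)
  exact (show z ∈ U ↔ z' ∈ U from this).mp hz

theorem ev_comap (Q₁ : DiscreteQuotient X) (g : X ≃ₜ X) :
    ∀ᶠ Q : DiscreteQuotient X in atBot, ∀ z z', Q.proj z = Q.proj z' →
      Q₁.proj (g z) = Q₁.proj (g z') := by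
  filter_upwards [eventually_le_atBot (Q₁.comap ⟨g, g.continuous⟩)] with Q hQ z z' e
  have : (Q₁.comap ⟨g, g.continuous⟩).toSetoid z z' := Quotient.exact (proj_mono hQ e)
  exact Quotient.sound this

variable [CompactSpace X] [T2Space X] [TotallyDisconnectedSpace X]

theorem ev_nhds {N : Set X} {z : X} (hN : N ∈ 𝓝 z) :
    ∀ᶠ Q : DiscreteQuotient X in atBot, ∀ z', Q.proj z' = Q.proj z → z' ∈ N := by
  obtain ⟨U, hU, h1, h2⟩ := isTopologicalBasis_isClopen.mem_nhds_iff.mp hN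
  filter_upwards [ev_clopen hU] with Q hQ z' e
  exact h2 (hQ z z' e.symm h1)

theorem ev_cover (N : X → Set X) (hN : ∀ x, N x ∈ 𝓝 x) :
    ∀ᶠ Q : DiscreteQuotient X in atBot, ∀ z, ∃ x, ∀ z', Q.proj z' = Q.proj z → z' ∈ N x := by
  choose U hU h1 h2 using fun x => isTopologicalBasis_isClopen.mem_nhds_iff.mp (hN x)
  obtain ⟨t, ht⟩ := isCompact_univ.elim_nhds_subcover U fun x _ =>
    (hU x).isOpen.mem_nhds (h1 x)
  have := (eventually_all_finset t).mpr fun x _ => ev_clopen (hU x)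
  filter_upwards [this] with Q hQ z
  obtain ⟨x, hx, hz⟩ := Set.mem_iUnion₂.mp (ht.2 (Set.mem_univ z))
  exact ⟨x, fun z' e => h2 x (hQ x hx z z' e.symm hz)⟩

end dq

/-- A group acting on `X × P` by a cocycle of homeomorphisms. -/
structure Core (X : Type) [TopologicalSpace X] (G : Type) [Group G] (P : Type) (o : P) where
  st : G → P → (X ≃ₜ X)
  pt : G → P → P
  st_one : ∀ π, st 1 π = 1
  pt_one : ∀ π, pt 1 π = π
  st_mul : ∀ h k π, st (h * k) π = st h (pt k π) * st k π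
  pt_mul : ∀ h k π, pt (h * k) π = pt h (pt k π)
  st_o : ∀ h, st h o = 1
  pt_o : ∀ h, pt h o = o

namespace Core

variable {X : Type} [TopologicalSpace X] {G : Type} [Group G] {P : Type} {o : P}
  (K : Core X G P o)

/-- The model at a clopen partition. -/
def lv (Q : DiscreteQuotient X) : Mdl G P o Q X where
  col _ := true
  atm := Q.proj
  act := permHom (fun h y => (K.st h y.2 y.1, K.pt h y.2))
    (fun y => by simp [K.st_one, K.pt_one])
    (fun h k y => by simp [K.st_mul, K.pt_mul])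
  act_o h z := by simp [K.st_o, K.pt_o]
  col_act _ _ := rfl

theorem lv_act (Q : DiscreteQuotient X) (h : G) (z : X) (π : P) :
    (K.lv Q).act h (z, π) = (K.st h π z, K.pt h π) := rfl

theorem lv_atm (Q : DiscreteQuotient X) (z : X) : (K.lv Q).atm z = Q.proj z := rfl

theorem ref {Q Q' : DiscreteQuotient X} (h : Q' ≤ Q) : Ref (K.lv Q) (K.lv Q') :=
  ⟨fun _ => rfl, fun _ _ => rfl, fun _ _ e => proj_mono h e⟩

/-- The group generated by the steps. -/
def Γ : Subgroup (X ≃ₜ X) := Subgroup.closure {g | ∃ h π, K.st h π = g}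

theorem st_mem (h : G) (π : P) : K.st h π ∈ K.Γ := Subgroup.subset_closure ⟨h, π, rfl⟩

variable [Finite G] {Q : DiscreteQuotient X}

theorem pc_loc (z : X) (π : P) :
    ∀ᶠ z' in 𝓝 z, (K.lv Q).pc (z', π) = (K.lv Q).pc (z, π) := by
  have : ∀ h : G, ∀ᶠ z' in 𝓝 z, Q.proj (K.st h π z') = Q.proj (K.st h π z) := fun h =>
    (Q.proj_isLocallyConstant.comp_continuous (K.st h π).continuous).eventually_eq z
  filter_upwards [eventually_all.mpr this] with z' hz'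
  funext h
  exact Prod.ext (hz' h) rfl

theorem ev_cut {ℓ : Set (X × X)} {θ : X} (g : X ≃ₜ X) (h : ∀ᶠ θ' in 𝓝 θ, (θ', g θ') ∈ ℓ)
    (ρ : P) : ∀ᶠ θ' in 𝓝 θ, (θ', (g θ', ρ)) ∈ (K.lv Q).cut θ (gr ℓ ρ) := by
  filter_upwards [h, g.continuous.continuousAt.eventually (K.pc_loc (Q := Q) (g θ) ρ)]
    with θ' h1 h2
  exact ⟨⟨h1, rfl⟩, (g θ, ρ), ⟨h.self_of_nhds, rfl⟩, h2⟩

variable (Q) in
/-- Every token has moved, locally, by an element of the group. -/
def Loc (v : X → Set (Set (X × (X × P)))) : Prop :=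
  ∀ θ, ∃ γ, v θ = (K.lv Q).orb γ ∧ ∃ g ∈ K.Γ, ∃ π, ∀ᶠ θ' in 𝓝 θ, (θ', (g θ', π)) ∈ γ

theorem loc_v0 : K.Loc Q (K.lv Q).rs.v0 := fun _ =>
  ⟨_, rfl, 1, one_mem _, o, K.ev_cut 1 (Eventually.of_forall fun _ => rfl) o⟩

variable {K}

theorem loc_step {v v' : X → Set (Set (X × (X × P)))} {c : (K.lv Q).Cell}
    (h : (K.lv Q).rs.Step v c v') (hv : K.Loc Q v) : K.Loc Q v' := by
  intro θ
  by_cases hθ : θ ∈ (K.lv Q).rs.supp c
  · obtain ⟨γ, e, g, hg, π, ev⟩ := hv θ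
    rcases h.1 with h1 | h1
    · have e2 := Mdl.eq_of_orb_o (fun _ hp => hp.2) ((h1 θ hθ).1.symm.trans e)
      subst e2
      exact ⟨_, (h1 θ hθ).2, g, hg, c.1.2, K.ev_cut g (ev.mono fun _ k => k.1) _⟩
    · obtain ⟨k, hk⟩ := Mdl.exists_mv_of_orb (e.symm.trans (h1 θ hθ).1)
      refine ⟨_, (h1 θ hθ).2, K.st k π * g, mul_mem (K.st_mem _ _) hg, o, ?_⟩
      filter_upwards [ev] with θ' m
      have m2 := (K.lv Q).act_mem_mv (h := k) |>.mpr m
      rw [← hk] at m2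
      exact ⟨m2.1.1, rfl⟩
  · rw [h.2 θ hθ]; exact hv θ

theorem loc_exec {v v' : X → Set (Set (X × (X × P)))} {l : List (K.lv Q).Cell}
    (h : (K.lv Q).rs.Exec v l v') (hv : K.Loc Q v) : K.Loc Q v' := by
  induction h with
  | nil => exact hv
  | cons h1 _ ih => exact ih (loc_step h1 hv)

theorem ev_avoid {v' : X → Set (Set (X × (X × P)))} {l : List (K.lv Q).Cell}
    (h : (K.lv Q).rs.Exec (K.lv Q).rs.v0 l v') {θ : X}
    (hθ : ∀ c ∈ l, θ ∉ (K.lv Q).rs.supp c) :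
    ∀ᶠ θ' in 𝓝 θ, ∀ c ∈ l, θ' ∉ (K.lv Q).rs.supp c := by
  obtain ⟨γ, e, g, -, π, ev⟩ := K.loc_v0 (Q := Q) θ
  filter_upwards [ev] with θ' m
  refine h.touch RS.cons_v0 hθ ?_
  rw [e]
  exact (K.lv Q).mem_dom_orb.mpr ⟨_, m⟩

theorem loc_inv (x : (K.lv Q).rs.Pi) (θ : X) :
    ∃ g : X ≃ₜ X, ∀ᶠ θ' in 𝓝 θ, x.1.right.1⁻¹ θ' = g θ' := by
  obtain ⟨l, h1, -⟩ := x.2
  obtain ⟨γ, e, g, -, π, ev⟩ := loc_exec h1 K.loc_v0 θ
  rw [Mdl.act_v0] at e
  have e2 := Mdl.eq_of_orb_o (fun _ hp => hp.2) e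
  subst e2
  exact ⟨g, ev.mono fun _ m => m.1.1⟩

theorem cont_inv (x : (K.lv Q).rs.Pi) : Continuous fun θ => x.1.right.1⁻¹ θ := by
  rw [continuous_iff_continuousAt]
  intro θ
  obtain ⟨g, hg⟩ := loc_inv x θ
  exact g.continuous.continuousAt.congr (EventuallyEq.symm hg)

variable (K Q) in
/-- The cocone to the homeomorphism group. -/
def ε : (K.lv Q).rs.Pi →* (X ≃ₜ X) where
  toFun x := ⟨x.1.right.1, cont_inv x⁻¹, cont_inv x⟩
  map_one' := rfl
  map_mul' _ _ := rfl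

theorem ε_apply (x : (K.lv Q).rs.Pi) (θ : X) : K.ε Q x θ = x.1.right.1 θ := rfl

end Core

end FG63
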